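import Pool.Agent.H76Brennan.Density

set_option autoImplicit false
set_option linter.unusedSectionVars false
set_option linter.style.haveILetI false
open Complex Set Metric Filter Topology MeasureTheory
open scoped ENNReal NNReal

namespace Pool.Agent.H76Brennan

section
variable {Ω : Set ℂ} {φ ψ : ℂ → ℂ} {R : ℝ} {W : ℝ → ℝ}

/-- Two-sided bound of `log |ψ'|`. -/
theorem Conf.log_deriv_bound (h : Conf Ω φ ψ R) {ℓ : ℂ → ℂ}
    (hℓe : ∀ a : ℂ, ‖a‖ < 1 → Complex.exp (ℓ a) = deriv ψ a) :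
    ∃ C : ℝ, 0 < C ∧ ∀ a : ℂ, ‖a‖ < 1 → |(ℓ a).re| ≤ C / (1 - ‖a‖) := by
  obtain ⟨C, hC, hge⟩ := h.deriv_ge
  have hR := h.Rpos
  refine ⟨C + 1 + |Real.log (2 * R)| + 1, by positivity, ?_⟩
  intro a ha
  have h1a : 0 < 1 - ‖a‖ := by linarith
  have h1a' : 1 - ‖a‖ ≤ 1 := by linarith [norm_nonneg a]
  have hdiv : ∀ X : ℝ, 0 ≤ X → X ≤ X / (1 - ‖a‖) := by
    intro X hX
    rw [le_div_iff₀ h1a]
    nlinarith
  have hre : (ℓ a).re = Real.log ‖deriv ψ a‖ := by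
    rw [← hℓe a ha, Complex.norm_exp, Real.log_exp]
  have hpos : 0 < ‖deriv ψ a‖ := norm_pos_iff.2 (h.deriv_ne ha)
  rw [hre, abs_le]
  constructor
  · have h1 := hge a ha
    have h2 := Real.log_le_log (by positivity) h1
    rw [Real.log_div (Real.exp_pos _).ne' (by norm_num), Real.log_exp] at h2
    have h3 : Real.log 2 ≤ 1 := by
      have := Real.log_le_sub_one_of_pos (show (0 : ℝ) < 2 by norm_num)
      linarith
    have h4 : (C + 1 + |Real.log (2 * R)| + 1) / (1 - ‖a‖) =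
        C / (1 - ‖a‖) + (1 + |Real.log (2 * R)| + 1) / (1 - ‖a‖) := by
      rw [← add_div]; congr 1; ring
    have h5 := hdiv (1 + |Real.log (2 * R)| + 1) (by positivity)
    have h6 : 0 ≤ |Real.log (2 * R)| := abs_nonneg _
    rw [h4]
    linarith
  · have h1 := h.deriv_le ha
    have h2 := Real.log_le_log hpos h1
    rw [Real.log_div (by positivity) h1a.ne'] at h2
    have h3 : -Real.log (1 - ‖a‖) ≤ 1 / (1 - ‖a‖) := by
      rw [← Real.log_inv, ← one_div]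
      have := Real.log_le_sub_one_of_pos (show 0 < 1 / (1 - ‖a‖) by positivity)
      linarith
    have h4 : Real.log (2 * R) ≤ |Real.log (2 * R)| := le_abs_self _
    have h5 : (C + 1 + |Real.log (2 * R)| + 1) / (1 - ‖a‖) =
        1 / (1 - ‖a‖) + (C + |Real.log (2 * R)| + 1) / (1 - ‖a‖) := by
      rw [← add_div]; congr 1; ring
    have h6 := hdiv (C + |Real.log (2 * R)| + 1) (by positivity)
    rw [h5]
    linarith

/-- Dilations have moderate growth. -/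
theorem Conf.dil_growth (h : Conf Ω φ ψ R) {ℓ : ℂ → ℂ}
    (hℓe : ∀ a : ℂ, ‖a‖ < 1 → Complex.exp (ℓ a) = deriv ψ a)
    {p : ℝ} (hp : 1 ≤ p) {f : ℂ → ℂ} (hf : DifferentiableOn ℂ f Ω) {ρ : ℝ} (h0 : 0 < ρ)
    (h1 : ρ < 1) : ∃ Cf : ℝ, 0 ≤ Cf ∧ ∀ a : ℂ, ‖a‖ < 1 →
      ‖dil φ ψ ℓ p f ρ (ψ a) * deriv ψ a‖ ≤ Real.exp (Cf / (1 - ‖a‖)) := by
  obtain ⟨C, hC, hlog⟩ := h.log_deriv_bound hℓe
  have hcl : closedBall (0 : ℂ) ρ ⊆ ball 0 1 := closedBall_subset_ball h1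
  have hcont : ContinuousOn (fun a => f (ψ a)) (closedBall (0 : ℂ) ρ) := by
    apply hf.continuousOn.comp (h.ψd.continuousOn.mono hcl)
    intro a ha
    exact h.ψm a (by simpa using hcl ha)
  obtain ⟨F, hF⟩ := (isCompact_closedBall (0 : ℂ) ρ).exists_bound_of_continuousOn hcont
  set F' : ℝ := max F 0 with hF'
  have hF'0 : 0 ≤ F' := le_max_right _ _
  have h1ρ : 0 < 1 - ρ := by linarith
  refine ⟨F' + 2 * |Real.log ρ| + 2 * (C / (1 - ρ)) + 3 * C, by positivity, ?_⟩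
  intro a ha
  have h1a : 0 < 1 - ‖a‖ := by linarith
  have h1a' : 1 - ‖a‖ ≤ 1 := by linarith [norm_nonneg a]
  have hρa := norm_rho_lt h0.le h1.le ha
  have hρan : ‖(ρ : ℂ) * a‖ ≤ ρ := by
    rw [norm_mul, Complex.norm_real, Real.norm_of_nonneg h0.le]
    have := norm_nonneg a
    nlinarith
  have e1 : ‖f (ψ (ρ * a))‖ ≤ Real.exp F' := by
    have e2 := hF (ρ * a) (by simpa using hρan)
    have e3 := Real.add_one_le_exp F'
    have e4 : F ≤ F' := le_max_left _ _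
    linarith
  have e5 : |(ℓ (ρ * a)).re| ≤ C / (1 - ρ) := by
    refine (hlog _ hρa).trans ?_
    gcongr
  have e6 := hlog a ha
  have e7 : ‖deriv ψ a‖ = Real.exp (ℓ a).re := by
    rw [← hℓe a ha, Complex.norm_exp]
  have hp2 : 2 / p ≤ 2 := by
    rw [div_le_iff₀ (by linarith)]
    linarith
  have hp0 : 0 ≤ 2 / p := by positivity
  unfold dil
  rw [h.right a ha, norm_mul, norm_mul, e7, Complex.norm_exp, Complex.re_ofReal_mul,
    Complex.sub_re, Complex.add_re, Complex.ofReal_re]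
  have e8 : 2 / p * (Real.log ρ + (ℓ (ρ * a)).re - (ℓ a).re) ≤
      2 * (|Real.log ρ| + C / (1 - ρ) + C / (1 - ‖a‖)) := by
    have e9 : Real.log ρ + (ℓ (ρ * a)).re - (ℓ a).re ≤
        |Real.log ρ| + C / (1 - ρ) + C / (1 - ‖a‖) := by
      have := le_abs_self (Real.log ρ)
      have := le_abs_self (ℓ (ρ * a)).re
      have := neg_abs_le (ℓ a).re
      linarith
    have e10 : 0 ≤ |Real.log ρ| + C / (1 - ρ) + C / (1 - ‖a‖) := by positivity
    calc 2 / p * (Real.log ρ + (ℓ (ρ * a)).re - (ℓ a).re)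
        ≤ 2 / p * (|Real.log ρ| + C / (1 - ρ) + C / (1 - ‖a‖)) := by gcongr
      _ ≤ _ := by gcongr
  have e11 : (ℓ a).re ≤ C / (1 - ‖a‖) := (le_abs_self _).trans e6
  calc ‖f (ψ (ρ * a))‖ * Real.exp (2 / p * (Real.log ρ + (ℓ (ρ * a)).re - (ℓ a).re)) *
        Real.exp (ℓ a).re
      ≤ Real.exp F' * Real.exp (2 * (|Real.log ρ| + C / (1 - ρ) + C / (1 - ‖a‖))) *
        Real.exp (C / (1 - ‖a‖)) := by gcongr
    _ = Real.exp (F' + 2 * |Real.log ρ| + 2 * (C / (1 - ρ)) + 3 * C / (1 - ‖a‖)) := by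
        rw [← Real.exp_add, ← Real.exp_add]; congr 1; ring
    _ ≤ _ := by
        apply Real.exp_le_exp.2
        have e12 : F' + 2 * |Real.log ρ| + 2 * (C / (1 - ρ)) ≤
            (F' + 2 * |Real.log ρ| + 2 * (C / (1 - ρ))) / (1 - ‖a‖) := by
          rw [le_div_iff₀ h1a]
          have : 0 ≤ F' + 2 * |Real.log ρ| + 2 * (C / (1 - ρ)) := by positivity
          nlinarith
        rw [add_div (F' + 2 * |Real.log ρ| + 2 * (C / (1 - ρ)))]
        linarith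

theorem Conf.ae_meas (h : Conf Ω φ ψ R) {g : ℂ → ℂ} (hg : ContinuousOn g Ω) :
    AEStronglyMeasurable g (mu Ω φ W) :=
  (hg.aestronglyMeasurable h.isOpen.measurableSet).mono_ac (mu_ac Ω φ W)

theorem eLpNorm_ind {μ : Measure ℂ} {p : ℝ} (hp : 1 ≤ p) {A : Set ℂ} (hA : MeasurableSet A)
    (g : ℂ → ℂ) : eLpNorm (A.indicator g) (ENNReal.ofReal p) μ =
      (∫⁻ z in A, ‖g z‖ₑ ^ p ∂μ) ^ (1 / p) := by
  have hp0 : 0 < p := by linarith
  have hp' : (ENNReal.ofReal p) ≠ 0 := by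
    rw [Ne, ENNReal.ofReal_eq_zero]
    linarith
  rw [eLpNorm_indicator_eq_eLpNorm_restrict hA,
    eLpNorm_eq_lintegral_rpow_enorm_toReal hp' ENNReal.ofReal_ne_top, ENNReal.toReal_ofReal hp0.le]

theorem Conf.eLpNorm_full (h : Conf Ω φ ψ R) {p : ℝ} (hp : 1 ≤ p) (g : ℂ → ℂ) :
    eLpNorm g (ENNReal.ofReal p) (mu Ω φ W) =
      (∫⁻ z in Ω, ‖g z‖ₑ ^ p ∂(mu Ω φ W)) ^ (1 / p) := by
  rw [← eLpNorm_ind hp h.isOpen.measurableSet]
  apply eLpNorm_congr_ae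
  filter_upwards [h.mu_ae] with z hz
  rw [indicator_of_mem hz]

theorem Conf.dil_memLp (h : Conf Ω φ ψ R) (hW : IsW W) {ℓ : ℂ → ℂ}
    (hℓ : DifferentiableOn ℂ ℓ (ball 0 1))
    (hℓe : ∀ a : ℂ, ‖a‖ < 1 → Complex.exp (ℓ a) = deriv ψ a)
    {p : ℝ} (hp : 1 ≤ p) {f : ℂ → ℂ} (hf : DifferentiableOn ℂ f Ω)
    (hfL : MemLp f (ENNReal.ofReal p) (mu Ω φ W)) {ρ : ℝ} (h0 : 0 < ρ) (h1 : ρ ≤ 1) :
    MemLp (dil φ ψ ℓ p f ρ) (ENNReal.ofReal p) (mu Ω φ W) := by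
  refine ⟨h.ae_meas (h.dil_diff hℓ p hf h0.le h1).continuousOn, ?_⟩
  refine lt_of_le_of_lt ?_ hfL.2
  rw [h.eLpNorm_full hp, h.eLpNorm_full hp]
  apply ENNReal.rpow_le_rpow _ (by positivity)
  exact h.dil_lintegral hW hℓ hℓe (by linarith) hf h0 h1 h.isOpen.measurableSet subset_rfl
    (fun z hz => h.T_mem h0.le h1 hz)

/-- Joint continuity of the dilations. -/
theorem Conf.dil_cont (h : Conf Ω φ ψ R) {ℓ : ℂ → ℂ} (hℓ : DifferentiableOn ℂ ℓ (ball 0 1))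
    (p : ℝ) {f : ℂ → ℂ} (hf : DifferentiableOn ℂ f Ω) {K : Set ℂ} (hKΩ : K ⊆ Ω) :
    ContinuousOn (Function.uncurry (dil φ ψ ℓ p f)) (Icc (1 / 2 : ℝ) 1 ×ˢ K) := by
  have hφ : ContinuousOn (fun x : ℝ × ℂ => φ x.2) (Icc (1 / 2 : ℝ) 1 ×ˢ K) :=
    (h.φd.continuousOn.mono hKΩ).comp continuousOn_snd (fun x hx => hx.2)
  have hρ : ContinuousOn (fun x : ℝ × ℂ => ((x.1 : ℝ) : ℂ)) (Icc (1 / 2 : ℝ) 1 ×ˢ K) :=
    (Complex.continuous_ofReal.comp continuous_fst).continuousOn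
  have hρφ : ContinuousOn (fun x : ℝ × ℂ => ((x.1 : ℝ) : ℂ) * φ x.2) (Icc (1 / 2 : ℝ) 1 ×ˢ K) :=
    hρ.mul hφ
  have hm : MapsTo (fun x : ℝ × ℂ => ((x.1 : ℝ) : ℂ) * φ x.2) (Icc (1 / 2 : ℝ) 1 ×ˢ K)
      (ball 0 1) := by
    intro x hx
    have := norm_rho_lt (by linarith [hx.1.1]) hx.1.2 (h.φm x.2 (hKΩ hx.2))
    simpa using this
  have hm2 : MapsTo (fun x : ℝ × ℂ => φ x.2) (Icc (1 / 2 : ℝ) 1 ×ˢ K) (ball 0 1) := by
    intro x hx
    simpa using h.φm x.2 (hKΩ hx.2)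
  have e1 : ContinuousOn (fun x : ℝ × ℂ => f (ψ (((x.1 : ℝ) : ℂ) * φ x.2)))
      (Icc (1 / 2 : ℝ) 1 ×ˢ K) := by
    apply hf.continuousOn.comp (h.ψd.continuousOn.comp hρφ hm)
    intro x hx
    exact h.ψm _ (by simpa using hm hx)
  have e2 : ContinuousOn (fun x : ℝ × ℂ => ℓ (((x.1 : ℝ) : ℂ) * φ x.2))
      (Icc (1 / 2 : ℝ) 1 ×ˢ K) := hℓ.continuousOn.comp hρφ hm
  have e3 : ContinuousOn (fun x : ℝ × ℂ => ℓ (φ x.2)) (Icc (1 / 2 : ℝ) 1 ×ˢ K) :=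
    hℓ.continuousOn.comp hφ hm2
  have e4 : ContinuousOn (fun x : ℝ × ℂ => ((Real.log x.1 : ℝ) : ℂ)) (Icc (1 / 2 : ℝ) 1 ×ˢ K) := by
    apply Complex.continuous_ofReal.comp_continuousOn
    apply ContinuousOn.log continuousOn_fst
    intro x hx
    have := hx.1.1
    intro h0
    rw [h0] at this
    norm_num at this
  have e5 : ContinuousOn (fun x : ℝ × ℂ => Complex.exp ((2 / p : ℝ) *
      (((Real.log x.1 : ℝ) : ℂ) + ℓ (((x.1 : ℝ) : ℂ) * φ x.2) - ℓ (φ x.2))))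
      (Icc (1 / 2 : ℝ) 1 ×ˢ K) :=
    ((continuousOn_const.mul ((e4.add e2).sub e3))).cexp
  exact e1.mul e5

theorem Conf.dil_one (h : Conf Ω φ ψ R) (ℓ : ℂ → ℂ) (p : ℝ) (f : ℂ → ℂ) {z : ℂ} (hz : z ∈ Ω) :
    dil φ ψ ℓ p f 1 z = f z := by
  unfold dil
  rw [Complex.ofReal_one, one_mul, h.left z hz, Real.log_one, Complex.ofReal_zero, zero_add,
    sub_self, mul_zero, Complex.exp_zero, mul_one]

/-- The functional vanishes on all analytic functions in the weighted space. -/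
theorem Conf.val_zero_all (h : Conf Ω φ ψ R) (hW' : IsW W) (hlim : Tendsto W (𝓝[>] 0) (𝓝 0))
    (hdiv : ∀ δ : ℝ, 0 < δ → ¬ IntegrableOn (fun t : ℝ => Real.log (Real.log (1 / W t)))
      (Ioo (0 : ℝ) δ))
    [IsFiniteMeasure (mu Ω φ W)] {p : ℝ} [Fact (1 ≤ ENNReal.ofReal p)]
    (Λ : Lp ℂ (ENNReal.ofReal p) (mu Ω φ W) →L[ℂ] ℂ)
    (hp1 : 1 ≤ p) (hp4 : p ≤ 4)
    (hΛ : ∀ n : ℕ, val Λ (fun z => z ^ n) = 0)
    {f : ℂ → ℂ} (hf : DifferentiableOn ℂ f Ω) (hfL : MemLp f (ENNReal.ofReal p) (mu Ω φ W)) :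
    val Λ f = 0 := by
  obtain ⟨ℓ, hℓ, _, hℓe⟩ := exists_log (g := deriv ψ) (h.ψd.deriv isOpen_ball)
    (fun a ha => h.deriv_ne ha)
  have hp0 : 0 < p := by linarith
  by_contra hne
  have hpos : 0 < ‖val Λ f‖ := norm_pos_iff.2 hne
  set Cμ : ℝ := ((mu Ω φ W) univ ^ (ENNReal.ofReal p).toReal⁻¹).toReal with hCμ
  have hCμ0 : 0 ≤ Cμ := ENNReal.toReal_nonneg
  set ε : ℝ := ‖val Λ f‖ / (8 * (‖Λ‖ + 1)) with hε
  have hε0 : 0 < ε := by positivity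
  set η : ℝ := ε / (Cμ + 1) with hη
  have hη0 : 0 < η := by positivity
  obtain ⟨δ, hδ, hδs⟩ := hfL.eLpNorm_indicator_le (Fact.out : 1 ≤ ENNReal.ofReal p)
    ENNReal.ofReal_ne_top hε0
  set V : ℝ := (volume (ball (0 : ℂ) R)).toReal with hV
  have hV0 : 0 ≤ V := ENNReal.toReal_nonneg
  -- choose k
  have h1 : Tendsto (fun k => W (tk k)) atTop (𝓝 0) := hlim.comp tk_tendsto
  have h2 : ∀ᶠ k in atTop, W (tk k) < δ / (V + 1) := h1.eventually (gt_mem_nhds (by positivity))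
  obtain ⟨k, hk⟩ := h2.exists
  have hWk := hW'.pos _ (tk_mem k)
  set S₂ : Set ℂ := Ω \ Kt Ω φ (tk k) with hS₂
  set K : Set ℂ := Kt Ω φ (tk (k + 1)) with hK
  set S₁ : Set ℂ := Ω \ K with hS₁
  have hKc : IsCompact K := h.Kt_compact (tk_pos _)
  have hKm : MeasurableSet K := hKc.measurableSet
  have hS₁m : MeasurableSet S₁ := h.isOpen.measurableSet.diff hKm
  have hS₂m : MeasurableSet S₂ := h.isOpen.measurableSet.diff (h.Kt_compact (tk_pos _)).measurableSet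
  have hS₁₂ : S₁ ⊆ S₂ := by
    intro z hz
    exact ⟨hz.1, fun h3 => hz.2 (Kt_anti (tk_anti (Nat.le_succ k)) h3)⟩
  have hμS₂ : (mu Ω φ W) S₂ ≤ ENNReal.ofReal δ := by
    have e2 : (mu Ω φ W) S₂ ≤ ((mu Ω φ W).restrict S₂) Ω := by
      rw [Measure.restrict_apply h.isOpen.measurableSet, inter_eq_right.2 sdiff_subset]
    refine e2.trans ((Measure.le_iff'.1 (h.mu_restrict_le hW' (tk_pos k) (tk_le_one k)) Ω).trans ?_)
    rw [Measure.smul_apply, smul_eq_mul]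
    have e3 : volume Ω ≤ ENNReal.ofReal V := by
      rw [hV, ENNReal.ofReal_toReal measure_ball_lt_top.ne]
      apply measure_mono
      intro z hz
      simpa using h.bdd z hz
    calc ENNReal.ofReal (W (tk k)) * volume Ω
        ≤ ENNReal.ofReal (W (tk k)) * ENNReal.ofReal V := by gcongr
      _ = ENNReal.ofReal (W (tk k) * V) := by rw [← ENNReal.ofReal_mul hWk.le]
      _ ≤ ENNReal.ofReal δ := by
          apply ENNReal.ofReal_le_ofReal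
          calc W (tk k) * V ≤ δ / (V + 1) * (V + 1) := by
                gcongr
                linarith
            _ = δ := by field_simp
  -- choose ρ
  obtain ⟨v, hv, hclose⟩ := hKc.mem_uniformity_of_prod (h.dil_cont hℓ p hf (Kt_subset _))
    (right_mem_Icc.2 (by norm_num : (1 / 2 : ℝ) ≤ 1)) (dist_mem_uniformity hη0)
  have hs0 := tk_pos (k + 1)
  have hv2 : ∀ᶠ ρ in 𝓝[<] (1 : ℝ), ρ ∈ v := by
    have e1 : 𝓝[Ico (1 / 2 : ℝ) 1] 1 ≤ 𝓝[Icc (1 / 2 : ℝ) 1] 1 :=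
      nhdsWithin_mono _ Ico_subset_Icc_self
    have e2 : 𝓝[Ico (1 / 2 : ℝ) 1] 1 = 𝓝[<] (1 : ℝ) :=
      nhdsWithin_Ico_eq_nhdsLT (by norm_num)
    rw [e2] at e1
    exact e1 hv
  have hv3 : ∀ᶠ ρ in 𝓝[<] (1 : ℝ), Real.exp (-(tk (k + 1))) < ρ := by
    apply eventually_nhdsWithin_of_eventually_nhds
    apply lt_mem_nhds
    rw [Real.exp_lt_one_iff]
    linarith
  obtain ⟨ρ, hρv, hρe, hρ1⟩ := (hv2.and (hv3.and self_mem_nhdsWithin)).exists
  have hρ1' : ρ < 1 := hρ1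
  have hρ0 : 0 < ρ := (Real.exp_pos _).trans hρe
  set g : ℂ → ℂ := dil φ ψ ℓ p f ρ with hg
  have hgd : DifferentiableOn ℂ g Ω := h.dil_diff hℓ p hf hρ0.le hρ1'.le
  have hgL : MemLp g (ENNReal.ofReal p) (mu Ω φ W) :=
    h.dil_memLp hW' hℓ hℓe hp1 hf hfL hρ0 hρ1'.le
  obtain ⟨Cf, hCf, hgr⟩ := h.dil_growth hℓe hp1 hf hρ0 hρ1'
  have hg0 : val Λ g = 0 :=
    h.mu_val_zero hW' hlim hdiv Λ rfl hp1 hp4 hΛ hgd hgL hCf hgr
  -- tails
  have htail1 : eLpNorm (S₁.indicator f) (ENNReal.ofReal p) (mu Ω φ W) ≤ ENNReal.ofReal ε :=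
    hδs _ hS₁m ((measure_mono hS₁₂).trans hμS₂)
  have htail2 : eLpNorm (S₁.indicator g) (ENNReal.ofReal p) (mu Ω φ W) ≤ ENNReal.ofReal ε := by
    refine le_trans ?_ (hδs _ hS₂m hμS₂)
    rw [eLpNorm_ind hp1 hS₁m, eLpNorm_ind hp1 hS₂m]
    apply ENNReal.rpow_le_rpow _ (by positivity)
    apply h.dil_lintegral hW' hℓ hℓe hp0 hf hρ0 hρ1'.le hS₁m (fun z hz => hz.1)
    intro z hz
    have hzΩ : z ∈ Ω := hz.1
    have e1 : Real.exp (-(tk (k + 1))) < ‖φ z‖ := by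
      by_contra hcon
      exact hz.2 ⟨hzΩ, not_lt.1 hcon⟩
    refine ⟨h.T_mem hρ0.le hρ1'.le hzΩ, ?_⟩
    rw [h.mem_Kt (norm_rho_lt hρ0.le hρ1'.le (h.φm z hzΩ)), not_le, norm_mul, Complex.norm_real,
      Real.norm_of_nonneg hρ0.le]
    calc Real.exp (-(tk k)) = Real.exp (-(tk (k + 1))) * Real.exp (-(tk (k + 1))) := by
          rw [← Real.exp_add, tk_succ]; congr 1; ring
      _ < ρ * ‖φ z‖ := by
          apply mul_lt_mul'' hρe e1 (Real.exp_pos _).le (Real.exp_pos _).le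
  have hmain : eLpNorm (K.indicator (fun z => f z - g z)) (ENNReal.ofReal p) (mu Ω φ W) ≤
      ENNReal.ofReal ε := by
    have e1 : ∀ᵐ z ∂(mu Ω φ W), ‖K.indicator (fun z => f z - g z) z‖ ≤ η := by
      refine Eventually.of_forall (fun z => ?_)
      by_cases hz : z ∈ K
      · rw [indicator_of_mem hz]
        have e2 : dist (dil φ ψ ℓ p f ρ z) (dil φ ψ ℓ p f 1 z) < η := hclose ρ hρv z hz
        rw [h.dil_one ℓ p f hz.1, dist_comm, dist_eq_norm] at e2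
        exact e2.le
      · rw [indicator_of_notMem hz, norm_zero]
        exact hη0.le
    refine (eLpNorm_le_bdd e1).trans ?_
    have hfin : (mu Ω φ W) univ ^ (ENNReal.ofReal p).toReal⁻¹ ≠ ∞ :=
      ENNReal.rpow_ne_top_of_nonneg (by positivity) (measure_ne_top _ univ)
    rw [← ENNReal.ofReal_toReal hfin, ← hCμ, ← ENNReal.ofReal_mul hCμ0]
    apply ENNReal.ofReal_le_ofReal
    rw [hη]
    calc Cμ * (ε / (Cμ + 1)) ≤ (Cμ + 1) * (ε / (Cμ + 1)) := by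
          gcongr
          linarith
      _ = ε := by field_simp
  -- assemble
  have hfg : val Λ f = val Λ (K.indicator (fun z => f z - g z)) +
      (val Λ (S₁.indicator f) - val Λ (S₁.indicator g)) := by
    have e1 : val Λ f = val Λ (fun z => f z - g z) := by
      rw [val_sub Λ hfL hgL, hg0, sub_zero]
    have e2 : MemLp (K.indicator (fun z => f z - g z)) (ENNReal.ofReal p) (mu Ω φ W) :=
      (hfL.sub hgL).indicator hKm
    have e3 : MemLp (S₁.indicator f) (ENNReal.ofReal p) (mu Ω φ W) := hfL.indicator hS₁m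
    have e4 : MemLp (S₁.indicator g) (ENNReal.ofReal p) (mu Ω φ W) := hgL.indicator hS₁m
    have e34 : MemLp (fun z => S₁.indicator f z - S₁.indicator g z) (ENNReal.ofReal p)
        (mu Ω φ W) := e3.sub e4
    rw [e1, ← val_sub Λ e3 e4, ← val_add Λ e2 e34]
    apply val_congr
    filter_upwards [h.mu_ae] with z hz
    by_cases hzK : z ∈ K
    · have hzS : z ∉ S₁ := fun h3 => h3.2 hzK
      rw [indicator_of_mem hzK, indicator_of_notMem hzS, indicator_of_notMem hzS]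
      ring
    · have hzS : z ∈ S₁ := ⟨hz, hzK⟩
      rw [indicator_of_notMem hzK, indicator_of_mem hzS, indicator_of_mem hzS]
      ring
  have b1 := norm_val_le_of_le Λ hε0.le hmain
  have b2 := norm_val_le_of_le Λ hε0.le htail1
  have b3 := norm_val_le_of_le Λ hε0.le htail2
  have hfin : ‖val Λ f‖ ≤ 3 * (‖Λ‖ * ε) := by
    rw [hfg]
    calc ‖val Λ (K.indicator (fun z => f z - g z)) +
          (val Λ (S₁.indicator f) - val Λ (S₁.indicator g))‖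
        ≤ ‖val Λ (K.indicator (fun z => f z - g z))‖ +
          ‖val Λ (S₁.indicator f) - val Λ (S₁.indicator g)‖ := norm_add_le _ _
      _ ≤ ‖Λ‖ * ε + (‖Λ‖ * ε + ‖Λ‖ * ε) := by
          apply add_le_add b1
          exact (norm_sub_le _ _).trans (add_le_add b2 b3)
      _ = _ := by ring
  have hΛε : ‖Λ‖ * ε ≤ ‖val Λ f‖ / 8 := by
    rw [hε]
    calc ‖Λ‖ * (‖val Λ f‖ / (8 * (‖Λ‖ + 1))) ≤ (‖Λ‖ + 1) * (‖val Λ f‖ / (8 * (‖Λ‖ + 1))) := by
          gcongr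
          linarith
      _ = ‖val Λ f‖ / 8 := by field_simp
  linarith

end

end Pool.Agent.H76Brennan
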