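import Mathlib

set_option autoImplicit false
set_option linter.unusedSectionVars false
set_option linter.style.haveILetI false
open Complex Set Metric Filter Topology MeasureTheory
open scoped ENNReal NNReal

namespace Pool.Agent.H76Brennan

section val
variable {μ : Measure ℂ} {q : ℝ≥0∞} [Fact (1 ≤ q)]

open Classical in
/-- The value of a functional on (the class of) a function; `0` if the function is not in `L^q`. -/
noncomputable def val (Λ : Lp ℂ q μ →L[ℂ] ℂ) (g : ℂ → ℂ) : ℂ :=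
  if h : MemLp g q μ then Λ (h.toLp g) else 0

variable (Λ : Lp ℂ q μ →L[ℂ] ℂ)

theorem val_eq {g : ℂ → ℂ} (h : MemLp g q μ) : val Λ g = Λ (h.toLp g) := by
  rw [val, dif_pos h]

theorem val_add {g k : ℂ → ℂ} (hg : MemLp g q μ) (hk : MemLp k q μ) :
    val Λ (fun z => g z + k z) = val Λ g + val Λ k := by
  have h : MemLp (fun z => g z + k z) q μ := hg.add hk
  rw [val_eq Λ h, val_eq Λ hg, val_eq Λ hk, ← map_add, ← MemLp.toLp_add hg hk]
  rfl

theorem val_sub {g k : ℂ → ℂ} (hg : MemLp g q μ) (hk : MemLp k q μ) :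
    val Λ (fun z => g z - k z) = val Λ g - val Λ k := by
  have h : MemLp (fun z => g z - k z) q μ := hg.sub hk
  rw [val_eq Λ h, val_eq Λ hg, val_eq Λ hk, ← map_sub, ← MemLp.toLp_sub hg hk]
  rfl

theorem val_smul {g : ℂ → ℂ} (hg : MemLp g q μ) (c : ℂ) :
    val Λ (fun z => c * g z) = c * val Λ g := by
  have h : MemLp (fun z => c * g z) q μ := hg.const_mul c
  rw [val_eq Λ h, val_eq Λ hg]
  have : h.toLp (fun z => c * g z) = c • hg.toLp g := by
    rw [← MemLp.toLp_const_smul]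
    rfl
  rw [this, map_smul, smul_eq_mul]

theorem val_congr {g k : ℂ → ℂ} (h : g =ᵐ[μ] k) : val Λ g = val Λ k := by
  by_cases hg : MemLp g q μ
  · have hk : MemLp k q μ := (memLp_congr_ae h).1 hg
    rw [val_eq Λ hg, val_eq Λ hk]
    congr 1
    exact (MemLp.toLp_eq_toLp_iff hg hk).2 h
  · have hk : ¬ MemLp k q μ := fun hk => hg ((memLp_congr_ae h).2 hk)
    rw [val, val, dif_neg hg, dif_neg hk]

theorem val_sum {ι : Type*} (s : Finset ι) {g : ι → ℂ → ℂ} (hg : ∀ i ∈ s, MemLp (g i) q μ) :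
    val Λ (fun z => ∑ i ∈ s, g i z) = ∑ i ∈ s, val Λ (g i) := by
  classical
  induction s using Finset.induction_on with
  | empty =>
    simp only [Finset.sum_empty]
    have h : MemLp (fun _ : ℂ => (0 : ℂ)) q μ := MemLp.zero'
    rw [val_eq Λ h]
    have : h.toLp (fun _ : ℂ => (0 : ℂ)) = 0 := MemLp.toLp_zero h
    rw [this, map_zero]
  | insert i s hi ih =>
    have h1 : MemLp (fun z => ∑ i ∈ s, g i z) q μ :=
      memLp_finsetSum s (fun j hj => hg j (Finset.mem_insert_of_mem hj))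
    have h2 := val_add Λ (hg i (Finset.mem_insert_self _ _)) h1
    rw [Finset.sum_insert hi, ← ih (fun j hj => hg j (Finset.mem_insert_of_mem hj)), ← h2]
    congr 1
    funext z
    rw [Finset.sum_insert hi]

theorem norm_val_le (g : ℂ → ℂ) : ‖val Λ g‖ ≤ ‖Λ‖ * (eLpNorm g q μ).toReal := by
  by_cases hg : MemLp g q μ
  · rw [val_eq Λ hg]
    refine (Λ.le_opNorm _).trans ?_
    rw [Lp.norm_toLp]
  · rw [val, dif_neg hg, norm_zero]
    positivity

theorem norm_val_le_of_le {g : ℂ → ℂ} {B : ℝ} (hB : 0 ≤ B)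
    (h : eLpNorm g q μ ≤ ENNReal.ofReal B) : ‖val Λ g‖ ≤ ‖Λ‖ * B := by
  refine (norm_val_le Λ g).trans ?_
  gcongr
  rw [← ENNReal.toReal_ofReal hB]
  exact ENNReal.toReal_mono ENNReal.ofReal_ne_top h

end val

section fin
variable {μ : Measure ℂ} [IsFiniteMeasure μ] {q : ℝ≥0∞} [Fact (1 ≤ q)]

theorem eLpNorm_le_bdd {g : ℂ → ℂ} {B : ℝ} (hg : ∀ᵐ z ∂μ, ‖g z‖ ≤ B) :
    eLpNorm g q μ ≤ μ univ ^ q.toReal⁻¹ * ENNReal.ofReal B :=
  eLpNorm_le_of_ae_bound hg

theorem memLp_of_bdd {g : ℂ → ℂ} {B : ℝ} (hm : AEStronglyMeasurable g μ)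
    (hg : ∀ᵐ z ∂μ, ‖g z‖ ≤ B) : MemLp g q μ := MemLp.of_bound hm B hg

/-- Extension by zero of a continuous function on a compact set. -/
noncomputable def ext0 {K : Set ℂ} (g : C(K, ℂ)) : ℂ → ℂ := Function.extend Subtype.val g 0

theorem ext0_mem {K : Set ℂ} (g : C(K, ℂ)) {z : ℂ} (hz : z ∈ K) : ext0 g z = g ⟨z, hz⟩ :=
  Subtype.val_injective.extend_apply g 0 ⟨z, hz⟩

theorem ext0_notMem {K : Set ℂ} (g : C(K, ℂ)) {z : ℂ} (hz : z ∉ K) : ext0 g z = 0 := by
  have h : ¬ ∃ a : K, (a : ℂ) = z := by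
    rintro ⟨a, rfl⟩
    exact hz a.2
  exact Function.extend_apply' (f := (Subtype.val : K → ℂ)) (⇑g) (0 : ℂ → ℂ) z h

theorem ext0_measurable {K : Set ℂ} (hK : IsCompact K) (g : C(K, ℂ)) : Measurable (ext0 g) :=
  (MeasurableEmbedding.subtype_coe hK.measurableSet).measurable_extend g.continuous.measurable
    measurable_const

theorem ext0_bdd {K : Set ℂ} (hK : IsCompact K) (g : C(K, ℂ)) (z : ℂ) :
    haveI := isCompact_iff_compactSpace.1 hK; ‖ext0 g z‖ ≤ ‖g‖ := by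
  haveI := isCompact_iff_compactSpace.1 hK
  by_cases hz : z ∈ K
  · rw [ext0_mem g hz]
    exact g.norm_coe_le_norm _
  · rw [ext0_notMem g hz, norm_zero]
    exact norm_nonneg _

theorem ext0_memLp {K : Set ℂ} (hK : IsCompact K) (g : C(K, ℂ)) : MemLp (ext0 g) q μ := by
  haveI := isCompact_iff_compactSpace.1 hK
  exact memLp_of_bdd (B := ‖g‖) (ext0_measurable hK g).aestronglyMeasurable
    (Eventually.of_forall (ext0_bdd hK g))

/-- The functional on `C(K)`. -/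
noncomputable def valK (Λ : Lp ℂ q μ →L[ℂ] ℂ) (K : Set ℂ) [CompactSpace K] : C(K, ℂ) →L[ℂ] ℂ :=
  LinearMap.mkContinuous
    { toFun := fun g => val Λ (ext0 g)
      map_add' := by
        intro g k
        have hK : IsCompact K := isCompact_iff_compactSpace.2 inferInstance
        rw [← val_add Λ (ext0_memLp hK g) (ext0_memLp hK k)]
        congr 1
        funext z
        by_cases hz : z ∈ K
        · rw [ext0_mem _ hz, ext0_mem _ hz, ext0_mem _ hz]; rfl
        · rw [ext0_notMem _ hz, ext0_notMem _ hz, ext0_notMem _ hz, add_zero]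
      map_smul' := by
        intro c g
        have hK : IsCompact K := isCompact_iff_compactSpace.2 inferInstance
        rw [RingHom.id_apply, smul_eq_mul, ← val_smul Λ (ext0_memLp hK g)]
        congr 1
        funext z
        by_cases hz : z ∈ K
        · rw [ext0_mem _ hz, ext0_mem _ hz]; rfl
        · rw [ext0_notMem _ hz, ext0_notMem _ hz, mul_zero] }
    (‖Λ‖ * (μ univ ^ q.toReal⁻¹).toReal)
    (by
      intro g
      have hK : IsCompact K := isCompact_iff_compactSpace.2 inferInstance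
      have h1 : eLpNorm (ext0 g) q μ ≤ μ univ ^ q.toReal⁻¹ * ENNReal.ofReal ‖g‖ :=
        eLpNorm_le_bdd (Eventually.of_forall (ext0_bdd hK g))
      refine (norm_val_le Λ _).trans ?_
      rw [mul_assoc]
      gcongr
      have hfin : μ univ ^ q.toReal⁻¹ ≠ ∞ :=
        ENNReal.rpow_ne_top_of_nonneg (by positivity) (measure_ne_top μ univ)
      have h2 := ENNReal.toReal_mono (ENNReal.mul_ne_top hfin ENNReal.ofReal_ne_top) h1
      rwa [ENNReal.toReal_mul, ENNReal.toReal_ofReal (norm_nonneg _)] at h2)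

theorem valK_apply (Λ : Lp ℂ q μ →L[ℂ] ℂ) (K : Set ℂ) [CompactSpace K] (g : C(K, ℂ)) :
    valK Λ K g = val Λ (ext0 g) := rfl

/-- The Cauchy kernel restricted to `K`. -/
noncomputable def ker (K : Set ℂ) (ζ : ℂ) : ℂ → ℂ := K.indicator (fun z => (z - ζ)⁻¹)

/-- The inclusion function. -/
def incl (K : Set ℂ) : C(K, ℂ) := ⟨Subtype.val, continuous_subtype_val⟩

theorem isUnit_incl_sub {K : Set ℂ} {ζ : ℂ} (hζ : ζ ∉ K) :
    IsUnit (incl K - algebraMap ℂ C(K, ℂ) ζ) := by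
  rw [ContinuousMap.isUnit_iff_forall_ne_zero]
  intro z
  show (z : ℂ) - ζ ≠ 0
  rw [sub_ne_zero]
  rintro rfl
  exact hζ z.2

theorem inverse_apply {K : Set ℂ} {ζ : ℂ} (hζ : ζ ∉ K) (z : K) :
    (Ring.inverse (incl K - algebraMap ℂ C(K, ℂ) ζ)) z = ((z : ℂ) - ζ)⁻¹ := by
  have h1 := Ring.mul_inverse_cancel _ (isUnit_incl_sub hζ)
  have h2 : ((z : ℂ) - ζ) * (Ring.inverse (incl K - algebraMap ℂ C(K, ℂ) ζ)) z = 1 := by
    have := congrArg (fun g : C(K, ℂ) => g z) h1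
    exact this
  exact (eq_inv_of_mul_eq_one_right h2)

theorem ext0_inverse {K : Set ℂ} {ζ : ℂ} (hζ : ζ ∉ K) :
    ext0 (Ring.inverse (incl K - algebraMap ℂ C(K, ℂ) ζ)) = ker K ζ := by
  funext z
  by_cases hz : z ∈ K
  · rw [ext0_mem _ hz, inverse_apply hζ, ker, indicator_of_mem hz]
  · rw [ext0_notMem _ hz, ker, indicator_of_notMem hz]

theorem ker_memLp {K : Set ℂ} (hK : IsCompact K) {ζ : ℂ} (hζ : ζ ∉ K) : MemLp (ker K ζ) q μ := by
  rw [← ext0_inverse hζ]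
  exact ext0_memLp hK _

/-- The Cauchy transform `F_K(ζ) = Λ(1_K/(z-ζ))`. -/
noncomputable def FK (Λ : Lp ℂ q μ →L[ℂ] ℂ) (K : Set ℂ) (ζ : ℂ) : ℂ := val Λ (ker K ζ)

theorem FK_eq (Λ : Lp ℂ q μ →L[ℂ] ℂ) (K : Set ℂ) [CompactSpace K] {ζ : ℂ} (hζ : ζ ∉ K) :
    FK Λ K ζ = valK Λ K (Ring.inverse (incl K - algebraMap ℂ C(K, ℂ) ζ)) := by
  rw [valK_apply, ext0_inverse hζ, FK]

theorem FK_differentiableAt (Λ : Lp ℂ q μ →L[ℂ] ℂ) {K : Set ℂ} (hK : IsCompact K) {ζ : ℂ}
    (hζ : ζ ∉ K) : DifferentiableAt ℂ (FK Λ K) ζ := by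
  haveI := isCompact_iff_compactSpace.1 hK
  have h1 : DifferentiableAt ℂ
      (fun ζ => valK Λ K (Ring.inverse (incl K - algebraMap ℂ C(K, ℂ) ζ))) ζ := by
    apply (valK Λ K).differentiableAt.comp
    have h2 : DifferentiableAt ℂ (Ring.inverse : C(K, ℂ) → C(K, ℂ))
        (incl K - algebraMap ℂ C(K, ℂ) ζ) := differentiableAt_inverse (isUnit_incl_sub hζ)
    have h3 : DifferentiableAt ℂ (fun ζ : ℂ => incl K - algebraMap ℂ C(K, ℂ) ζ) ζ := by
      apply DifferentiableAt.const_sub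
      exact (Algebra.linearMap ℂ C(K, ℂ)).toContinuousLinearMap.differentiableAt
    exact DifferentiableAt.comp ζ h2 h3
  refine h1.congr_of_eventuallyEq ?_
  filter_upwards [hK.isClosed.isOpen_compl.mem_nhds hζ] with w hw
  exact FK_eq Λ K hw

/-- Trivial bound for the Cauchy transform. -/
theorem norm_FK_le (Λ : Lp ℂ q μ →L[ℂ] ℂ) {K : Set ℂ} {ζ : ℂ} {δ : ℝ} (hδ : 0 < δ)
    (h : ∀ z ∈ K, δ ≤ ‖z - ζ‖) :
    ‖FK Λ K ζ‖ ≤ ‖Λ‖ * (μ univ ^ q.toReal⁻¹).toReal / δ := by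
  have h1 : eLpNorm (ker K ζ) q μ ≤ μ univ ^ q.toReal⁻¹ * ENNReal.ofReal (1 / δ) := by
    apply eLpNorm_le_bdd
    refine Eventually.of_forall (fun z => ?_)
    by_cases hz : z ∈ K
    · rw [ker, indicator_of_mem hz, norm_inv, one_div]
      have := h z hz
      gcongr
    · rw [ker, indicator_of_notMem hz, norm_zero]
      positivity
  refine (norm_val_le Λ _).trans ?_
  have hfin : μ univ ^ q.toReal⁻¹ ≠ ∞ :=
    ENNReal.rpow_ne_top_of_nonneg (by positivity) (measure_ne_top μ univ)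
  have h2 := ENNReal.toReal_mono (ENNReal.mul_ne_top hfin ENNReal.ofReal_ne_top) h1
  rw [ENNReal.toReal_mul, ENNReal.toReal_ofReal (by positivity)] at h2
  calc ‖Λ‖ * (eLpNorm (ker K ζ) q μ).toReal
      ≤ ‖Λ‖ * ((μ univ ^ q.toReal⁻¹).toReal * (1 / δ)) := by gcongr
    _ = _ := by ring

end fin

end Pool.Agent.H76Brennan
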