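import Pool.Agent.H76Brennan.Potential
import Pool.Agent.H76Brennan.Functional

set_option autoImplicit false
set_option linter.unusedSectionVars false
set_option linter.style.haveILetI false
open Complex Set Metric Filter Topology MeasureTheory
open scoped ENNReal NNReal

namespace Pool.Agent.H76Brennan

/-- averaged Cauchy kernel -/
noncomputable def avg (N : ℕ) (w : ℕ → ℂ) (z : ℂ) : ℝ :=
  (1 / (N : ℝ)) * ∑ j ∈ Finset.range N, ‖z - w j‖⁻¹

theorem avg_nonneg (N : ℕ) (w : ℕ → ℂ) (z : ℂ) : 0 ≤ avg N w z := by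
  unfold avg; positivity

theorem avg_measurable (N : ℕ) (w : ℕ → ℂ) : Measurable (avg N w) := by
  unfold avg; fun_prop

theorem area_bound0 {N : ℕ} (hN : 0 < N) {D ρ R' : ℝ} (hD : 0 < D) (hρ0 : 0 < ρ) (hρ : D / N ≤ ρ)
    (hR : 0 ≤ R')
    (w : ℕ → ℂ) (hw : ∀ j < N, (w j).re = j * (D / N)) {A : Set ℂ} (hAm : MeasurableSet A)
    (hA : ∀ z ∈ A, ∀ j < N, ρ ≤ ‖z - w j‖) (hAR : ∀ z ∈ A, ‖z‖ ≤ R') :
    ∫⁻ z : ℂ, ENNReal.ofReal ((A.indicator (avg N w) z) ^ 4) ≤
      ENNReal.ofReal (2 * R' * (4 * Real.pi * 16 ^ 4 / D ^ 3)) := by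
  have hmeas : Measurable (fun z : ℂ => ENNReal.ofReal ((A.indicator (avg N w) z) ^ 4)) := by
    apply Measurable.ennreal_ofReal
    exact ((avg_measurable N w).indicator hAm).pow_const 4
  rw [← (volume_preserving_equiv_real_prod.symm).lintegral_comp_emb
    measurableEquivRealProd.symm.measurableEmbedding]
  have hmeas2 : Measurable (fun z : ℝ × ℝ =>
      ENNReal.ofReal ((A.indicator (avg N w) (measurableEquivRealProd.symm z)) ^ 4)) :=
    hmeas.comp measurableEquivRealProd.symm.measurable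
  rw [Measure.volume_eq_prod, lintegral_prod _ hmeas2.aemeasurable]
  calc ∫⁻ u : ℝ, ∫⁻ v : ℝ, ENNReal.ofReal ((A.indicator (avg N w)
        (measurableEquivRealProd.symm (u, v))) ^ 4)
      ≤ ∫⁻ u : ℝ, (Icc (-R') R').indicator
          (fun _ => ENNReal.ofReal (4 * Real.pi * 16 ^ 4 / D ^ 3)) u := by
        apply lintegral_mono
        intro u
        by_cases hu : u ∈ Icc (-R') R'
        · rw [indicator_of_mem hu]
          exact vertical_bound hN hD hρ0 hρ w hw u A hA
        · rw [indicator_of_notMem hu]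
          have : ∀ v : ℝ, (⟨u, v⟩ : ℂ) ∉ A := by
            intro v hv
            apply hu
            have h1 := hAR _ hv
            have h2 := Complex.abs_re_le_norm (⟨u, v⟩ : ℂ)
            have h3 : |u| ≤ R' := le_trans (by simpa using h2) h1
            exact abs_le.1 h3
          simp [indicator_of_notMem (this _)]
    _ = ENNReal.ofReal (4 * Real.pi * 16 ^ 4 / D ^ 3) * volume (Icc (-R') R') := by
        rw [lintegral_indicator measurableSet_Icc, setLIntegral_const]
    _ = _ := by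
        rw [Real.volume_Icc, ← ENNReal.ofReal_mul (by have := Real.pi_pos; positivity)]
        congr 1
        ring

theorem area_bound {N : ℕ} (hN : 0 < N) {D ρ R' : ℝ} (hD : 0 < D) (hρ0 : 0 < ρ) (hρ : D / N ≤ ρ)
    (hR : 0 ≤ R') {x e : ℂ} (he : ‖e‖ = 1)
    (y : ℕ → ℂ) (hy : ∀ j < N, ((y j - x) / e).re = j * (D / N)) {A : Set ℂ}
    (hAm : MeasurableSet A)
    (hA : ∀ z ∈ A, ∀ j < N, ρ ≤ ‖z - y j‖) (hAR : ∀ z ∈ A, ‖z - x‖ ≤ R') :
    ∫⁻ z : ℂ, ENNReal.ofReal ((A.indicator (avg N y) z) ^ 4) ≤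
      ENNReal.ofReal (2 * R' * (4 * Real.pi * 16 ^ 4 / D ^ 3)) := by
  have hmeas : Measurable (fun z : ℂ => ENNReal.ofReal ((A.indicator (avg N y) z) ^ 4)) := by
    apply Measurable.ennreal_ofReal
    exact ((avg_measurable N y).indicator hAm).pow_const 4
  have he0 : e ≠ 0 := by rw [← norm_pos_iff, he]; exact one_pos
  set T : ℂ → ℂ := fun w => x + e * w with hT
  have hTm : MeasurePreserving T volume volume := by
    have h1 : MeasurePreserving (fun w : ℂ => e * w) volume volume := by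
      have := (rotation ⟨e, by simp [Submonoid.unitSphere, he]⟩).measurePreserving
      exact this
    exact (measurePreserving_add_left volume x).comp h1
  rw [← hTm.lintegral_comp hmeas]
  have hAT : MeasurableSet (T ⁻¹' A) := hTm.measurable hAm
  have hnorm : ∀ w : ℂ, ∀ j : ℕ, ‖T w - y j‖ = ‖w - (y j - x) / e‖ := by
    intro w j
    have : T w - y j = e * (w - (y j - x) / e) := by
      simp only [hT]
      field_simp
      ring
    rw [this, norm_mul, he, one_mul]
  have heq : ∀ w : ℂ, A.indicator (avg N y) (T w) =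
      (T ⁻¹' A).indicator (avg N (fun j => (y j - x) / e)) w := by
    intro w
    by_cases hw : T w ∈ A
    · rw [indicator_of_mem hw, indicator_of_mem (show w ∈ T ⁻¹' A from hw)]
      unfold avg
      congr 1
      apply Finset.sum_congr rfl
      intro j _
      rw [hnorm]
    · rw [indicator_of_notMem hw, indicator_of_notMem (show w ∉ T ⁻¹' A from hw)]
  simp only [heq]
  apply area_bound0 hN hD hρ0 hρ hR _ hy hAT
  · intro w hw j hj
    rw [← hnorm]
    exact hA _ hw j hj
  · intro w hw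
    have h1 := hAR _ hw
    have h2 : T w - x = e * w := by simp [hT]
    rw [h2, norm_mul, he, one_mul] at h1
    exact h1

/-- The `L^p(μ)` norm of a combination of kernels. -/
theorem eLpNorm_avg_le {μ : Measure ℂ} {ω p : ℝ} (hω : 0 ≤ ω) (hp1 : 1 ≤ p) (hp4 : p ≤ 4)
    {N : ℕ} (hN : 0 < N) {D ρ R' : ℝ} (hD : 0 < D) (hρ0 : 0 < ρ) (hρ : D / N ≤ ρ)
    (hR : 0 ≤ R') {x e : ℂ} (he : ‖e‖ = 1)
    (y : ℕ → ℂ) (hy : ∀ j < N, ((y j - x) / e).re = j * (D / N)) {A : Set ℂ}
    (hAm : MeasurableSet A)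
    (hA : ∀ z ∈ A, ∀ j < N, ρ ≤ ‖z - y j‖) (hAR : ∀ z ∈ A, ‖z - x‖ ≤ R')
    (hμ : μ.restrict A ≤ ENNReal.ofReal ω • (volume : Measure ℂ)) (V : ℝ) (hV : 0 ≤ V)
    (hAV : volume A ≤ ENNReal.ofReal V)
    (g : ℂ → ℂ) (hg : ∀ z, ‖g z‖ ≤ A.indicator (avg N y) z) :
    eLpNorm g (ENNReal.ofReal p) μ ≤
      ENNReal.ofReal (ω ^ (1 / p) * (1 + V + 2 * R' * (4 * Real.pi * 16 ^ 4 / D ^ 3))) := by
  have hp0 : 0 < p := by linarith
  have hπ := Real.pi_pos
  set B : ℝ := 1 + V + 2 * R' * (4 * Real.pi * 16 ^ 4 / D ^ 3) with hB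
  have hB1 : 1 ≤ B := by
    have h1 : 0 ≤ 2 * R' * (4 * Real.pi * 16 ^ 4 / D ^ 3) := by positivity
    linarith
  have hp' : (ENNReal.ofReal p) ≠ 0 := by
    rw [Ne, ENNReal.ofReal_eq_zero]
    linarith
  rw [eLpNorm_eq_lintegral_rpow_enorm_toReal hp' ENNReal.ofReal_ne_top,
    ENNReal.toReal_ofReal hp0.le]
  have hpt : ∀ z, ‖g z‖ₑ ^ p ≤ A.indicator
      (fun z => 1 + ENNReal.ofReal ((A.indicator (avg N y) z) ^ 4)) z := by
    intro z
    by_cases hz : z ∈ A
    · rw [indicator_of_mem hz, indicator_of_mem hz]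
      have h1 := hg z
      rw [indicator_of_mem hz] at h1
      have ha := avg_nonneg N y z
      have h2 : ‖g z‖ₑ ≤ ENNReal.ofReal (avg N y z) := by
        rw [← ofReal_norm]
        exact ENNReal.ofReal_le_ofReal h1
      calc ‖g z‖ₑ ^ p ≤ (ENNReal.ofReal (avg N y z)) ^ p := by gcongr
        _ = ENNReal.ofReal ((avg N y z) ^ p) := by
            rw [ENNReal.ofReal_rpow_of_nonneg ha hp0.le]
        _ ≤ ENNReal.ofReal (1 + (avg N y z) ^ 4) := by
            apply ENNReal.ofReal_le_ofReal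
            rcases le_or_gt (avg N y z) 1 with h3 | h3
            · have h4 : (avg N y z) ^ p ≤ 1 := Real.rpow_le_one ha h3 hp0.le
              have : 0 ≤ avg N y z ^ 4 := by positivity
              linarith
            · have h4 : (avg N y z) ^ p ≤ (avg N y z) ^ (4 : ℝ) :=
                Real.rpow_le_rpow_of_exponent_le h3.le hp4
              have h5 : (avg N y z) ^ (4 : ℝ) = (avg N y z) ^ (4 : ℕ) := by
                exact_mod_cast Real.rpow_natCast (avg N y z) 4
              have h6 : (avg N y z) ^ p ≤ (avg N y z) ^ (4 : ℕ) := h4.trans_eq h5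
              exact le_trans h6 (le_add_of_nonneg_left zero_le_one)
        _ = 1 + ENNReal.ofReal ((avg N y z) ^ 4) := by
            rw [ENNReal.ofReal_add zero_le_one (by positivity), ENNReal.ofReal_one]
    · rw [indicator_of_notMem hz]
      have h1 := hg z
      rw [indicator_of_notMem hz] at h1
      have h2 : g z = 0 := norm_le_zero_iff.1 h1
      rw [h2, enorm_zero, ENNReal.zero_rpow_of_pos hp0]
  have hint : ∫⁻ z, ‖g z‖ₑ ^ p ∂μ ≤ ENNReal.ofReal ω * ENNReal.ofReal B := by
    calc ∫⁻ z, ‖g z‖ₑ ^ p ∂μ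
        ≤ ∫⁻ z, A.indicator (fun z => 1 + ENNReal.ofReal ((A.indicator (avg N y) z) ^ 4)) z ∂μ :=
          lintegral_mono hpt
      _ = ∫⁻ z, (1 + ENNReal.ofReal ((A.indicator (avg N y) z) ^ 4)) ∂(μ.restrict A) := by
          rw [lintegral_indicator hAm]
      _ = ∫⁻ z, A.indicator (fun z => 1 + ENNReal.ofReal ((A.indicator (avg N y) z) ^ 4)) z
            ∂(μ.restrict A) := by
          rw [lintegral_indicator hAm, Measure.restrict_restrict hAm, inter_self]
      _ ≤ ∫⁻ z, A.indicator (fun z => 1 + ENNReal.ofReal ((A.indicator (avg N y) z) ^ 4)) z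
            ∂(ENNReal.ofReal ω • (volume : Measure ℂ)) := lintegral_mono' hμ le_rfl
      _ = ENNReal.ofReal ω *
            ∫⁻ z in A, (1 + ENNReal.ofReal ((A.indicator (avg N y) z) ^ 4)) := by
          rw [lintegral_smul_measure, lintegral_indicator hAm, smul_eq_mul]
      _ ≤ ENNReal.ofReal ω * ENNReal.ofReal B := by
          gcongr
          rw [lintegral_add_left measurable_const, setLIntegral_const, one_mul]
          have h1 := area_bound hN hD hρ0 hρ hR he y hy hAm hA hAR
          have h2 : ∫⁻ z in A, ENNReal.ofReal ((A.indicator (avg N y) z) ^ 4) ≤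
              ∫⁻ z, ENNReal.ofReal ((A.indicator (avg N y) z) ^ 4) := setLIntegral_le_lintegral _ _
          calc volume A + ∫⁻ z in A, ENNReal.ofReal ((A.indicator (avg N y) z) ^ 4)
              ≤ ENNReal.ofReal V + ENNReal.ofReal (2 * R' * (4 * Real.pi * 16 ^ 4 / D ^ 3)) :=
                add_le_add hAV (h2.trans h1)
            _ = ENNReal.ofReal (V + 2 * R' * (4 * Real.pi * 16 ^ 4 / D ^ 3)) := by
                rw [← ENNReal.ofReal_add hV (by positivity)]
            _ ≤ ENNReal.ofReal B := by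
                apply ENNReal.ofReal_le_ofReal
                rw [hB]
                linarith
  have hB0 : 0 ≤ B := by linarith
  calc (∫⁻ z, ‖g z‖ₑ ^ p ∂μ) ^ (1 / p) ≤ (ENNReal.ofReal ω * ENNReal.ofReal B) ^ (1 / p) := by
        gcongr
    _ = ENNReal.ofReal ((ω * B) ^ (1 / p)) := by
        rw [← ENNReal.ofReal_mul hω, ENNReal.ofReal_rpow_of_nonneg (by positivity) (by positivity)]
    _ ≤ ENNReal.ofReal (ω ^ (1 / p) * B) := by
        apply ENNReal.ofReal_le_ofReal
        rw [Real.mul_rpow hω hB0]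
        gcongr
        calc B ^ (1 / p) ≤ B ^ (1 : ℝ) := by
              apply Real.rpow_le_rpow_of_exponent_le hB1
              rw [div_le_one hp0]
              exact hp1
          _ = B := Real.rpow_one B

end Pool.Agent.H76Brennan
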