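import Mathlib

set_option autoImplicit false
open Filter Topology

namespace Pool.Agent.H76Brennan

/-- dyadic scale -/
noncomputable def tk (k : ℕ) : ℝ := (1 / 2 : ℝ) ^ k

theorem tk_pos (k : ℕ) : 0 < tk k := by unfold tk; positivity
theorem tk_le_one (k : ℕ) : tk k ≤ 1 := by
  unfold tk; exact pow_le_one₀ (by norm_num) (by norm_num)
theorem tk_succ (k : ℕ) : tk (k + 1) = tk k / 2 := by
  unfold tk; rw [pow_succ]; ring
theorem tk_anti {k l : ℕ} (h : k ≤ l) : tk l ≤ tk k := by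
  unfold tk; exact pow_le_pow_of_le_one (by norm_num) (by norm_num) h
theorem inv_tk (k : ℕ) : 1 / tk k = 2 ^ k := by
  unfold tk; rw [one_div, one_div, inv_pow, inv_inv]

open Classical in
/-- greedy values -/
noncomputable def Lam (lam : ℕ → ℝ) (K : ℝ) (k₀ : ℕ) : ℕ → ℝ
  | 0 => lam k₀
  | (i + 1) => if k₀ ≤ i ∧ Lam lam K k₀ i + K * (i + 1) ≤ lam (i + 1) then lam (i + 1)
      else Lam lam K k₀ i

/-- usable indices -/
def Us (lam : ℕ → ℝ) (K : ℝ) (k₀ : ℕ) (i : ℕ) : Prop :=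
  ∃ j, i = j + 1 ∧ k₀ ≤ j ∧ Lam lam K k₀ j + K * (j + 1) ≤ lam (j + 1)

section
variable {lam : ℕ → ℝ} {K : ℝ} {k₀ : ℕ}

theorem Lam_us {i : ℕ} (h : Us lam K k₀ i) : Lam lam K k₀ i = lam i := by
  obtain ⟨j, rfl, h1, h2⟩ := h
  rw [Lam, if_pos ⟨h1, h2⟩]

theorem Lam_not_us {i : ℕ} (h : ¬ Us lam K k₀ (i + 1)) :
    Lam lam K k₀ (i + 1) = Lam lam K k₀ i := by
  rw [Lam, if_neg]
  intro h1
  exact h ⟨i, rfl, h1.1, h1.2⟩

theorem Lam_mono_step (hK : 0 ≤ K) (i : ℕ) : Lam lam K k₀ i ≤ Lam lam K k₀ (i + 1) := by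
  by_cases h : Us lam K k₀ (i + 1)
  · rw [Lam_us h]
    obtain ⟨j, hj, h1, h2⟩ := h
    obtain rfl : i = j := by omega
    have : 0 ≤ K * (i + 1) := by positivity
    linarith
  · rw [Lam_not_us h]

theorem Lam_mono (hK : 0 ≤ K) : Monotone (Lam lam K k₀) := monotone_nat_of_le_succ (Lam_mono_step hK)

theorem Lam_const {k k' : ℕ} (hkk : k ≤ k') (h : ∀ j, k < j → j ≤ k' → ¬ Us lam K k₀ j) :
    Lam lam K k₀ k' = Lam lam K k₀ k := by
  induction k', hkk using Nat.le_induction with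
  | base => rfl
  | succ m hm ih =>
    rw [Lam_not_us (h (m + 1) (by omega) le_rfl)]
    exact ih (fun j h1 h2 => h j h1 (by omega))

theorem Lam_zero_ge (hK : 0 ≤ K) (i : ℕ) : lam k₀ ≤ Lam lam K k₀ i := by
  have := Lam_mono (lam := lam) (k₀ := k₀) hK (Nat.zero_le i)
  simpa [Lam] using this

/-- `Λ_i ≥ λ_i - K i` for `i > k₀`. -/
theorem Lam_ge (hK : 0 ≤ K) (hm : 0 ≤ lam k₀) {i : ℕ} (hi : k₀ ≤ i) :
    lam i - K * i ≤ Lam lam K k₀ i := by
  rcases Nat.eq_or_lt_of_le hi with h | h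
  · subst h
    have := Lam_zero_ge (lam := lam) (k₀ := k₀) hK k₀
    have h2 : 0 ≤ K * k₀ := by positivity
    linarith
  · obtain ⟨j, rfl⟩ : ∃ j, i = j + 1 := ⟨i - 1, by omega⟩
    by_cases hu : Us lam K k₀ (j + 1)
    · rw [Lam_us hu]
      have : 0 ≤ K * ((j + 1 : ℕ) : ℝ) := by positivity
      linarith
    · rw [Lam_not_us hu]
      by_contra hcon
      push Not at hcon
      apply hu
      refine ⟨j, rfl, by omega, ?_⟩
      push_cast at hcon
      linarith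

theorem exists_next {k J : ℕ} (hkJ : k < J) (hJ : Us lam K k₀ J) :
    ∃ k', k < k' ∧ k' ≤ J ∧ Us lam K k₀ k' ∧ ∀ j, k < j → j < k' → ¬ Us lam K k₀ j := by
  classical
  have hex : ∃ k', k < k' ∧ Us lam K k₀ k' := ⟨J, hkJ, hJ⟩
  refine ⟨Nat.find hex, (Nat.find_spec hex).1, Nat.find_min' hex ⟨hkJ, hJ⟩,
    (Nat.find_spec hex).2, ?_⟩
  intro j h1 h2 h3
  exact Nat.find_min hex h2 ⟨h1, h3⟩

end

/-- The potential. -/
noncomputable def Pot (lam : ℕ → ℝ) (K : ℝ) (k₀ : ℕ) (c C : ℝ) (i : ℕ) : ℝ :=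
  ∑ j ∈ Finset.range i, tk (j + 1) * (c * (Lam lam K k₀ (j + 1) - Lam lam K k₀ j) - C * (j + 1))

theorem Pot_succ (lam : ℕ → ℝ) (K : ℝ) (k₀ : ℕ) (c C : ℝ) (i : ℕ) :
    Pot lam K k₀ c C (i + 1) = Pot lam K k₀ c C i +
      tk (i + 1) * (c * (Lam lam K k₀ (i + 1) - Lam lam K k₀ i) - C * (i + 1)) := by
  unfold Pot
  rw [Finset.sum_range_succ]

/-- Between two indices without usable ones the potential drops by at least ... -/
theorem Pot_drop {lam : ℕ → ℝ} {K : ℝ} {k₀ : ℕ} {c C : ℝ} (hC : 0 ≤ C) {k m : ℕ} (hkm : k ≤ m)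
    (h : ∀ j, k < j → j ≤ m → ¬ Us lam K k₀ j) :
    Pot lam K k₀ c C m ≤ Pot lam K k₀ c C k := by
  induction m, hkm using Nat.le_induction with
  | base => rfl
  | succ m hm ih =>
    rw [Pot_succ, Lam_not_us (h (m + 1) (by omega) le_rfl), sub_self, mul_zero, zero_sub]
    have h1 := ih (fun j h1 h2 => h j h1 (by omega))
    have h2 : 0 ≤ tk (m + 1) * (C * (m + 1)) := by
      have := tk_pos (m + 1)
      positivity
    linarith

theorem Pot_next {lam : ℕ → ℝ} {K : ℝ} {k₀ : ℕ} {c C : ℝ} (hC : 0 ≤ C) {k k' : ℕ} (hkk : k < k')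
    (hk : Us lam K k₀ k) (hk' : Us lam K k₀ k') (h : ∀ j, k < j → j < k' → ¬ Us lam K k₀ j) :
    Pot lam K k₀ c C k' - Pot lam K k₀ c C k ≤
      tk k' * (c * (lam k' - lam k)) - tk k' * (C * k') / 2 - tk k * C / 4 := by
  obtain ⟨m, rfl⟩ : ∃ m, k' = m + 1 := ⟨k' - 1, by omega⟩
  have hkm : k ≤ m := by omega
  have hconst : Lam lam K k₀ m = lam k := by
    rw [← Lam_us hk]
    exact Lam_const hkm (fun j h1 h2 => h j h1 (by omega))
  rw [Pot_succ, hconst, Lam_us hk']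
  have htk := tk_pos k
  rcases Nat.eq_or_lt_of_le hkm with heq | hlt
  · subst heq
    have h1 : tk (k + 1) = tk k / 2 := tk_succ k
    have h2 : (0 : ℝ) ≤ k := Nat.cast_nonneg k
    have h3 : 0 ≤ tk k * C * k := by positivity
    push_cast
    rw [h1]
    nlinarith
  · have h4 : Pot lam K k₀ c C m ≤ Pot lam K k₀ c C (k + 1) :=
      Pot_drop hC (by omega) (fun j h1 h2 => h j (by omega) (by omega))
    have h5 : Pot lam K k₀ c C (k + 1) = Pot lam K k₀ c C k - tk (k + 1) * (C * (k + 1)) := by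
      rw [Pot_succ, Lam_not_us (h (k + 1) (by omega) (by omega)), sub_self]
      ring
    have h1 : tk (k + 1) = tk k / 2 := tk_succ k
    have h2 : (0 : ℝ) ≤ k := Nat.cast_nonneg k
    have h3 : 0 ≤ tk k * C * k := by positivity
    have h6 : 0 ≤ tk k * C := by positivity
    have h7 : 0 ≤ tk (m + 1) * (C * ((m + 1 : ℕ) : ℝ)) := by
      have := tk_pos (m + 1)
      positivity
    push_cast at h7 ⊢
    rw [h1] at h5
    nlinarith

/-- The potential is unbounded when `∑ 2^{-k} λ_k = ∞`. -/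
theorem Pot_unbounded {lam : ℕ → ℝ} {K : ℝ} {k₀ : ℕ} {c C : ℝ} (hK : 0 ≤ K) (hc : 0 < c)
    (hC : 0 ≤ C)
    (hlam : ∀ k, k₀ ≤ k → 0 ≤ lam k) (hdiv : ¬ Summable (fun k => tk k * lam k)) (B : ℝ) :
    ∃ i, B < Pot lam K k₀ c C i := by
  -- Abel summation
  have habel : ∀ i, ∑ j ∈ Finset.range i, tk (j + 1) * (Lam lam K k₀ (j + 1) - Lam lam K k₀ j) =
      tk i * Lam lam K k₀ i - tk 0 * Lam lam K k₀ 0 +
        (1 / 2) * ∑ j ∈ Finset.range i, tk j * Lam lam K k₀ j := by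
    intro i
    induction i with
    | zero => simp
    | succ i ih =>
      rw [Finset.sum_range_succ, ih, Finset.sum_range_succ, tk_succ]
      ring
  have hLnn : ∀ i, 0 ≤ Lam lam K k₀ i := fun i =>
    (hlam k₀ le_rfl).trans (Lam_zero_ge hK i)
  -- summability of the error terms
  have hs0 : Summable (fun j : ℕ => ((j : ℝ)) * (1 / 2 : ℝ) ^ j) := by
    have := summable_pow_mul_geometric_of_norm_lt_one (R := ℝ) 1 (r := (1 / 2 : ℝ)) (by norm_num)
    simpa using this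
  have hs1 : Summable (fun j : ℕ => tk j * (K * j)) := by
    have := hs0.mul_left K
    refine this.congr (fun j => ?_)
    unfold tk; ring
  have hs2 : Summable (fun j : ℕ => tk (j + 1) * (C * (j + 1))) := by
    have := (hs0.mul_left C).comp_injective (add_left_injective 1)
    refine this.congr (fun j => ?_)
    simp only [Function.comp]
    unfold tk; push_cast; ring
  -- not summable
  have hns : ¬ Summable (fun j => tk j * Lam lam K k₀ j) := by
    intro hsum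
    apply hdiv
    have h1 : Summable (fun j => tk j * Lam lam K k₀ j + tk j * (K * j)) := hsum.add hs1
    rw [← summable_nat_add_iff k₀] at h1 ⊢
    refine Summable.of_nonneg_of_le (fun j => ?_) (fun j => ?_) h1
    · exact mul_nonneg (tk_pos _).le (hlam _ (by omega))
    · rw [← mul_add]
      apply mul_le_mul_of_nonneg_left _ (tk_pos _).le
      have := Lam_ge (lam := lam) hK (hlam k₀ le_rfl) (show k₀ ≤ j + k₀ by omega)
      linarith
  have hnn : ∀ j, 0 ≤ tk j * Lam lam K k₀ j := fun j => mul_nonneg (tk_pos _).le (hLnn j)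
  have htend := (not_summable_iff_tendsto_nat_atTop_of_nonneg hnn).1 hns
  obtain ⟨i, hi⟩ := ((tendsto_atTop.1 htend)
    ((2 / c) * (B + 1 + c * (tk 0 * Lam lam K k₀ 0) +
      ∑' j : ℕ, tk (j + 1) * (C * (j + 1))))).exists
  refine ⟨i, ?_⟩
  have h1 : Pot lam K k₀ c C i =
      c * ∑ j ∈ Finset.range i, tk (j + 1) * (Lam lam K k₀ (j + 1) - Lam lam K k₀ j) -
      ∑ j ∈ Finset.range i, tk (j + 1) * (C * (j + 1)) := by
    unfold Pot
    rw [Finset.mul_sum, ← Finset.sum_sub_distrib]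
    apply Finset.sum_congr rfl
    intro j _
    ring
  have h2 : ∑ j ∈ Finset.range i, tk (j + 1) * (C * (j + 1)) ≤
      ∑' j : ℕ, tk (j + 1) * (C * (j + 1)) :=
    hs2.sum_le_tsum _ (fun j _ => by have := tk_pos (j + 1); positivity)
  have h3 : 0 ≤ tk i * Lam lam K k₀ i := mul_nonneg (tk_pos _).le (hLnn i)
  rw [h1, habel]
  have h4 : c * ((2 / c) * (B + 1 + c * (tk 0 * Lam lam K k₀ 0) +
      ∑' j : ℕ, tk (j + 1) * (C * (j + 1)))) ≤ c * ∑ j ∈ Finset.range i, tk j * Lam lam K k₀ j := by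
    gcongr
  have h5 : ∀ x : ℝ, c * ((2 / c) * x) = 2 * x := by
    intro x
    field_simp
  rw [h5] at h4
  have h6 : 0 ≤ c * (tk i * Lam lam K k₀ i) := by positivity
  nlinarith

/-- The choice of the number of lateral steps. -/
theorem step_choice {hk hk' c₁ C₁ Q : ℝ} {k' : ℕ} (h1 : 1 ≤ hk) (h1' : 1 ≤ hk')
    (hc₁0 : 0 < c₁) (hc₁1 : c₁ ≤ 1) (hC₁ : 0 < C₁) (hQ : Q = 8 * (1 + C₁) / c₁) (hk'1 : 1 ≤ k')
    (hgap : Real.log hk + Real.log Q * k' ≤ Real.log hk') :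
    ∃ N : ℕ, C₁ / tk k' ≤ c₁ * tk k' ^ 2 * hk' / 4 ^ N ∧ hk ≤ c₁ * tk k' ^ 2 * hk' / 4 ^ N ∧
      (Real.log hk' - Real.log hk - Real.log Q * k') / Real.log 4 < N + 1 := by
  have htk' := tk_pos k'
  have hlog4 : 0 < Real.log 4 := Real.log_pos (by norm_num)
  have hQ1 : 8 ≤ Q := by
    rw [hQ, le_div_iff₀ hc₁0]
    nlinarith
  set X : ℝ := (Real.log hk' - Real.log hk - Real.log Q * k') / Real.log 4 with hX
  have hX0 : 0 ≤ X := by
    rw [hX]
    apply div_nonneg _ hlog4.le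
    linarith
  set N : ℕ := ⌊X⌋₊ with hN
  have hN1 : (N : ℝ) ≤ X := Nat.floor_le hX0
  have hN2 : X < N + 1 := Nat.lt_floor_add_one X
  have hkpos : 0 < hk := by linarith
  have hk'pos : 0 < hk' := by linarith
  have hQpos : 0 < Q := by linarith
  have h4N : (4 : ℝ) ^ N * (hk * Q ^ k') ≤ hk' := by
    have e1 : (4 : ℝ) ^ N ≤ Real.exp (Real.log hk' - Real.log hk - Real.log Q * k') := by
      calc (4 : ℝ) ^ N = Real.exp (N * Real.log 4) := by
            rw [Real.exp_nat_mul, Real.exp_log (by norm_num)]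
        _ ≤ Real.exp (X * Real.log 4) := by gcongr
        _ = _ := by rw [hX]; congr 1; field_simp
    have e2 : hk * Q ^ k' = Real.exp (Real.log hk + Real.log Q * k') := by
      rw [Real.exp_add, mul_comm (Real.log Q), Real.exp_nat_mul, Real.exp_log hQpos,
        Real.exp_log hkpos]
    calc (4 : ℝ) ^ N * (hk * Q ^ k') ≤ Real.exp (Real.log hk' - Real.log hk - Real.log Q * k') *
          Real.exp (Real.log hk + Real.log Q * k') := by
          rw [e2]; gcongr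
      _ = Real.exp (Real.log hk') := by rw [← Real.exp_add]; congr 1; ring
      _ = hk' := Real.exp_log hk'pos
  have hQpow : (1 + C₁) / c₁ * (2 ^ k') ^ 3 ≤ Q ^ k' := by
    have e1 : ((2 : ℝ) ^ k') ^ 3 = 8 ^ k' := by
      rw [← pow_mul, mul_comm, pow_mul]; norm_num
    have e2 : Q ^ k' = 8 ^ k' * ((1 + C₁) / c₁) ^ k' := by
      rw [hQ, ← mul_pow]; congr 1; ring
    have e3 : 1 ≤ (1 + C₁) / c₁ := by
      rw [le_div_iff₀ hc₁0]; linarith
    have e4 : (1 + C₁) / c₁ ≤ ((1 + C₁) / c₁) ^ k' := by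
      calc (1 + C₁) / c₁ = ((1 + C₁) / c₁) ^ 1 := (pow_one _).symm
        _ ≤ _ := pow_le_pow_right₀ e3 hk'1
    rw [e1, e2]
    have e5 : (0 : ℝ) < 8 ^ k' := by positivity
    nlinarith
  have hA : hk * ((1 + C₁) / tk k') ≤ c₁ * tk k' ^ 2 * hk' / 4 ^ N := by
    rw [le_div_iff₀ (by positivity)]
    have e1 : (2 : ℝ) ^ k' = 1 / tk k' := (inv_tk k').symm
    rw [e1] at hQpow
    calc hk * ((1 + C₁) / tk k') * 4 ^ N
        = c₁ * tk k' ^ 2 * (4 ^ N * (hk * ((1 + C₁) / c₁ * (1 / tk k') ^ 3))) := by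
          field_simp
      _ ≤ c₁ * tk k' ^ 2 * (4 ^ N * (hk * Q ^ k')) := by gcongr
      _ ≤ c₁ * tk k' ^ 2 * hk' := by gcongr
  have hone : 1 ≤ 1 / tk k' := by
    rw [le_div_iff₀ htk']
    linarith [tk_le_one k']
  refine ⟨N, ?_, ?_, hN2⟩
  · refine le_trans ?_ hA
    have e1 : C₁ / tk k' ≤ (1 + C₁) / tk k' := by gcongr; linarith
    have e2 : 0 ≤ (1 + C₁) / tk k' := by positivity
    nlinarith
  · refine le_trans ?_ hA
    have e1 : 1 ≤ (1 + C₁) / tk k' := by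
      rw [le_div_iff₀ htk']
      linarith [tk_le_one k']
    nlinarith

theorem length_choice {c C' C₅ X L PJ Pk Pk' tk_ tk' kk' N : ℝ} (hc0 : 0 < c) (hC'0 : 0 < C')
    (hC₅ : C₅ = 2 * (c * C') + 20) (htk : 0 < tk_) (htk' : 0 < tk') (hk' : 1 ≤ kk')
    (hX : X < N + 1) (hXc : c * L - c * (C' * kk') = X / 64)
    (hPn : Pk' - Pk ≤ tk' * (c * L) - tk' * (C₅ * kk') / 2 - tk_ * C₅ / 4) :
    PJ - Pk + 4 * tk_ + 3 / 4 * tk_ ≤ PJ - Pk' + 4 * tk' + N * (tk' / 64) := by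
  have e1 : c * L - c * (C' * kk') - 1 / 64 ≤ N / 64 := by
    rw [hXc]
    linarith
  have e3 : tk' * (c * L - c * (C' * kk') - 1 / 64) ≤ tk' * (N / 64) := by
    gcongr
  have e4 : tk' * (C₅ * kk') / 2 = tk' * (c * (C' * kk')) + 10 * (tk' * kk') := by
    rw [hC₅]; ring
  have e5 : tk_ * C₅ / 4 = tk_ * (c * C') / 2 + 5 * tk_ := by
    rw [hC₅]; ring
  have e6 : 0 ≤ tk_ * (c * C') / 2 := by positivity
  have e8 : tk' ≤ tk' * kk' := by nlinarith
  nlinarith

/-- The scale selection argument. -/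
theorem selection (h : ℕ → ℝ) (S : ℝ → ℕ → ℝ → ℝ → Prop) (k₀ : ℕ)
    (hh1 : ∀ k, k₀ ≤ k → 1 ≤ h k)
    (hdiv : ¬ Summable (fun k => tk k * Real.log (h k)))
    (Smono : ∀ y k A A' H H', A' ≤ A → H' ≤ H → S y k A H → S y k A' H')
    {C₁ C₂ C₃ c₂ c₃ : ℝ} (hC₁ : 0 < C₁) (hC₂ : 0 < C₂) (hC₃ : 0 < C₃)
    (hc₂ : 0 < c₂) (hc₃ : 0 < c₃) (hc₃' : c₃ ≤ 1)
    (LAT : ∀ y k A H (N : ℕ), k₀ ≤ k → S y k A H → tk k / 128 ≤ H → C₁ / tk k ≤ A / 4 ^ N →
      S y k (A / 4 ^ N) (H + N * (tk k / 64)))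
    (TRANS : ∀ y k k' H, k₀ ≤ k → k < k' → C₂ / tk k ^ 2 ≤ h k → S y k' (h k) H → tk k ≤ H →
      S y k (c₂ * h k) (H - 3 / 4 * tk k))
    (START : ∀ k, k₀ ≤ k → C₃ / tk k ^ 3 ≤ h k → ∃ y, S y k (c₃ * tk k ^ 2 * h k) (tk k / 64)) :
    ∃ c : ℝ, 0 < c ∧ ∀ (B : ℕ) (l₀ : ℕ), ∃ l, l₀ ≤ l ∧ (1 / tk l) ^ B ≤ h l ∧
      ∃ y, S y l (c * tk l ^ 2 * h l) 4 := by
  set c₁ : ℝ := min c₂ (c₃ / 4 ^ 256) with hc₁
  have hc₁0 : 0 < c₁ := by rw [hc₁]; positivity
  have hc₁1 : c₁ ≤ 1 := by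
    refine (min_le_right _ _).trans ?_
    rw [div_le_one (by positivity)]
    have : (1 : ℝ) ≤ 4 ^ 256 := one_le_pow₀ (by norm_num)
    linarith
  refine ⟨c₁, hc₁0, ?_⟩
  intro B l₀
  -- constants
  set Q : ℝ := 8 * (1 + C₁) / c₁ with hQ
  have hQ1 : 8 ≤ Q := by
    rw [hQ, le_div_iff₀ hc₁0]
    nlinarith
  set C' : ℝ := Real.log Q with hC'
  have hC'0 : 0 < C' := Real.log_pos (by linarith)
  -- K
  set K : ℝ := C' + B * Real.log 2 + Real.log (8 * (1 + C₂ + C₃) + C₁ * 4 ^ 256 / c₃ * 8) with hK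
  have harg : 1 ≤ 8 * (1 + C₂ + C₃) + C₁ * 4 ^ 256 / c₃ * 8 := by
    have : 0 ≤ C₁ * 4 ^ 256 / c₃ * 8 := by positivity
    linarith
  have hlog2 : 0 < Real.log 2 := Real.log_pos (by norm_num)
  have hKarg : 0 ≤ Real.log (8 * (1 + C₂ + C₃) + C₁ * 4 ^ 256 / c₃ * 8) := Real.log_nonneg harg
  have hKC' : C' ≤ K := by
    have : 0 ≤ (B : ℝ) * Real.log 2 := by positivity
    linarith
  have hK0 : 0 ≤ K := hC'0.le.trans hKC'
  have hlog4 : 0 < Real.log 4 := Real.log_pos (by norm_num)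
  set c : ℝ := 1 / (64 * Real.log 4) with hc
  have hc0 : 0 < c := by rw [hc]; positivity
  set C₅ : ℝ := 2 * (c * C') + 20 with hC₅
  have hC₅0 : 0 ≤ C₅ := by positivity
  set lam : ℕ → ℝ := fun k => Real.log (h k) with hlam
  have hlam0 : ∀ k, k₀ ≤ k → 0 ≤ lam k := fun k hk => Real.log_nonneg (hh1 k hk)
  have hunb := Pot_unbounded (K := K) (C := C₅) hK0 hc0 hC₅0 hlam0 hdiv
  -- facts about usable indices
  have husge : ∀ k, Us lam K k₀ k → k₀ < k ∧ 1 ≤ k ∧ K * k ≤ lam k := by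
    rintro k ⟨j, rfl, h1, h2⟩
    refine ⟨by omega, by omega, ?_⟩
    have := Lam_zero_ge (lam := lam) (k₀ := k₀) hK0 j
    have h3 := hlam0 k₀ le_rfl
    push_cast
    linarith
  have hexp : ∀ k, Us lam K k₀ k → Real.exp (K * k) ≤ h k := by
    intro k hk
    obtain ⟨h1, h2, h3⟩ := husge k hk
    have h4 : 0 < h k := by linarith [hh1 k h1.le]
    calc Real.exp (K * k) ≤ Real.exp (lam k) := Real.exp_le_exp.2 h3
      _ = h k := Real.exp_log h4
  have hpow : ∀ k, Us lam K k₀ k → ∀ X : ℝ, 1 ≤ X → Real.log X ≤ K → X ^ k ≤ h k := by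
    intro k hk X hX hXK
    refine le_trans ?_ (hexp k hk)
    have hX0 : 0 < X := by linarith
    calc X ^ k = Real.exp (Real.log X * k) := by
          rw [mul_comm, Real.exp_nat_mul, Real.exp_log hX0]
      _ ≤ Real.exp (K * k) := by gcongr
  have hself : ∀ (X : ℝ) (k : ℕ), 1 ≤ X → 1 ≤ k → X ≤ X ^ k := by
    intro X k hX hk
    calc X = X ^ 1 := (pow_one X).symm
      _ ≤ X ^ k := pow_le_pow_right₀ hX hk
  have hB : ∀ k, Us lam K k₀ k → (1 / tk k) ^ B ≤ h k := by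
    intro k hk
    have h1 := hpow k hk ((2 : ℝ) ^ B) (one_le_pow₀ (by norm_num)) (by
      rw [Real.log_pow]
      linarith)
    rw [inv_tk, ← pow_mul, mul_comm, pow_mul]
    exact h1
  -- polynomial growth
  have hpoly : ∀ k, Us lam K k₀ k → ∀ Y : ℝ, 0 ≤ Y →
      8 * (1 + Y) ≤ 8 * (1 + C₂ + C₃) + C₁ * 4 ^ 256 / c₃ * 8 → Y * (2 ^ k) ^ 3 ≤ h k := by
    intro k hk Y hY hYle
    obtain ⟨h1, h2, h3⟩ := husge k hk
    have h4 := hpow k hk (8 * (1 + Y)) (by linarith) (by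
      have : Real.log (8 * (1 + Y)) ≤ Real.log (8 * (1 + C₂ + C₃) + C₁ * 4 ^ 256 / c₃ * 8) :=
        Real.log_le_log (by positivity) hYle
      have : 0 ≤ (B : ℝ) * Real.log 2 := by positivity
      linarith)
    refine le_trans ?_ h4
    rw [mul_pow]
    have h5 : ((2 : ℝ) ^ k) ^ 3 = 8 ^ k := by
      rw [← pow_mul, mul_comm, pow_mul]; norm_num
    rw [h5]
    have h6 := hself (1 + Y) k (by linarith) h2
    have h7 : (0 : ℝ) < 8 ^ k := by positivity
    nlinarith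
  have hexC₂ : ∀ k, Us lam K k₀ k → C₂ / tk k ^ 2 ≤ h k := by
    intro k hk
    have h1 := hpoly k hk C₂ hC₂.le (by
      have : 0 ≤ C₁ * 4 ^ 256 / c₃ * 8 := by positivity
      linarith)
    refine le_trans ?_ h1
    have h2 : C₂ / tk k ^ 2 = C₂ * (2 ^ k) ^ 2 := by
      rw [← inv_tk]; field_simp
    rw [h2]
    gcongr
    · exact one_le_pow₀ (by norm_num)
    · norm_num
  have hexC₃ : ∀ k, Us lam K k₀ k → C₃ / tk k ^ 3 ≤ h k := by
    intro k hk
    have h1 := hpoly k hk C₃ hC₃.le (by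
      have : 0 ≤ C₁ * 4 ^ 256 / c₃ * 8 := by positivity
      linarith)
    refine le_trans ?_ h1
    have h2 : C₃ / tk k ^ 3 = C₃ * (2 ^ k) ^ 3 := by
      rw [← inv_tk]; field_simp
    rw [h2]
  have hexC₁ : ∀ k, Us lam K k₀ k → C₁ / tk k ≤ c₃ * tk k ^ 2 * h k / 4 ^ 256 := by
    intro k hk
    have h1 := hpoly k hk (C₁ * 4 ^ 256 / c₃) (by positivity) (by
      have : 0 ≤ C₂ + C₃ := by positivity
      linarith)
    have h2 : (2 : ℝ) ^ k = 1 / tk k := (inv_tk k).symm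
    rw [h2] at h1
    have ht := tk_pos k
    calc C₁ / tk k = c₃ * tk k ^ 2 * (C₁ * 4 ^ 256 / c₃ * (1 / tk k) ^ 3) / 4 ^ 256 := by
          field_simp
      _ ≤ _ := by gcongr
  -- a usable index beyond l₀
  obtain ⟨l, hl1, hl2⟩ : ∃ l, l₀ ≤ l ∧ Us lam K k₀ l := by
    by_contra hcon
    push Not at hcon
    -- then Pot is bounded
    have hbd : ∀ i, Pot lam K k₀ c C₅ i ≤ ∑ j ∈ Finset.range (l₀ + 1), |Pot lam K k₀ c C₅ j| := by
      intro i
      rcases le_or_gt i l₀ with hi | hi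
      · refine (le_abs_self _).trans ?_
        exact Finset.single_le_sum (f := fun j => |Pot lam K k₀ c C₅ j|)
          (fun _ _ => abs_nonneg _) (Finset.mem_range.2 (by omega))
      · have h1 : Pot lam K k₀ c C₅ i ≤ Pot lam K k₀ c C₅ l₀ :=
          Pot_drop hC₅0 hi.le (fun j h1 _ => hcon j h1.le)
        refine h1.trans ((le_abs_self _).trans ?_)
        exact Finset.single_le_sum (f := fun j => |Pot lam K k₀ c C₅ j|)
          (fun _ _ => abs_nonneg _) (Finset.mem_range.2 (by omega))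
    obtain ⟨i, hi⟩ := hunb (∑ j ∈ Finset.range (l₀ + 1), |Pot lam K k₀ c C₅ j|)
    exact absurd (hbd i) (not_le.2 hi)
  refine ⟨l, hl1, hB l hl2, ?_⟩
  -- first passage
  classical
  have hex : ∃ J, l < J ∧ Pot lam K k₀ c C₅ l + 4 ≤ Pot lam K k₀ c C₅ J := by
    obtain ⟨i, hi⟩ := hunb (∑ j ∈ Finset.range (l + 1), |Pot lam K k₀ c C₅ j| + 4)
    have h2 : ∀ j, j ≤ l → Pot lam K k₀ c C₅ j ≤
        ∑ j ∈ Finset.range (l + 1), |Pot lam K k₀ c C₅ j| := by
      intro j hj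
      refine (le_abs_self _).trans ?_
      exact Finset.single_le_sum (f := fun j => |Pot lam K k₀ c C₅ j|)
        (fun _ _ => abs_nonneg _) (Finset.mem_range.2 (by omega))
    refine ⟨i, ?_, ?_⟩
    · by_contra hcon
      have := h2 i (by omega)
      linarith
    · have := h2 l le_rfl
      linarith
  set J := Nat.find hex with hJ
  obtain ⟨hlJ, hJpot⟩ := Nat.find_spec hex
  rw [← hJ] at hlJ hJpot
  have hJmin : ∀ k, l < k → k < J → Pot lam K k₀ c C₅ k < Pot lam K k₀ c C₅ l + 4 := by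
    intro k h1 h2
    by_contra hcon
    exact Nat.find_min hex h2 ⟨h1, not_lt.1 hcon⟩
  have hJge : ∀ k, l ≤ k → k ≤ J → Pot lam K k₀ c C₅ k ≤ Pot lam K k₀ c C₅ J := by
    intro k h1 h2
    rcases Nat.eq_or_lt_of_le h1 with h3 | h3
    · subst h3; linarith
    · rcases Nat.eq_or_lt_of_le h2 with h4 | h4
      · rw [h4]
      · have := hJmin k h3 h4
        linarith
  have hJus : Us lam K k₀ J := by
    by_contra hcon
    obtain ⟨m, hm⟩ : ∃ m, J = m + 1 := ⟨J - 1, by omega⟩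
    have h1 : Pot lam K k₀ c C₅ J ≤ Pot lam K k₀ c C₅ m := by
      rw [hm]
      apply Pot_drop hC₅0 (Nat.le_succ m)
      intro j h1 h2
      obtain rfl : j = m + 1 := by omega
      rw [← hm]
      exact hcon
    rcases Nat.eq_or_lt_of_le (show l ≤ m by omega) with h3 | h3
    · subst h3; linarith
    · have := hJmin m h3 (by omega)
      linarith
  -- the chain
  obtain ⟨y, hy⟩ := START J (by have := (husge J hJus).1; omega) (hexC₃ J hJus)
  refine ⟨y, ?_⟩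
  have hstart : S y J (c₁ * tk J ^ 2 * h J) (4 * tk J) := by
    have h1 := LAT y J _ _ 256 (by have := (husge J hJus).1; omega) hy (by
      have := tk_pos J
      linarith) (hexC₁ J hJus)
    refine Smono y J _ _ _ _ ?_ ?_ h1
    · have h2 : c₁ ≤ c₃ / 4 ^ 256 := min_le_right _ _
      have h3 : 0 ≤ tk J ^ 2 * h J := by
        have := hh1 J (by have := (husge J hJus).1; omega)
        positivity
      calc c₁ * tk J ^ 2 * h J = c₁ * (tk J ^ 2 * h J) := by ring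
        _ ≤ c₃ / 4 ^ 256 * (tk J ^ 2 * h J) := by gcongr
        _ = _ := by ring
    · push_cast
      have := tk_pos J
      linarith
  have hchain : ∀ n k, J - k = n → l ≤ k → k ≤ J → Us lam K k₀ k →
      S y k (c₁ * tk k ^ 2 * h k) (Pot lam K k₀ c C₅ J - Pot lam K k₀ c C₅ k + 4 * tk k) := by
    intro n
    induction n using Nat.strong_induction_on with
    | _ n ih =>
      intro k hkn hlk hkJ hku
      rcases Nat.eq_or_lt_of_le hkJ with heq | hlt
      · rw [heq, sub_self, zero_add]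
        exact hstart
      · obtain ⟨k', hkk', hk'J, hk'u, hbetween⟩ := exists_next hlt hJus
        have hS := ih (J - k') (by omega) k' rfl (by omega) hk'J hk'u
        have hPn := Pot_next (c := c) hC₅0 hkk' hku hk'u hbetween
        obtain ⟨g1, g2, g3⟩ := husge k hku
        obtain ⟨g1', g2', g3'⟩ := husge k' hk'u
        have htk' := tk_pos k'
        have htk := tk_pos k
        have hgap : lam k + K * k' ≤ lam k' := by
          obtain ⟨j, hj, h1, h2⟩ := hk'u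
          have h3 : Lam lam K k₀ j = lam k := by
            rw [← Lam_us hku]
            exact Lam_const (by omega) (fun i h1 h2 => hbetween i h1 (by omega))
          rw [h3] at h2
          rw [hj]
          push_cast
          exact h2
        have hC'k : C' * k' ≤ K * k' := by
          have : (0 : ℝ) ≤ k' := Nat.cast_nonneg _
          gcongr
        have hhk : 1 ≤ h k := hh1 k g1.le
        have hhk' : 1 ≤ h k' := hh1 k' g1'.le
        obtain ⟨N, hA1, hA2, hN2⟩ := step_choice hhk hhk' hc₁0 hc₁1 hC₁ hQ g2' (by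
          rw [← hC']
          have : lam k + K * k' ≤ lam k' := hgap
          simp only [hlam] at this
          linarith)
        have hHk : Pot lam K k₀ c C₅ k' ≤ Pot lam K k₀ c C₅ J := hJge k' (by omega) hk'J
        have hHk2 : Pot lam K k₀ c C₅ k ≤ Pot lam K k₀ c C₅ J := hJge k hlk hkJ
        have hL := LAT y k' _ _ N g1'.le hS (by linarith) hA1
        have hlen := length_choice (PJ := Pot lam K k₀ c C₅ J) hc0 hC'0 hC₅ htk htk'
          (show (1 : ℝ) ≤ k' by exact_mod_cast g2') hN2 (by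
            rw [← hC', hc]; field_simp; ring) hPn
        have hT := TRANS y k k' _ g1.le hkk' (hexC₂ k hku)
          (Smono y k' _ _ _ _ hA2 le_rfl hL) (by linarith)
        refine Smono y k _ _ _ _ ?_ (by linarith) hT
        have e1 : c₁ ≤ c₂ := min_le_left _ _
        have e2 : tk k ^ 2 ≤ 1 := pow_le_one₀ htk.le (tk_le_one k)
        calc c₁ * tk k ^ 2 * h k ≤ c₁ * 1 * h k := by gcongr
          _ ≤ c₂ * h k := by rw [mul_one]; gcongr
  have hfin := hchain (J - l) l rfl le_rfl hlJ.le hl2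
  refine Smono y l _ _ _ _ le_rfl ?_ hfin
  have := tk_pos l
  linarith

end Pool.Agent.H76Brennan
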