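import Pool.Agent.H76Brennan.Start
import Pool.Agent.H76Brennan.Scales

set_option autoImplicit false
set_option linter.unusedSectionVars false
set_option linter.style.haveILetI false
open Complex Set Metric Filter Topology MeasureTheory
open scoped ENNReal NNReal

namespace Pool.Agent.H76Brennan

section
variable {Ω : Set ℂ} {φ ψ : ℂ → ℂ} {R : ℝ}
variable {μ : Measure ℂ} [IsFiniteMeasure μ] {q : ℝ≥0∞} [Fact (1 ≤ q)]

theorem ft_periodic (Λ : Lp ℂ q μ →L[ℂ] ℂ) (t : ℝ) (w : ℂ) (n : ℤ) :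
    ft Λ Ω φ ψ t (w - n * (2 * Real.pi * I)) = ft Λ Ω φ ψ t w := by
  unfold ft
  rw [Complex.exp_sub, Complex.exp_int_mul_two_pi_mul_I, div_one]

/-- A small arc of length at least `2π` gives smallness everywhere. -/
theorem small_all (Λ : Lp ℂ q μ →L[ℂ] ℂ) {t r y A : ℝ}
    (hS : Small (ft Λ Ω φ ψ t) r y A 4) (s : ℝ) :
    ‖ft Λ Ω φ ψ t (r + s * I)‖ ≤ Real.exp (-A) := by
  set n : ℤ := round ((s - y) / (2 * Real.pi)) with hn
  have hπ := Real.pi_pos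
  have hπ4 := Real.pi_le_four
  have h1 := hS (s - n * (2 * Real.pi)) ?_
  · have h2 : (r : ℂ) + ((s - n * (2 * Real.pi) : ℝ) : ℂ) * I =
        (r + s * I) - n * (2 * Real.pi * I) := by
      push_cast; ring
    rw [h2, ft_periodic] at h1
    exact h1
  · have h3 := abs_sub_round ((s - y) / (2 * Real.pi))
    rw [← hn] at h3
    have h4 : s - n * (2 * Real.pi) - y = ((s - y) / (2 * Real.pi) - n) * (2 * Real.pi) := by
      field_simp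
      ring
    rw [h4, abs_mul, abs_of_pos (show (0 : ℝ) < 2 * Real.pi by positivity)]
    calc |(s - y) / (2 * Real.pi) - n| * (2 * Real.pi) ≤ 1 / 2 * (2 * Real.pi) := by gcongr
      _ ≤ 4 := by linarith

/-- The conclusion of the multiscale argument. -/
theorem Conf.chain (h : Conf Ω φ ψ R) (Λ : Lp ℂ q μ →L[ℂ] ℂ) {p : ℝ}
    (hq : q = ENNReal.ofReal p) (hp1 : 1 ≤ p) (hp4 : p ≤ 4) (hμΩ : ∀ᵐ z ∂μ, z ∈ Ω)
    (hΛ : ∀ n : ℕ, val Λ (fun z => z ^ n) = 0) (hh : ℕ → ℝ) (k₀ : ℕ)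
    (hh1 : ∀ k, k₀ ≤ k → 1 ≤ hh k)
    (hμ : ∀ k, k₀ ≤ k → μ.restrict (Ω \ Kt Ω φ (tk k)) ≤
      ENNReal.ofReal (Real.exp (-(hh k))) • (volume : Measure ℂ))
    (hdiv : ¬ Summable (fun k => tk k * Real.log (hh k))) :
    ∃ c : ℝ, 0 < c ∧ ∀ (B : ℕ) (l₀ : ℕ), ∃ l, l₀ ≤ l ∧ (1 / tk l) ^ B ≤ hh l ∧
      ∀ s : ℝ, ‖ft Λ Ω φ ψ (tk l) ((-(tk l / 2) : ℝ) + s * I)‖ ≤
        Real.exp (-(c * tk l ^ 2 * hh l)) := by
  obtain ⟨C, hC, hsep⟩ := h.sep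
  have hQ := Qc_nonneg Λ
  obtain ⟨C₂, hC₂, htrans⟩ := h.trans_step Λ hq hp1 hp4 hC hsep
  obtain ⟨C₃, c₃, hC₃, hc₃, hc₃1, hstart⟩ := h.start_step Λ hq hp1 hp4 hC hsep hμΩ hΛ
  have LAT : ∀ (y : ℝ) (k : ℕ) (A H : ℝ) (N : ℕ), k₀ ≤ k →
      Small (ft Λ Ω φ ψ (tk k)) (-(tk k / 2)) y A H → tk k / 128 ≤ H →
      (3 * ((C + Qc Λ) + 4)) / tk k ≤ A / 4 ^ N →
      Small (ft Λ Ω φ ψ (tk k)) (-(tk k / 2)) y (A / 4 ^ N) (H + N * (tk k / 64)) := by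
    intro y k A H N hk hS hH hN
    exact lat_many (tk_pos k) (tk_le_one k) (by positivity)
      (fun w h1 h2 => h.ft_diff Λ (tk_pos k) h1 h2)
      (fun w h1 h2 => h.ft_bound Λ hsep (tk_pos k) (tk_le_one k) h2 h1) hH hS N hN
  have TRANS : ∀ (y : ℝ) (k k' : ℕ) (H : ℝ), k₀ ≤ k → k < k' → C₂ / tk k ^ 2 ≤ hh k →
      Small (ft Λ Ω φ ψ (tk k')) (-(tk k' / 2)) y (hh k) H → tk k ≤ H →
      Small (ft Λ Ω φ ψ (tk k)) (-(tk k / 2)) y (1 / 196608 * hh k) (H - 3 / 4 * tk k) := by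
    intro y k k' H hk hkk hC2 hS hH
    have htk := tk_pos k
    have h1 : tk k' ≤ tk k / 2 := by
      rw [← tk_succ]
      exact tk_anti hkk
    have h2 : C₂ / tk k ≤ hh k := by
      refine le_trans ?_ hC2
      apply div_le_div_of_nonneg_left hC₂.le (by positivity)
      have := tk_le_one k
      nlinarith
    have h3 := htrans (tk k) (tk k') (tk_pos k') h1 (tk_le_one k) (hh k) h2 (hμ k hk) y H hS
    refine h3.mono ?_ le_rfl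
    linarith
  have START : ∀ k : ℕ, k₀ ≤ k → C₃ / tk k ^ 3 ≤ hh k →
      ∃ y : ℝ, Small (ft Λ Ω φ ψ (tk k)) (-(tk k / 2)) y (c₃ * tk k ^ 2 * hh k) (tk k / 64) := by
    intro k hk hC3
    exact hstart (tk k) (tk_pos k) (tk_le_one k) (hh k) hC3 (hμ k hk)
  obtain ⟨c, hc, hsel⟩ := selection hh
    (fun y k A H => Small (ft Λ Ω φ ψ (tk k)) (-(tk k / 2)) y A H) k₀ hh1 hdiv
    (fun y k A A' H H' hA hH hS => hS.mono hA hH)
    (C₁ := 3 * ((C + Qc Λ) + 4)) (C₂ := C₂) (C₃ := C₃) (c₂ := 1 / 196608) (c₃ := c₃)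
    (by positivity) hC₂ hC₃ (by norm_num) hc₃ hc₃1 LAT TRANS START
  refine ⟨c, hc, ?_⟩
  intro B l₀
  obtain ⟨l, h1, h2, y, h3⟩ := hsel B l₀
  exact ⟨l, h1, h2, fun s => small_all Λ h3 s⟩

end

end Pool.Agent.H76Brennan
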