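import Mathlib

set_option autoImplicit false
open Complex Set Metric Filter Topology

namespace Pool.Agent.H76Brennan

/-- A conformal bijection of `Ω` onto the unit disk, with its inverse. -/
structure Conf (Ω : Set ℂ) (φ ψ : ℂ → ℂ) (R : ℝ) : Prop where
  isOpen : IsOpen Ω
  Rpos : 0 < R
  bdd : ∀ z ∈ Ω, ‖z‖ < R
  φd : DifferentiableOn ℂ φ Ω
  φm : ∀ z ∈ Ω, ‖φ z‖ < 1
  ψd : DifferentiableOn ℂ ψ (ball 0 1)
  ψm : ∀ a : ℂ, ‖a‖ < 1 → ψ a ∈ Ω
  left : ∀ z ∈ Ω, ψ (φ z) = z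
  right : ∀ a : ℂ, ‖a‖ < 1 → φ (ψ a) = a

/-- An injective analytic function is not locally constant. -/
theorem not_eventually_const {Ω : Set ℂ} {φ : ℂ → ℂ} (hΩ : IsOpen Ω) (hinj : InjOn φ Ω)
    {z₀ : ℂ} (hz : z₀ ∈ Ω) : ¬ ∀ᶠ z in 𝓝 z₀, φ z = φ z₀ := by
  intro h
  have h1 : ∀ᶠ z in 𝓝 z₀, z = z₀ := by
    filter_upwards [h, hΩ.mem_nhds hz] with z h1 h2
    exact hinj h2 hz h1
  have h2 : ({z₀} : Set ℂ) ∈ 𝓝 z₀ := h1
  have h3 : IsOpen ({z₀} : Set ℂ) := by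
    rw [isOpen_singleton_iff_nhds_eq_pure]
    exact le_antisymm (le_pure_iff.2 h2) (pure_le_nhds z₀)
  exact not_isOpen_singleton z₀ h3

theorem inverse_differentiable {Ω : Set ℂ} {φ ψ : ℂ → ℂ} (hΩ : IsOpen Ω)
    (hφ : DifferentiableOn ℂ φ Ω) (hinj : InjOn φ Ω)
    (hleft : ∀ z ∈ Ω, ψ (φ z) = z) {B : Set ℂ}
    (hψm : ∀ a ∈ B, ψ a ∈ Ω) (hright : ∀ a ∈ B, φ (ψ a) = a) (hB : IsOpen B) :
    DifferentiableOn ℂ ψ B := by
  have hcont : ∀ a ∈ B, ContinuousAt ψ a := by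
    intro a ha
    have hz := hψm a ha
    have han : AnalyticAt ℂ φ (ψ a) := hφ.analyticAt (hΩ.mem_nhds hz)
    have hopen : 𝓝 (φ (ψ a)) ≤ map φ (𝓝 (ψ a)) :=
      han.eventually_constant_or_nhds_le_map_nhds.resolve_left (not_eventually_const hΩ hinj hz)
    rw [hright a ha] at hopen
    intro V hV
    have h1 : V ∩ Ω ∈ 𝓝 (ψ a) := inter_mem hV (hΩ.mem_nhds hz)
    have h2 : φ '' (V ∩ Ω) ∈ 𝓝 a := hopen (image_mem_map h1)
    rw [mem_map]
    refine mem_of_superset h2 ?_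
    rintro _ ⟨w, hw, rfl⟩
    show ψ (φ w) ∈ V
    rw [hleft w hw.2]
    exact hw.1
  intro a ha
  have hz := hψm a ha
  have han : AnalyticAt ℂ φ (ψ a) := hφ.analyticAt (hΩ.mem_nhds hz)
  have hd : ∀ᶠ w in 𝓝[≠] (ψ a), deriv φ w ≠ 0 := by
    rcases han.deriv.eventually_eq_zero_or_eventually_ne_zero with h | h
    · exfalso
      apply not_eventually_const hΩ hinj hz
      obtain ⟨r, hr, hball⟩ := Metric.eventually_nhds_iff_ball.1 (h.and (hΩ.mem_nhds hz))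
      filter_upwards [ball_mem_nhds (ψ a) hr] with w hw
      have hdiff : DifferentiableOn ℂ φ (ball (ψ a) r) := hφ.mono (fun w hw => (hball w hw).2)
      have hconst := (convex_ball (ψ a) r).is_const_of_fderivWithin_eq_zero (𝕜 := ℂ) hdiff ?_ hw
        (mem_ball_self hr)
      · exact hconst
      · intro x hx
        rw [fderivWithin_of_isOpen isOpen_ball hx]
        ext
        simp [(hball x hx).1]
    · exact h
  have hd' : ∀ᶠ b in 𝓝[≠] a, DifferentiableAt ℂ ψ b := by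
    have h1 : Tendsto ψ (𝓝[≠] a) (𝓝[≠] (ψ a)) := by
      rw [tendsto_nhdsWithin_iff]
      refine ⟨(hcont a ha).tendsto.mono_left nhdsWithin_le_nhds, ?_⟩
      filter_upwards [self_mem_nhdsWithin, mem_nhdsWithin_of_mem_nhds (hB.mem_nhds ha)] with b hb1 hb2
      intro h
      apply hb1
      show b = a
      rw [← hright b hb2, ← hright a ha]
      have : ψ b = ψ a := h
      rw [this]
    filter_upwards [h1.eventually hd, mem_nhdsWithin_of_mem_nhds (hB.mem_nhds ha)] with b hb1 hb2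
    have h2 : HasDerivAt φ (deriv φ (ψ b)) (ψ b) :=
      (hφ.differentiableAt (hΩ.mem_nhds (hψm b hb2))).hasDerivAt
    have h3 : ∀ᶠ y in 𝓝 b, φ (ψ y) = y := by
      filter_upwards [hB.mem_nhds hb2] with y hy
      exact hright y hy
    exact (HasDerivAt.of_local_left_inverse (hcont b hb2) h2 hb1 h3).differentiableAt
  exact (Complex.analyticAt_of_differentiable_on_punctured_nhds_of_continuousAt hd'
    (hcont a ha)).differentiableAt.differentiableWithinAt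

theorem exists_conf {Ω : Set ℂ} {φ : ℂ → ℂ} (hΩ : IsOpen Ω) (hb : Bornology.IsBounded Ω)
    (hφ : DifferentiableOn ℂ φ Ω) (hbij : BijOn φ Ω (ball 0 1)) :
    ∃ ψ R, Conf Ω φ ψ R := by
  obtain ⟨R, hR⟩ := hb.subset_ball (0 : ℂ)
  set ψ := Function.invFunOn φ Ω with hψ
  have hleft : ∀ z ∈ Ω, ψ (φ z) = z := fun z hz => hbij.injOn.leftInvOn_invFunOn hz
  have hsurj : ∀ a : ℂ, ‖a‖ < 1 → ∃ z ∈ Ω, φ z = a := by
    intro a ha
    obtain ⟨z, hz, h⟩ := hbij.surjOn (show a ∈ ball (0 : ℂ) 1 by simpa using ha)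
    exact ⟨z, hz, h⟩
  have hψm : ∀ a : ℂ, ‖a‖ < 1 → ψ a ∈ Ω := fun a ha => Function.invFunOn_mem (hsurj a ha)
  have hright : ∀ a : ℂ, ‖a‖ < 1 → φ (ψ a) = a := fun a ha => Function.invFunOn_eq (hsurj a ha)
  refine ⟨ψ, max R 1, ⟨hΩ, by positivity, ?_, hφ, ?_, ?_, hψm, hleft, hright⟩⟩
  · intro z hz
    have : ‖z‖ < R := by simpa using hR hz
    exact this.trans_le (le_max_left _ _)
  · intro z hz
    simpa using hbij.mapsTo hz
  · exact inverse_differentiable hΩ hφ hbij.injOn hleft (fun a ha => hψm a (by simpa using ha))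
      (fun a ha => hright a (by simpa using ha)) isOpen_ball

/-- analytic logarithm on a disk -/
theorem exists_log {g : ℂ → ℂ} (hg : DifferentiableOn ℂ g (ball 0 1))
    (hne : ∀ a : ℂ, ‖a‖ < 1 → g a ≠ 0) :
    ∃ L : ℂ → ℂ, DifferentiableOn ℂ L (ball 0 1) ∧ L 0 = Complex.log (g 0) ∧
      ∀ a : ℂ, ‖a‖ < 1 → Complex.exp (L a) = g a := by
  have hne' : ∀ a ∈ ball (0 : ℂ) 1, g a ≠ 0 := fun a ha => hne a (by simpa using ha)
  have hdg : DifferentiableOn ℂ (deriv g) (ball 0 1) := hg.deriv isOpen_ball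
  have hq : DifferentiableOn ℂ (fun a => deriv g a / g a) (ball 0 1) := hdg.div hg hne'
  obtain ⟨L, hL⟩ := hq.isExactOn_ball
  set L₁ : ℂ → ℂ := fun a => L a - L 0 + Complex.log (g 0) with hL1
  have hL1d : ∀ a ∈ ball (0 : ℂ) 1, HasDerivAt L₁ (deriv g a / g a) a := by
    intro a ha
    exact ((hL a ha).sub_const _).add_const _
  refine ⟨L₁, fun a ha => (hL1d a ha).differentiableAt.differentiableWithinAt, by simp [hL1], ?_⟩
  have hconst : ∀ a ∈ ball (0 : ℂ) 1, g a * Complex.exp (-(L₁ a)) =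
      g 0 * Complex.exp (-(L₁ 0)) := by
    intro a ha
    have hd : ∀ b ∈ ball (0 : ℂ) 1, HasDerivAt (fun a => g a * Complex.exp (-(L₁ a))) 0 b := by
      intro b hb
      have h1 : HasDerivAt g (deriv g b) b :=
        (hg.differentiableAt (isOpen_ball.mem_nhds hb)).hasDerivAt
      have h2 := (hL1d b hb).neg.cexp
      have h3 := h1.mul h2
      have hb0 := hne' b hb
      have h4 : deriv g b * Complex.exp (-(L₁ b)) +
          g b * (Complex.exp (-(L₁ b)) * -(deriv g b / g b)) = 0 := by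
        field_simp
        ring
      rw [← h4]
      exact h3
    have h0 : (0 : ℂ) ∈ ball (0 : ℂ) 1 := by simp
    refine (convex_ball (0 : ℂ) 1).is_const_of_fderivWithin_eq_zero (𝕜 := ℂ)
      (f := fun a => g a * Complex.exp (-(L₁ a)))
      (fun b hb => (hd b hb).differentiableAt.differentiableWithinAt) ?_ ha h0
    intro b hb
    rw [fderivWithin_of_isOpen isOpen_ball hb]
    ext
    simp [(hd b hb).deriv]
  intro a ha
  have h0 : (0 : ℂ) ∈ ball (0 : ℂ) 1 := by simp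
  have h1 := hconst a (by simpa using ha)
  have h2 : g 0 * Complex.exp (-(L₁ 0)) = 1 := by
    have : L₁ 0 = Complex.log (g 0) := by simp [hL1]
    rw [this, Complex.exp_neg, Complex.exp_log (hne' 0 h0), mul_inv_cancel₀ (hne' 0 h0)]
  rw [h2, Complex.exp_neg] at h1
  field_simp at h1
  exact h1.symm

section
variable {Ω : Set ℂ} {φ ψ : ℂ → ℂ} {R : ℝ}

theorem Conf.ψdAt (h : Conf Ω φ ψ R) {a : ℂ} (ha : ‖a‖ < 1) : DifferentiableAt ℂ ψ a :=
  h.ψd.differentiableAt (isOpen_ball.mem_nhds (by simpa using ha))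

theorem Conf.φdAt (h : Conf Ω φ ψ R) {z : ℂ} (hz : z ∈ Ω) : DifferentiableAt ℂ φ z :=
  h.φd.differentiableAt (h.isOpen.mem_nhds hz)

theorem Conf.deriv_mul (h : Conf Ω φ ψ R) {a : ℂ} (ha : ‖a‖ < 1) :
    deriv φ (ψ a) * deriv ψ a = 1 := by
  have h1 : HasDerivAt (φ ∘ ψ) (deriv φ (ψ a) * deriv ψ a) a :=
    HasDerivAt.comp a (h.φdAt (h.ψm a ha)).hasDerivAt (h.ψdAt ha).hasDerivAt
  have h2 : HasDerivAt (φ ∘ ψ) 1 a := by
    refine (hasDerivAt_id a).congr_of_eventuallyEq ?_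
    filter_upwards [isOpen_ball.mem_nhds (show a ∈ ball (0 : ℂ) 1 by simpa using ha)] with b hb
    exact h.right b (by simpa using hb)
  exact h1.unique h2

theorem Conf.deriv_ne (h : Conf Ω φ ψ R) {a : ℂ} (ha : ‖a‖ < 1) : deriv ψ a ≠ 0 := by
  intro h0
  have := h.deriv_mul ha
  rw [h0, mul_zero] at this
  exact zero_ne_one this

theorem Conf.bddψ (h : Conf Ω φ ψ R) {a : ℂ} (ha : ‖a‖ < 1) : ‖ψ a‖ < R := h.bdd _ (h.ψm a ha)

/-- Weak form of Koebe's distortion theorem. -/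
theorem Conf.weak_koebe (h : Conf Ω φ ψ R) :
    ∃ C : ℝ, 0 < C ∧ ∀ b : ℂ, ‖b‖ < 1 → ∀ ζ : ℂ, ζ ∉ Ω →
      Real.exp (-(C / (1 - ‖b‖))) ≤ ‖ψ b - ζ‖ := by
  have hR := h.Rpos
  have h0Ω : ψ 0 ∈ Ω := h.ψm 0 (by simp)
  obtain ⟨d, hd, hball⟩ := Metric.isOpen_iff.1 h.isOpen _ h0Ω
  -- constants
  set K : ℝ := |Real.log (min d 1 / (4 * R))| + Real.pi with hK
  have hKpos : 0 < K := by
    have := Real.pi_pos
    positivity
  set C : ℝ := 2 + 2 * K + |Real.log (4 * R)| + |Real.log R| with hC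
  refine ⟨C, by positivity, ?_⟩
  intro b hb ζ hζ
  have h1b : 0 < 1 - ‖b‖ := by linarith
  have h1b' : 1 - ‖b‖ ≤ 1 := by linarith [norm_nonneg b]
  by_cases hζR : 2 * R ≤ ‖ζ‖
  · -- far away
    have h1 : R ≤ ‖ψ b - ζ‖ := by
      have h2 : ‖ζ‖ ≤ ‖ψ b - ζ‖ + ‖ψ b‖ := by
        calc ‖ζ‖ = ‖-(ψ b - ζ) + ψ b‖ := by congr 1; ring
          _ ≤ ‖-(ψ b - ζ)‖ + ‖ψ b‖ := norm_add_le _ _
          _ = _ := by rw [norm_neg]
      have := h.bddψ hb
      linarith
    refine le_trans ?_ h1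
    rw [← Real.le_log_iff_exp_le hR]
    have h3 : C ≤ C / (1 - ‖b‖) := by
      rw [le_div_iff₀ h1b]
      have : 0 < C := by positivity
      nlinarith
    have h4 : -|Real.log R| ≤ Real.log R := neg_abs_le _
    have h5 : |Real.log R| ≤ C := by
      rw [hC]
      have : 0 ≤ |Real.log (4 * R)| := abs_nonneg _
      linarith
    linarith
  · push Not at hζR
    set g : ℂ → ℂ := fun a => (ψ a - ζ) / (4 * R) with hg
    have hRc : (4 * R : ℂ) ≠ 0 := by
      have : (R : ℂ) ≠ 0 := by exact_mod_cast hR.ne'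
      simpa using this
    have hgd : DifferentiableOn ℂ g (ball 0 1) := (h.ψd.sub_const ζ).div_const _
    have hnn : ∀ a : ℂ, ‖g a‖ = ‖ψ a - ζ‖ / (4 * R) := by
      intro a
      simp only [hg]
      rw [norm_div]
      congr 1
      rw [norm_mul, Complex.norm_real, Real.norm_of_nonneg hR.le]
      norm_num
    have hgne : ∀ a : ℂ, ‖a‖ < 1 → g a ≠ 0 := by
      intro a ha h0
      have : ψ a - ζ = 0 := by
        rcases div_eq_zero_iff.1 h0 with h1 | h1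
        · exact h1
        · exact absurd h1 hRc
      apply hζ
      rw [← sub_eq_zero.1 this]
      exact h.ψm a ha
    have hg1 : ∀ a : ℂ, ‖a‖ < 1 → ‖g a‖ ≤ 1 := by
      intro a ha
      rw [hnn, div_le_one (by positivity)]
      calc ‖ψ a - ζ‖ ≤ ‖ψ a‖ + ‖ζ‖ := norm_sub_le _ _
        _ ≤ 4 * R := by linarith [h.bddψ ha]
    obtain ⟨L, hLd, hL0, hLe⟩ := exists_log hgd hgne
    have hLre : ∀ a : ℂ, ‖a‖ < 1 → (L a).re = Real.log ‖g a‖ := by
      intro a ha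
      rw [← hLe a ha, Complex.norm_exp, Real.log_exp]
    have hmaps : MapsTo L (ball 0 1) {z | z.re ≤ 1} := by
      intro a ha
      have ha' : ‖a‖ < 1 := by simpa using ha
      show (L a).re ≤ 1
      rw [hLre a ha']
      have := Real.log_nonpos (norm_nonneg _) (hg1 a ha')
      linarith
    have hBC := Complex.borelCaratheodory (M := 1) (R := 1) one_pos hLd hmaps one_pos
      (z := b) (by simpa using hb)
    have hL0b : ‖L 0‖ ≤ K := by
      rw [hL0]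
      have h1 : ‖Complex.log (g 0)‖ ≤ |(Complex.log (g 0)).re| + |(Complex.log (g 0)).im| :=
        Complex.norm_le_abs_re_add_abs_im _
      have h2 : |(Complex.log (g 0)).im| ≤ Real.pi := by
        rw [Complex.log_im]; exact Complex.abs_arg_le_pi _
      have h3 : |(Complex.log (g 0)).re| ≤ |Real.log (min d 1 / (4 * R))| := by
        rw [Complex.log_re]
        have h4 : Real.log ‖g 0‖ ≤ 0 := Real.log_nonpos (norm_nonneg _) (hg1 0 (by simp))
        have h5 : min d 1 / (4 * R) ≤ ‖g 0‖ := by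
          rw [hnn]
          gcongr
          by_contra hlt
          push Not at hlt
          apply hζ
          apply hball
          rw [mem_ball, dist_comm, dist_eq_norm]
          exact hlt.trans_le (min_le_left _ _)
        have h6 : Real.log (min d 1 / (4 * R)) ≤ Real.log ‖g 0‖ :=
          Real.log_le_log (by positivity) h5
        rw [abs_of_nonpos h4, abs_of_nonpos (h6.trans h4)]
        linarith
      linarith
    have hLb : ‖L b‖ ≤ (2 + 2 * K) / (1 - ‖b‖) := by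
      refine hBC.trans ?_
      rw [← add_div]
      apply div_le_div_of_nonneg_right _ h1b.le
      · have := norm_nonneg b
        have h2 : ‖L 0‖ * (1 + ‖b‖) ≤ K * 2 :=
          mul_le_mul hL0b (by linarith) (by linarith) hKpos.le
        linarith
    have h7 : Real.log ‖g b‖ ≥ -((2 + 2 * K) / (1 - ‖b‖)) := by
      rw [← hLre b hb]
      have h8 := Complex.abs_re_le_norm (L b)
      have h9 := neg_abs_le (L b).re
      linarith
    have hgb : 0 < ‖g b‖ := norm_pos_iff.2 (hgne b hb)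
    have h10 : ‖ψ b - ζ‖ = ‖g b‖ * (4 * R) := by
      rw [hnn]
      field_simp
    have hpos : 0 < ‖ψ b - ζ‖ := by rw [h10]; positivity
    rw [← Real.le_log_iff_exp_le hpos, h10, Real.log_mul hgb.ne' (by positivity)]
    have h11 : -|Real.log (4 * R)| ≤ Real.log (4 * R) := neg_abs_le _
    have h12 : C / (1 - ‖b‖) = (2 + 2 * K) / (1 - ‖b‖) +
        (|Real.log (4 * R)| + |Real.log R|) / (1 - ‖b‖) := by
      rw [← add_div]
      congr 1
      rw [hC]
      ring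
    have h13 : |Real.log (4 * R)| + |Real.log R| ≤
        (|Real.log (4 * R)| + |Real.log R|) / (1 - ‖b‖) := by
      rw [le_div_iff₀ h1b]
      have : 0 ≤ |Real.log (4 * R)| + |Real.log R| := by positivity
      nlinarith
    have h14 : 0 ≤ |Real.log R| := abs_nonneg _
    rw [h12]
    linarith

theorem exp_neg_inv_le {x : ℝ} (hx : 0 < x) : Real.exp (-(1 / x)) ≤ x := by
  rw [Real.exp_neg]
  have h1 : 1 / x ≤ Real.exp (1 / x) := by
    have := Real.add_one_le_exp (1 / x)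
    linarith
  calc (Real.exp (1 / x))⁻¹ ≤ (1 / x)⁻¹ := by gcongr
    _ = x := by rw [one_div, inv_inv]

theorem one_sub_exp_ge {τ : ℝ} (h0 : 0 ≤ τ) (h1 : τ ≤ 1) : τ / 2 ≤ 1 - Real.exp (-τ) := by
  have h2 := Real.exp_bound_div_one_sub_of_interval h0
  -- exp(-τ) ≤ 1 - τ/2 : use 1/(1+τ) and (1+τ)(1-τ/2) ≥ 1
  have h3 : Real.exp (-τ) ≤ 1 / (1 + τ) := by
    rw [Real.exp_neg, one_div]
    have := Real.add_one_le_exp τ
    have h4 : 0 < 1 + τ := by linarith
    gcongr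
    linarith
  have h5 : 1 / (1 + τ) ≤ 1 - τ / 2 := by
    rw [div_le_iff₀ (by linarith)]
    nlinarith
  linarith

/-- Contraction of `φ` on balls inside `Ω`. -/
theorem Conf.schwarz (h : Conf Ω φ ψ R) {z w : ℂ} {δ : ℝ} (hball : ball z δ ⊆ Ω)
    (hw : ‖w - z‖ < δ) : ‖φ w - φ z‖ ≤ 2 / δ * ‖w - z‖ := by
  have hδ : 0 < δ := (norm_nonneg _).trans_lt hw
  have hzΩ : z ∈ Ω := hball (mem_ball_self hδ)
  have hwb : w ∈ ball z δ := by rw [mem_ball, dist_eq_norm]; exact hw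
  have := Complex.dist_le_div_mul_dist_of_mapsTo_ball (f := φ) (c := z) (R₁ := δ) (R₂ := 2)
    (h.φd.mono hball) ?_ hwb
  · rwa [dist_eq_norm, dist_eq_norm] at this
  · intro x hx
    rw [mem_closedBall, dist_eq_norm]
    calc ‖φ x - φ z‖ ≤ ‖φ x‖ + ‖φ z‖ := norm_sub_le _ _
      _ ≤ 2 := by linarith [h.φm x (hball hx), h.φm z hzΩ]

/-- Separation of the images of separated points. -/
theorem Conf.sep (h : Conf Ω φ ψ R) :
    ∃ C : ℝ, 0 < C ∧ ∀ τ : ℝ, 0 < τ → τ ≤ 1 → ∀ a b : ℂ, ‖a‖ < 1 → ‖b‖ ≤ Real.exp (-τ) →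
      τ / 32 ≤ ‖a - b‖ → Real.exp (-(C / τ)) ≤ ‖ψ a - ψ b‖ := by
  obtain ⟨C, hC, hk⟩ := h.weak_koebe
  refine ⟨2 * C + 64, by positivity, ?_⟩
  intro τ hτ hτ1 a b ha hb hab
  have hb1 : ‖b‖ < 1 := hb.trans_lt (by rw [Real.exp_lt_one_iff]; linarith)
  set δ := Real.exp (-(C / (1 - ‖b‖))) with hδ
  have h1 : τ / 2 ≤ 1 - ‖b‖ := by
    have := one_sub_exp_ge hτ.le hτ1
    linarith
  have hδ0 : 0 < δ := Real.exp_pos _
  have hδ1 : Real.exp (-(2 * C / τ)) ≤ δ := by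
    apply Real.exp_le_exp.2
    apply neg_le_neg
    rw [div_le_div_iff₀ (by linarith) hτ]
    nlinarith
  have hball : ball (ψ b) δ ⊆ Ω := by
    intro ζ hζ
    by_contra hcon
    have := hk b hb1 ζ hcon
    rw [mem_ball, dist_comm, dist_eq_norm] at hζ
    linarith
  have hτ64 : Real.exp (-(64 / τ)) ≤ τ / 64 := by
    have := exp_neg_inv_le (show 0 < τ / 64 by positivity)
    rwa [one_div_div] at this
  have hfin : Real.exp (-((2 * C + 64) / τ)) ≤ δ * (τ / 64) := by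
    rw [add_div, neg_add, Real.exp_add]
    gcongr
  by_cases hlt : ‖ψ a - ψ b‖ < δ
  · have h2 := h.schwarz hball hlt
    rw [h.right a ha, h.right b hb1] at h2
    have h3 : δ * ‖a - b‖ / 2 ≤ ‖ψ a - ψ b‖ := by
      have : δ * ‖a - b‖ ≤ δ * (2 / δ * ‖ψ a - ψ b‖) := by gcongr
      have h4 : δ * (2 / δ * ‖ψ a - ψ b‖) = 2 * ‖ψ a - ψ b‖ := by field_simp
      linarith
    refine hfin.trans (le_trans ?_ h3)
    have : δ * (τ / 32) ≤ δ * ‖a - b‖ := by gcongr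
    linarith
  · push Not at hlt
    refine hfin.trans (le_trans ?_ hlt)
    have : τ / 64 ≤ 1 := by linarith
    nlinarith

/-- Upper bound for `ψ'`. -/
theorem Conf.deriv_le (h : Conf Ω φ ψ R) {a : ℂ} (ha : ‖a‖ < 1) :
    ‖deriv ψ a‖ ≤ 2 * R / (1 - ‖a‖) := by
  have hsub : ball a (1 - ‖a‖) ⊆ ball 0 1 := by
    intro b hb
    rw [mem_ball, dist_eq_norm] at hb
    rw [mem_ball, dist_zero_right]
    calc ‖b‖ = ‖(b - a) + a‖ := by congr 1; ring
      _ ≤ ‖b - a‖ + ‖a‖ := norm_add_le _ _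
      _ < 1 := by linarith
  refine Complex.norm_deriv_le_div_of_mapsTo_ball (h.ψd.mono hsub) ?_ (by linarith)
  intro b hb
  have hb' : ‖b‖ < 1 := by simpa using hsub hb
  rw [mem_closedBall, dist_eq_norm]
  calc ‖ψ b - ψ a‖ ≤ ‖ψ b‖ + ‖ψ a‖ := norm_sub_le _ _
    _ ≤ 2 * R := by linarith [h.bddψ hb', h.bddψ ha]

/-- Lower bound for `ψ'`. -/
theorem Conf.deriv_ge (h : Conf Ω φ ψ R) :
    ∃ C : ℝ, 0 < C ∧ ∀ a : ℂ, ‖a‖ < 1 → Real.exp (-(C / (1 - ‖a‖))) / 2 ≤ ‖deriv ψ a‖ := by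
  obtain ⟨C, hC, hk⟩ := h.weak_koebe
  refine ⟨C, hC, ?_⟩
  intro a ha
  set δ := Real.exp (-(C / (1 - ‖a‖))) with hδ
  have hδ0 : 0 < δ := Real.exp_pos _
  have hball : ball (ψ a) δ ⊆ Ω := by
    intro ζ hζ
    by_contra hcon
    have := hk a ha ζ hcon
    rw [mem_ball, dist_comm, dist_eq_norm] at hζ
    linarith
  have h1 : ‖deriv φ (ψ a)‖ ≤ 2 / δ := by
    refine Complex.norm_deriv_le_div_of_mapsTo_ball (h.φd.mono hball) ?_ hδ0
    intro x hx
    rw [mem_closedBall, dist_eq_norm]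
    calc ‖φ x - φ (ψ a)‖ ≤ ‖φ x‖ + ‖φ (ψ a)‖ := norm_sub_le _ _
      _ ≤ 2 := by linarith [h.φm x (hball hx), h.φm _ (h.ψm a ha)]
  have h2 : ‖deriv φ (ψ a)‖ * ‖deriv ψ a‖ = 1 := by
    rw [← norm_mul, h.deriv_mul ha, norm_one]
  have h3 : 1 ≤ 2 / δ * ‖deriv ψ a‖ := by
    rw [← h2]
    gcongr
  have h4 : δ * 1 ≤ δ * (2 / δ * ‖deriv ψ a‖) := by gcongr
  have h5 : δ * (2 / δ * ‖deriv ψ a‖) = 2 * ‖deriv ψ a‖ := by field_simp
  linarith

end

end Pool.Agent.H76Brennan
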