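import Pool.Agent.H76Brennan.Weight

set_option autoImplicit false
set_option linter.unusedSectionVars false
set_option linter.style.haveILetI false
open Complex Set Metric Filter Topology MeasureTheory
open scoped ENNReal NNReal

namespace Pool.Agent.H76Brennan

theorem det_mul (c : ℂ) :
    ((ContinuousLinearMap.toSpanSingleton ℂ c).restrictScalars ℝ).det = ‖c‖ ^ 2 := by
  simp [ContinuousLinearMap.det, LinearMap.det_restrictScalars,
      Algebra.norm_complex_eq, Complex.normSq_eq_norm_sq]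

section
variable {Ω : Set ℂ} {φ ψ : ℂ → ℂ} {R : ℝ} {W : ℝ → ℝ}

/-- The density is measurable. -/
theorem Conf.dens_meas (h : Conf Ω φ ψ R) (hW : IsW W) :
    AEMeasurable (dens φ W) ((volume : Measure ℂ).restrict Ω) := by
  classical
  set W' : ℝ → ℝ := fun t => if t ≤ 0 then 0 else if t ≤ 1 then W t else W 1 with hW'
  have hmono : Monotone W' := by
    intro s t hst
    simp only [hW']
    split_ifs with h1 h2 h3 h4 h5 h6
    · exact le_rfl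
    · exact (hW.pos t ⟨by linarith, h3⟩).le
    · exact (hW.pos 1 ⟨one_pos, le_rfl⟩).le
    · linarith
    · exact hW.mono ⟨by linarith, h4⟩ ⟨by linarith, h6⟩ hst
    · exact hW.mono ⟨by linarith, h4⟩ ⟨one_pos, le_rfl⟩ h4
    · linarith
    · linarith
    · exact le_rfl
  have hmeas : Measurable W' := hmono.measurable
  have hφ : AEMeasurable φ ((volume : Measure ℂ).restrict Ω) :=
    h.φd.continuousOn.aemeasurable h.isOpen.measurableSet
  have h1 : AEMeasurable (fun z => ENNReal.ofReal (W' (1 - ‖φ z‖)))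
      ((volume : Measure ℂ).restrict Ω) := by
    apply AEMeasurable.ennreal_ofReal
    exact hmeas.comp_aemeasurable (hφ.norm.const_sub 1)
  refine h1.congr ?_
  filter_upwards [ae_restrict_mem h.isOpen.measurableSet] with z hz
  have h2 := h.arg_mem hz
  simp only [hW', dens]
  rw [if_neg (not_le.2 h2.1), if_pos h2.2]

/-- Integrals over subsets of `Ω`. -/
theorem Conf.lintegral_mu (h : Conf Ω φ ψ R) (hW : IsW W) {A : Set ℂ} (hA : MeasurableSet A)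
    (hAΩ : A ⊆ Ω) {G : ℂ → ℝ≥0∞} (hG : AEMeasurable G ((volume : Measure ℂ).restrict A)) :
    ∫⁻ z in A, G z ∂(mu Ω φ W) = ∫⁻ z in A, dens φ W z * G z := by
  have h1 : (mu Ω φ W).restrict A = ((volume : Measure ℂ).restrict A).withDensity (dens φ W) := by
    rw [mu, restrict_withDensity hA, Measure.restrict_restrict hA, inter_eq_left.2 hAΩ]
    rfl
  have h2 : AEMeasurable (dens φ W) ((volume : Measure ℂ).restrict A) :=
    (h.dens_meas hW).mono_measure (Measure.restrict_mono hAΩ le_rfl)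
  rw [h1, lintegral_withDensity_eq_lintegral_mul₀ h2 hG]
  rfl

/-- The dilation of a function. -/
noncomputable def dil (φ ψ ℓ : ℂ → ℂ) (p : ℝ) (f : ℂ → ℂ) (ρ : ℝ) (z : ℂ) : ℂ :=
  f (ψ (ρ * φ z)) * Complex.exp ((2 / p : ℝ) * ((Real.log ρ : ℝ) + ℓ (ρ * φ z) - ℓ (φ z)))

theorem norm_rho_lt {ρ : ℝ} (h0 : 0 ≤ ρ) (h1 : ρ ≤ 1) {a : ℂ} (ha : ‖a‖ < 1) :
    ‖(ρ : ℂ) * a‖ < 1 := by
  rw [norm_mul, Complex.norm_real, Real.norm_of_nonneg h0]
  have := norm_nonneg a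
  nlinarith

theorem Conf.dil_diff (h : Conf Ω φ ψ R) {ℓ : ℂ → ℂ} (hℓ : DifferentiableOn ℂ ℓ (ball 0 1))
    (p : ℝ) {f : ℂ → ℂ} (hf : DifferentiableOn ℂ f Ω) {ρ : ℝ} (h0 : 0 ≤ ρ) (h1 : ρ ≤ 1) :
    DifferentiableOn ℂ (dil φ ψ ℓ p f ρ) Ω := by
  have hρφ : DifferentiableOn ℂ (fun z => (ρ : ℂ) * φ z) Ω := h.φd.const_mul _
  have hm : MapsTo (fun z => (ρ : ℂ) * φ z) Ω (ball 0 1) := by
    intro z hz
    have := norm_rho_lt h0 h1 (h.φm z hz)
    simpa using this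
  have hm2 : MapsTo φ Ω (ball 0 1) := by
    intro z hz
    simpa using h.φm z hz
  have e1 : DifferentiableOn ℂ (fun z => f (ψ (ρ * φ z))) Ω := by
    apply hf.comp (h.ψd.comp hρφ hm)
    intro z hz
    exact h.ψm _ (by simpa using hm hz)
  have e2 : DifferentiableOn ℂ (fun z => ℓ (ρ * φ z)) Ω := hℓ.comp hρφ hm
  have e3 : DifferentiableOn ℂ (fun z => ℓ (φ z)) Ω := hℓ.comp h.φd hm2
  unfold dil
  exact e1.mul (((e2.const_add _).sub e3).const_mul _).cexp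

/-- The map `T_ρ`. -/
theorem Conf.T_deriv (h : Conf Ω φ ψ R) {ρ : ℝ} (h0 : 0 ≤ ρ) (h1 : ρ ≤ 1) {z : ℂ} (hz : z ∈ Ω) :
    HasDerivAt (fun z => ψ (ρ * φ z)) (deriv ψ (ρ * φ z) * (ρ * deriv φ z)) z := by
  have e1 : HasDerivAt ψ (deriv ψ (ρ * φ z)) (ρ * φ z) :=
    (h.ψdAt (norm_rho_lt h0 h1 (h.φm z hz))).hasDerivAt
  have e2 : HasDerivAt (fun z => (ρ : ℂ) * φ z) (ρ * deriv φ z) z :=
    (h.φdAt hz).hasDerivAt.const_mul _
  exact HasDerivAt.comp z e1 e2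

theorem Conf.T_mem (h : Conf Ω φ ψ R) {ρ : ℝ} (h0 : 0 ≤ ρ) (h1 : ρ ≤ 1) {z : ℂ} (hz : z ∈ Ω) :
    ψ (ρ * φ z) ∈ Ω := h.ψm _ (norm_rho_lt h0 h1 (h.φm z hz))

theorem Conf.T_inj (h : Conf Ω φ ψ R) {ρ : ℝ} (h0 : 0 < ρ) (h1 : ρ ≤ 1) :
    InjOn (fun z => ψ (ρ * φ z)) Ω := by
  intro z hz w hw hzw
  have e1 : (ρ : ℂ) * φ z = ρ * φ w := by
    rw [← h.right _ (norm_rho_lt h0.le h1 (h.φm z hz)), ← h.right _ (norm_rho_lt h0.le h1 (h.φm w hw))]
    exact congrArg φ hzw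
  have e2 : (ρ : ℂ) ≠ 0 := by exact_mod_cast h0.ne'
  have e3 := mul_left_cancel₀ e2 e1
  rw [← h.left z hz, ← h.left w hw, e3]

theorem Conf.dil_norm (h : Conf Ω φ ψ R) {ℓ : ℂ → ℂ}
    (hℓe : ∀ a : ℂ, ‖a‖ < 1 → Complex.exp (ℓ a) = deriv ψ a)
    {p : ℝ} (hp : 0 < p) (f : ℂ → ℂ) {ρ : ℝ} (h0 : 0 < ρ) (h1 : ρ ≤ 1) {z : ℂ} (hz : z ∈ Ω) :
    ‖dil φ ψ ℓ p f ρ z‖ₑ ^ p =
      ENNReal.ofReal |((ContinuousLinearMap.toSpanSingleton ℂ
        (deriv ψ (ρ * φ z) * (ρ * deriv φ z))).restrictScalars ℝ).det| *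
        ‖f (ψ (ρ * φ z))‖ₑ ^ p := by
  rw [det_mul]
  have hφz := h.φm z hz
  have hρφ := norm_rho_lt h0.le h1 hφz
  set E : ℂ := (Real.log ρ : ℝ) + ℓ (ρ * φ z) - ℓ (φ z) with hE
  have e1 : Complex.exp E = deriv ψ (ρ * φ z) * (ρ * deriv φ z) := by
    have e2 := h.deriv_mul hφz
    rw [h.left z hz] at e2
    have e3 := h.deriv_ne hφz
    have e4 : deriv φ z = (deriv ψ (φ z))⁻¹ := eq_inv_of_mul_eq_one_left e2
    rw [hE, Complex.exp_sub, Complex.exp_add, ← Complex.ofReal_exp, Real.exp_log h0, hℓe _ hρφ,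
      hℓe _ hφz, e4]
    field_simp
  have e5 : ‖Complex.exp ((2 / p : ℝ) * E)‖ₑ ^ p = ENNReal.ofReal (‖Complex.exp E‖ ^ 2) := by
    rw [← ofReal_norm, ENNReal.ofReal_rpow_of_nonneg (norm_nonneg _) hp.le]
    congr 1
    rw [Complex.norm_exp, Complex.norm_exp, ← Real.exp_mul, ← Real.exp_nat_mul]
    congr 1
    rw [Complex.re_ofReal_mul]
    push_cast
    field_simp
  rw [← e1, abs_of_nonneg (by positivity), ← e5]
  unfold dil
  rw [enorm_mul, ENNReal.mul_rpow_of_nonneg _ _ hp.le, mul_comm]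

/-- Dilations do not increase the norm. -/
theorem Conf.dil_lintegral (h : Conf Ω φ ψ R) (hW : IsW W) {ℓ : ℂ → ℂ}
    (hℓ : DifferentiableOn ℂ ℓ (ball 0 1))
    (hℓe : ∀ a : ℂ, ‖a‖ < 1 → Complex.exp (ℓ a) = deriv ψ a)
    {p : ℝ} (hp : 0 < p) {f : ℂ → ℂ} (hf : DifferentiableOn ℂ f Ω) {ρ : ℝ} (h0 : 0 < ρ)
    (h1 : ρ ≤ 1) {A A' : Set ℂ} (hA : MeasurableSet A) (hAΩ : A ⊆ Ω)
    (hAA' : ∀ z ∈ A, ψ (ρ * φ z) ∈ A') :
    ∫⁻ z in A, ‖dil φ ψ ℓ p f ρ z‖ₑ ^ p ∂(mu Ω φ W) ≤ ∫⁻ z in A', ‖f z‖ₑ ^ p ∂(mu Ω φ W) := by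
  set T : ℂ → ℂ := fun z => ψ (ρ * φ z) with hT
  have hfd : ∀ z ∈ A, HasFDerivWithinAt T ((ContinuousLinearMap.toSpanSingleton ℂ
      (deriv ψ (ρ * φ z) * (ρ * deriv φ z))).restrictScalars ℝ) A z := by
    intro z hz
    have := (h.T_deriv h0.le h1 (hAΩ hz)).hasFDerivAt.restrictScalars ℝ
    exact this.hasFDerivWithinAt
  have hinj : InjOn T A := (h.T_inj h0 h1).mono hAΩ
  have hTA : MeasurableSet (T '' A) := measurable_image_of_fderivWithin hA hfd hinj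
  have hTAΩ : T '' A ⊆ Ω := by
    rintro _ ⟨z, hz, rfl⟩
    exact h.T_mem h0.le h1 (hAΩ hz)
  have hm1 : AEMeasurable (fun z => ‖dil φ ψ ℓ p f ρ z‖ₑ ^ p) ((volume : Measure ℂ).restrict A) := by
    have e1 : AEMeasurable (dil φ ψ ℓ p f ρ) ((volume : Measure ℂ).restrict A) :=
      (((h.dil_diff hℓ p hf h0.le h1).continuousOn).mono hAΩ).aemeasurable hA
    exact e1.enorm.pow_const p
  have hm2 : AEMeasurable (fun z => ‖f z‖ₑ ^ p) ((volume : Measure ℂ).restrict (T '' A)) := by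
    have e1 : AEMeasurable f ((volume : Measure ℂ).restrict (T '' A)) :=
      (hf.continuousOn.mono hTAΩ).aemeasurable hTA
    exact e1.enorm.pow_const p
  rw [h.lintegral_mu hW hA hAΩ hm1]
  calc ∫⁻ z in A, dens φ W z * ‖dil φ ψ ℓ p f ρ z‖ₑ ^ p
      ≤ ∫⁻ z in A, ENNReal.ofReal |((ContinuousLinearMap.toSpanSingleton ℂ
        (deriv ψ (ρ * φ z) * (ρ * deriv φ z))).restrictScalars ℝ).det| *
        (dens φ W (T z) * ‖f (T z)‖ₑ ^ p) := by
        apply setLIntegral_mono' hA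
        intro z hz
        have hzΩ := hAΩ hz
        rw [h.dil_norm hℓe hp f h0 h1 hzΩ]
        have hdens : dens φ W z ≤ dens φ W (T z) := by
          unfold dens
          apply ENNReal.ofReal_le_ofReal
          have hTz : φ (T z) = ρ * φ z := h.right _ (norm_rho_lt h0.le h1 (h.φm z hzΩ))
          apply hW.mono (h.arg_mem hzΩ) (h.arg_mem (h.T_mem h0.le h1 hzΩ))
          rw [hTz, norm_mul, Complex.norm_real, Real.norm_of_nonneg h0.le]
          have := norm_nonneg (φ z)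
          nlinarith
        calc dens φ W z * (_ * ‖f (ψ (ρ * φ z))‖ₑ ^ p)
            ≤ dens φ W (T z) * (_ * ‖f (ψ (ρ * φ z))‖ₑ ^ p) := by gcongr
          _ = _ := by ring
    _ = ∫⁻ z in T '' A, dens φ W z * ‖f z‖ₑ ^ p := by
        rw [lintegral_image_eq_lintegral_abs_det_fderiv_mul volume hA hfd hinj]
    _ = ∫⁻ z in T '' A, ‖f z‖ₑ ^ p ∂(mu Ω φ W) := (h.lintegral_mu hW hTA hTAΩ hm2).symm
    _ ≤ ∫⁻ z in A', ‖f z‖ₑ ^ p ∂(mu Ω φ W) := by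
        apply lintegral_mono_set
        rintro _ ⟨z, hz, rfl⟩
        exact hAA' z hz

end

end Pool.Agent.H76Brennan
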