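import Pool.Agent.H76Brennan.Chain

set_option autoImplicit false
set_option linter.unusedSectionVars false
set_option linter.style.haveILetI false
open Complex Set Metric Filter Topology MeasureTheory
open scoped ENNReal NNReal

namespace Pool.Agent.H76Brennan

/-- Circle integrals commute with continuous linear maps. -/
theorem clm_circleIntegral {E F : Type*} [NormedAddCommGroup E] [NormedSpace ℂ E] [CompleteSpace E]
    [NormedAddCommGroup F] [NormedSpace ℂ F] [CompleteSpace F] (L : E →L[ℂ] F) {f : ℂ → E} {c : ℂ}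
    {r : ℝ} (hr : 0 ≤ r) (hf : ContinuousOn f (sphere c r)) :
    L (∮ a in C(c, r), f a) = ∮ a in C(c, r), L (f a) := by
  have hint : IntervalIntegrable (fun θ : ℝ => deriv (circleMap c r) θ • f (circleMap c r θ))
      volume 0 (2 * Real.pi) := (hf.circleIntegrable hr).out
  unfold circleIntegral
  have h1 := (L.restrictScalars ℝ).intervalIntegral_comp_comm hint
  have h2 : ∀ x : E, (L.restrictScalars ℝ) x = L x := fun _ => rfl
  simp only [h2] at h1
  rw [← h1]
  simp only [map_smul]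

section
variable {Ω : Set ℂ} {φ ψ : ℂ → ℂ} {R : ℝ}

/-- The Cauchy formula on `K_t` transported by `ψ`. -/
theorem Conf.cauchy (h : Conf Ω φ ψ R) {f : ℂ → ℂ} (hf : DifferentiableOn ℂ f Ω) {r : ℝ}
    (hr1 : r < 1) {b : ℂ} (hb : ‖b‖ < r) :
    ∮ a in C(0, r), (f (ψ a) * deriv ψ a) * (ψ b - ψ a)⁻¹ = -(2 * Real.pi * I) * f (ψ b) := by
  have hr0 : 0 < r := (norm_nonneg b).trans_lt hb
  have hb1 : ‖b‖ < 1 := hb.trans hr1
  have hbU : ball (0 : ℂ) 1 ∈ 𝓝 b := isOpen_ball.mem_nhds (by simpa using hb1)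
  have hds : DifferentiableOn ℂ (dslope ψ b) (ball 0 1) :=
    (Complex.differentiableOn_dslope hbU).2 h.ψd
  have hne : ∀ a ∈ ball (0 : ℂ) 1, dslope ψ b a ≠ 0 := by
    intro a ha
    have ha1 : ‖a‖ < 1 := by simpa using ha
    by_cases hab : a = b
    · rw [hab, dslope_same]
      exact h.deriv_ne hb1
    · rw [dslope_of_ne _ hab, slope_def_field]
      apply div_ne_zero
      · rw [sub_ne_zero]
        intro h0
        apply hab
        rw [← h.right a ha1, ← h.right b hb1, h0]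
      · exact sub_ne_zero.2 hab
  set G : ℂ → ℂ := fun a => f (ψ a) * deriv ψ a / dslope ψ b a with hG
  have hfψ : DifferentiableOn ℂ (fun a => f (ψ a)) (ball 0 1) :=
    hf.comp h.ψd (fun a ha => h.ψm a (by simpa using ha))
  have hGd : DifferentiableOn ℂ G (ball 0 1) :=
    (hfψ.mul (h.ψd.deriv isOpen_ball)).div hds hne
  have hcl : closedBall (0 : ℂ) r ⊆ ball 0 1 := closedBall_subset_ball hr1
  have hGc : DiffContOnCl ℂ G (ball 0 r) := by
    apply DifferentiableOn.diffContOnCl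
    rw [closure_ball _ hr0.ne']
    exact hGd.mono hcl
  have hC := hGc.circleIntegral_sub_inv_smul (w := b) (by simpa using hb)
  have hGb : G b = f (ψ b) := by
    simp only [hG]
    rw [dslope_same]
    have := h.deriv_ne hb1
    field_simp
  rw [hGb] at hC
  have hcongr : ∮ a in C(0, r), (f (ψ a) * deriv ψ a) * (ψ b - ψ a)⁻¹ =
      ∮ a in C(0, r), (-1 : ℂ) • ((a - b)⁻¹ • G a) := by
    apply circleIntegral.integral_congr hr0.le
    intro a ha
    have han : ‖a‖ = r := by simpa using ha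
    have hab : a ≠ b := by
      rintro rfl
      exact absurd han hb.ne
    have ha1 : ‖a‖ < 1 := by rw [han]; exact hr1
    have hψne : ψ a - ψ b ≠ 0 := by
      rw [sub_ne_zero]
      intro h0
      apply hab
      rw [← h.right a ha1, ← h.right b hb1, h0]
    have hab' : a - b ≠ 0 := sub_ne_zero.2 hab
    have hψne' : ψ b - ψ a ≠ 0 := by
      intro h0
      apply hψne
      rw [← neg_sub, h0, neg_zero]
    simp only [hG, smul_eq_mul]
    rw [dslope_of_ne _ hab, slope_def_field, ← neg_sub (ψ a) (ψ b), inv_neg]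
    field_simp
  rw [hcongr, circleIntegral.integral_smul, hC]
  simp only [smul_eq_mul]
  ring

variable {μ : Measure ℂ} [IsFiniteMeasure μ] {q : ℝ≥0∞} [Fact (1 ≤ q)]

/-- `Λ(1_{K_t} f)` is controlled by the values of `F_t` on the circle. -/
theorem Conf.val_indicator (h : Conf Ω φ ψ R) (Λ : Lp ℂ q μ →L[ℂ] ℂ) {f : ℂ → ℂ}
    (hf : DifferentiableOn ℂ f Ω) {t : ℝ} (ht : 0 < t) {B₁ B₂ : ℝ} (hB₁ : 0 ≤ B₁)
    (hg : ∀ a : ℂ, ‖a‖ = Real.exp (-(t / 2)) → ‖f (ψ a) * deriv ψ a‖ ≤ B₁)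
    (hF : ∀ a : ℂ, ‖a‖ = Real.exp (-(t / 2)) → ‖FK Λ (Kt Ω φ t) (ψ a)‖ ≤ B₂) :
    ‖val Λ ((Kt Ω φ t).indicator f)‖ ≤ B₁ * B₂ := by
  set K := Kt Ω φ t with hK
  have hKc : IsCompact K := h.Kt_compact ht
  haveI := isCompact_iff_compactSpace.1 hKc
  set r : ℝ := Real.exp (-(t / 2)) with hr
  have hr0 : 0 < r := Real.exp_pos _
  have hr1 : r < 1 := by rw [hr, Real.exp_lt_one_iff]; linarith
  have hrt : Real.exp (-t) < r := Real.exp_lt_exp.2 (by linarith)
  have hfK : ContinuousOn f K := hf.continuousOn.mono (Kt_subset t)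
  set g : C(K, ℂ) := ⟨K.domRestrict f, continuousOn_iff_continuous_domRestrict.1 hfK⟩ with hgdef
  have hext : ext0 g = K.indicator f := by
    funext z
    by_cases hz : z ∈ K
    · rw [ext0_mem _ hz, indicator_of_mem hz]; rfl
    · rw [ext0_notMem _ hz, indicator_of_notMem hz]
  have hoff : ∀ a : ℂ, ‖a‖ = r → ψ a ∉ K := by
    intro a ha
    rw [hK, h.mem_Kt (by rw [ha]; exact hr1), ha, not_le]
    exact hrt
  -- the vector valued integrand
  set κ : ℂ → C(K, ℂ) := fun a => (f (ψ a) * deriv ψ a) •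
    Ring.inverse (incl K - algebraMap ℂ C(K, ℂ) (ψ a)) with hκ
  have hκc : ContinuousOn κ (sphere 0 r) := by
    intro a ha
    have han : ‖a‖ = r := by simpa using ha
    have ha1 : ‖a‖ < 1 := by rw [han]; exact hr1
    have hU : ball (0 : ℂ) 1 ∈ 𝓝 a := isOpen_ball.mem_nhds (by simpa using ha1)
    have e1 : ContinuousAt (fun a => f (ψ a) * deriv ψ a) a := by
      apply ContinuousAt.mul
      · exact ContinuousAt.comp (hf.differentiableAt (h.isOpen.mem_nhds (h.ψm a ha1))).continuousAt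
          (h.ψdAt ha1).continuousAt
      · exact ((h.ψd.deriv isOpen_ball).differentiableAt hU).continuousAt
    have e2 : ContinuousAt (fun a => Ring.inverse (incl K - algebraMap ℂ C(K, ℂ) (ψ a))) a := by
      have e3 : ContinuousAt (Ring.inverse : C(K, ℂ) → C(K, ℂ))
          (incl K - algebraMap ℂ C(K, ℂ) (ψ a)) :=
        (differentiableAt_inverse (𝕜 := ℂ) (isUnit_incl_sub (hoff a han))).continuousAt
      have e4 : ContinuousAt (fun a => incl K - algebraMap ℂ C(K, ℂ) (ψ a)) a := by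
        apply ContinuousAt.sub continuousAt_const
        exact ContinuousAt.comp (continuous_algebraMap ℂ C(K, ℂ)).continuousAt
          (h.ψdAt ha1).continuousAt
      exact ContinuousAt.comp (f := fun a => incl K - algebraMap ℂ C(K, ℂ) (ψ a)) e3 e4
    exact (e1.smul e2).continuousWithinAt
  -- the integral represents f
  have hrep : ∮ a in C(0, r), κ a = (-(2 * Real.pi * I)) • g := by
    ext z
    obtain ⟨b, hb, hbz⟩ : ∃ b : ℂ, ‖b‖ ≤ Real.exp (-t) ∧ ψ b = z := by
      have hz : (z : ℂ) ∈ ψ '' closedBall 0 (Real.exp (-t)) := by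
        have := z.2
        rwa [← h.Kt_eq ht]
      obtain ⟨b, hb, hbz⟩ := hz
      exact ⟨b, by simpa using hb, hbz⟩
    have h1 : (∮ a in C(0, r), κ a) z = ∮ a in C(0, r), (κ a) z := by
      have := clm_circleIntegral (ContinuousMap.evalCLM ℂ z : C(K, ℂ) →L[ℂ] ℂ) hr0.le hκc
      exact this
    rw [h1]
    have h2 : ∮ a in C(0, r), (κ a) z =
        ∮ a in C(0, r), (f (ψ a) * deriv ψ a) * (ψ b - ψ a)⁻¹ := by
      apply circleIntegral.integral_congr hr0.le
      intro a ha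
      have han : ‖a‖ = r := by simpa using ha
      show (f (ψ a) * deriv ψ a) * (Ring.inverse (incl K - algebraMap ℂ C(K, ℂ) (ψ a))) z = _
      rw [inverse_apply (hoff a han), hbz]
    rw [h2, h.cauchy hf hr1 (hb.trans_lt hrt), hbz]
    rfl
  -- apply the functional
  have hfun : (-(2 * Real.pi * I)) * val Λ (K.indicator f) =
      ∮ a in C(0, r), (f (ψ a) * deriv ψ a) * FK Λ K (ψ a) := by
    rw [← hext, ← valK_apply, ← smul_eq_mul, ← map_smul, ← hrep, clm_circleIntegral _ hr0.le hκc]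
    apply circleIntegral.integral_congr hr0.le
    intro a ha
    have han : ‖a‖ = r := by simpa using ha
    simp only [hκ]
    rw [map_smul, smul_eq_mul, FK_eq Λ K (hoff a han)]
  have hnorm : ‖∮ a in C(0, r), (f (ψ a) * deriv ψ a) * FK Λ K (ψ a)‖ ≤
      2 * Real.pi * r * (B₁ * B₂) := by
    apply circleIntegral.norm_integral_le_of_norm_le_const hr0.le
    intro a ha
    have han : ‖a‖ = r := by simpa using ha
    rw [norm_mul]
    exact mul_le_mul (hg a han) (hF a han) (norm_nonneg _) hB₁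
  rw [← hfun, norm_mul, norm_neg, norm_mul, norm_mul, Complex.norm_I, mul_one,
    Complex.norm_ofNat, Complex.norm_real, Real.norm_of_nonneg Real.pi_pos.le] at hnorm
  have hπ := Real.pi_pos
  have hB₂ : 0 ≤ B₂ := (norm_nonneg _).trans (hF (r : ℂ) (by simp [hr0.le]))
  have h3 : 2 * Real.pi * ‖val Λ (K.indicator f)‖ ≤ 2 * Real.pi * (B₁ * B₂) := by
    refine hnorm.trans ?_
    have : 2 * Real.pi * r * (B₁ * B₂) ≤ 2 * Real.pi * 1 * (B₁ * B₂) := by gcongr
    linarith
  exact le_of_mul_le_mul_left h3 (by positivity)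

/-- The functional vanishes on analytic functions of moderate growth. -/
theorem Conf.val_zero (h : Conf Ω φ ψ R) (Λ : Lp ℂ q μ →L[ℂ] ℂ) {p : ℝ}
    (hq : q = ENNReal.ofReal p) (hp1 : 1 ≤ p) (hp4 : p ≤ 4) (hμΩ : ∀ᵐ z ∂μ, z ∈ Ω)
    (hΛ : ∀ n : ℕ, val Λ (fun z => z ^ n) = 0) (hh : ℕ → ℝ) (k₀ : ℕ)
    (hh1 : ∀ k, k₀ ≤ k → 1 ≤ hh k)
    (hμ : ∀ k, k₀ ≤ k → μ.restrict (Ω \ Kt Ω φ (tk k)) ≤
      ENNReal.ofReal (Real.exp (-(hh k))) • (volume : Measure ℂ))
    (hdiv : ¬ Summable (fun k => tk k * Real.log (hh k)))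
    {f : ℂ → ℂ} (hf : DifferentiableOn ℂ f Ω) (hfL : MemLp f q μ) {Cf : ℝ} (hCf : 0 ≤ Cf)
    (hgr : ∀ a : ℂ, ‖a‖ < 1 → ‖f (ψ a) * deriv ψ a‖ ≤ Real.exp (Cf / (1 - ‖a‖))) :
    val Λ f = 0 := by
  obtain ⟨c, hc, hchain⟩ := h.chain Λ hq hp1 hp4 hμΩ hΛ hh k₀ hh1 hμ hdiv
  set V : ℝ := (volume (ball (0 : ℂ) R)).toReal with hV
  have hV0 : 0 ≤ V := ENNReal.toReal_nonneg
  have hqt : q ≠ ∞ := by rw [hq]; exact ENNReal.ofReal_ne_top
  by_contra hne
  have hpos : 0 < ‖val Λ f‖ := norm_pos_iff.2 hne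
  set ε : ℝ := ‖val Λ f‖ / (2 * (‖Λ‖ + 1)) with hε
  have hε0 : 0 < ε := by positivity
  obtain ⟨δ, hδ, hδs⟩ := hfL.eLpNorm_indicator_le (Fact.out : 1 ≤ q) hqt hε0
  -- choose the scale
  have htend : Tendsto (fun l : ℕ => (1 / tk l)) atTop atTop := by
    simp only [inv_tk]
    exact tendsto_pow_atTop_atTop_of_one_lt (by norm_num)
  set X : ℝ := 1 + V / δ + 4 * (4 * Cf + ‖Λ‖ + 1 / ‖val Λ f‖ * 4 + 1) / c with hX
  obtain ⟨l₀, hl₀⟩ := (tendsto_atTop.1 htend X).exists
  obtain ⟨l, hl1, hl2, hl3⟩ := hchain 4 (max l₀ k₀)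
  have hll₀ : l₀ ≤ l := le_trans (le_max_left _ _) hl1
  have hlk₀ : k₀ ≤ l := le_trans (le_max_right _ _) hl1
  set t := tk l with ht
  have ht0 : 0 < t := tk_pos l
  have ht1 : t ≤ 1 := tk_le_one l
  have hXt : X ≤ 1 / t := by
    refine hl₀.trans ?_
    exact one_div_le_one_div_of_le ht0 (tk_anti hll₀)
  have hit1 : 1 ≤ 1 / t := by rw [le_div_iff₀ ht0]; linarith
  set u : ℝ := 1 / t with hu
  have hu0 : 0 < u := by linarith
  -- splitting
  set K := Kt Ω φ t with hK
  have hKc : IsCompact K := h.Kt_compact ht0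
  have hKm : MeasurableSet K := hKc.measurableSet
  have hsplit : val Λ f = val Λ (K.indicator f) + val Λ (Kᶜ.indicator f) := by
    rw [← val_add Λ (hfL.indicator hKm) (hfL.indicator hKm.compl)]
    congr 1
    funext z
    exact (congrFun (indicator_self_add_compl K f) z).symm
  -- tail
  have hμK : μ Kᶜ ≤ ENNReal.ofReal δ := by
    have e1 : μ Kᶜ = μ (Ω \ K) := by
      apply measure_congr
      filter_upwards [hμΩ] with z hz
      apply propext
      constructor
      · intro h1; exact ⟨hz, h1⟩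
      · intro h1; exact h1.2
    have e2 : μ (Ω \ K) ≤ (μ.restrict (Ω \ K)) Ω := by
      rw [Measure.restrict_apply h.isOpen.measurableSet, inter_eq_right.2 sdiff_subset]
    rw [e1]
    refine e2.trans ((Measure.le_iff'.1 (hμ l hlk₀) Ω).trans ?_)
    rw [Measure.smul_apply, smul_eq_mul]
    have e3 : volume Ω ≤ ENNReal.ofReal V := by
      rw [hV, ENNReal.ofReal_toReal measure_ball_lt_top.ne]
      apply measure_mono
      intro z hz
      simpa using h.bdd z hz
    calc ENNReal.ofReal (Real.exp (-(hh l))) * volume Ω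
        ≤ ENNReal.ofReal (Real.exp (-(hh l))) * ENNReal.ofReal V := by gcongr
      _ = ENNReal.ofReal (Real.exp (-(hh l)) * V) := by
          rw [← ENNReal.ofReal_mul (Real.exp_pos _).le]
      _ ≤ ENNReal.ofReal δ := by
          apply ENNReal.ofReal_le_ofReal
          have e4 : V / δ ≤ hh l := by
            have e5 : V / δ ≤ u := by
              refine le_trans ?_ hXt
              rw [hX]
              have : 0 ≤ 4 * (4 * Cf + ‖Λ‖ + 1 / ‖val Λ f‖ * 4 + 1) / c := by positivity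
              linarith
            have e6 : u ≤ u ^ 4 := by
              calc u = u ^ 1 := (pow_one u).symm
                _ ≤ u ^ 4 := pow_le_pow_right₀ hit1 (by norm_num)
            exact e5.trans (e6.trans hl2)
          have e7 : V ≤ hh l * δ := by rwa [div_le_iff₀ hδ] at e4
          have e8 : hh l ≤ Real.exp (hh l) := by
            have := Real.add_one_le_exp (hh l)
            linarith
          have e9 : Real.exp (-(hh l)) * Real.exp (hh l) = 1 := by
            rw [← Real.exp_add]; simp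
          calc Real.exp (-(hh l)) * V ≤ Real.exp (-(hh l)) * (Real.exp (hh l) * δ) := by
                gcongr
                exact e7.trans (by gcongr)
            _ = (Real.exp (-(hh l)) * Real.exp (hh l)) * δ := by ring
            _ = δ := by rw [e9, one_mul]
  have htail : ‖val Λ (Kᶜ.indicator f)‖ ≤ ‖Λ‖ * ε :=
    norm_val_le_of_le Λ hε0.le (hδs _ hKm.compl hμK)
  -- main part
  have hmain : ‖val Λ (K.indicator f)‖ ≤ Real.exp (4 * Cf * u) * Real.exp (-(c * t ^ 2 * hh l)) := by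
    apply h.val_indicator Λ hf ht0 (Real.exp_pos _).le
    · intro a ha
      have ha1 : ‖a‖ < 1 := by rw [ha, Real.exp_lt_one_iff]; linarith
      refine (hgr a ha1).trans (Real.exp_le_exp.2 ?_)
      have h1 := one_sub_exp_ge (τ := t / 2) (by linarith) (by linarith)
      rw [← ha] at h1
      calc Cf / (1 - ‖a‖) ≤ Cf / (t / 4) := by
            gcongr
            linarith
        _ = 4 * Cf * u := by rw [hu]; field_simp
    · intro a ha
      have ha0 : a ≠ 0 := by
        rw [← norm_pos_iff, ha]; exact Real.exp_pos _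
      have h1 := hl3 (Complex.arg a)
      have h2 : Complex.exp (((-(t / 2) : ℝ) : ℂ) + (Complex.arg a : ℂ) * I) = a := by
        rw [Complex.exp_add, ← Complex.ofReal_exp, ← ha]
        exact Complex.norm_mul_exp_arg_mul_I a
      unfold ft at h1
      rw [h2] at h1
      exact h1
  have hexpo : 4 * Cf * u - c * t ^ 2 * hh l ≤ -(1 / ‖val Λ f‖ * 4) := by
    have e1 : c * u ^ 2 ≤ c * t ^ 2 * hh l := by
      have e2 : c * t ^ 2 * u ^ 4 ≤ c * t ^ 2 * hh l := by gcongr
      have e3 : c * t ^ 2 * u ^ 4 = c * u ^ 2 := by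
        rw [hu]; field_simp
      linarith
    have e4 : 4 * (4 * Cf + ‖Λ‖ + 1 / ‖val Λ f‖ * 4 + 1) / c ≤ u := by
      refine le_trans ?_ hXt
      rw [hX]
      have : 0 ≤ V / δ := by positivity
      linarith
    have e5 : 4 * (4 * Cf + ‖Λ‖ + 1 / ‖val Λ f‖ * 4 + 1) ≤ u * c := by
      rwa [div_le_iff₀ hc] at e4
    have e6 : (4 * (4 * Cf + ‖Λ‖ + 1 / ‖val Λ f‖ * 4 + 1)) * u ≤ u * c * u := by gcongr
    have e7 : 0 ≤ ‖Λ‖ := norm_nonneg _
    have e8 : 0 ≤ 1 / ‖val Λ f‖ * 4 := by positivity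
    have e9 : 0 ≤ Cf * u := by positivity
    have e10 : 0 ≤ ‖Λ‖ * u := by positivity
    have e11 : 1 / ‖val Λ f‖ * 4 ≤ (1 / ‖val Λ f‖ * 4) * u := by nlinarith
    nlinarith
  have hmain2 : ‖val Λ (K.indicator f)‖ ≤ ‖val Λ f‖ / 4 := by
    refine hmain.trans ?_
    rw [← Real.exp_add]
    have e1 : 4 * Cf * u + -(c * t ^ 2 * hh l) ≤ -(1 / (‖val Λ f‖ / 4)) := by
      have : 1 / (‖val Λ f‖ / 4) = 1 / ‖val Λ f‖ * 4 := by field_simp
      rw [this]
      linarith
    refine (Real.exp_le_exp.2 e1).trans (exp_neg_inv_le (by positivity))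
  have hfin : ‖val Λ f‖ ≤ ‖val Λ f‖ / 4 + ‖Λ‖ * ε := by
    calc ‖val Λ f‖ = ‖val Λ (K.indicator f) + val Λ (Kᶜ.indicator f)‖ := by rw [← hsplit]
      _ ≤ _ := (norm_add_le _ _).trans (add_le_add hmain2 htail)
  have hΛε : ‖Λ‖ * ε ≤ ‖val Λ f‖ / 2 := by
    rw [hε]
    calc ‖Λ‖ * (‖val Λ f‖ / (2 * (‖Λ‖ + 1))) ≤ (‖Λ‖ + 1) * (‖val Λ f‖ / (2 * (‖Λ‖ + 1))) := by
          gcongr
          linarith
      _ = ‖val Λ f‖ / 2 := by field_simp
  linarith

end

end Pool.Agent.H76Brennan
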