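import Mathlib

set_option autoImplicit false
open Complex Set Metric Finset

namespace Pool.Agent.H76Brennan

/-- Dividing out zeros. -/
theorem zeros_bound {x : ℂ} {R D : ℝ} (hDR : D < R) (hR : 0 < R) {U : Set ℂ} (hU : IsOpen U)
    (hsub : closedBall x R ⊆ U) (S : Finset ℂ) :
    ∀ (g : ℂ → ℂ) (M : ℝ), DifferentiableOn ℂ g U → (∀ y ∈ S, g y = 0) →
      (∀ y ∈ S, ‖y - x‖ ≤ D) → (∀ z : ℂ, ‖z - x‖ = R → ‖g z‖ ≤ M) →
      ∀ z : ℂ, ‖z - x‖ ≤ R → ‖g z‖ ≤ M * ∏ y ∈ S, (‖z - y‖ / (R - D)) := by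
  classical
  induction S using Finset.induction_on with
  | empty =>
    intro g M hg _ _ hM z hz
    simp only [Finset.prod_empty, mul_one]
    have hdc : DiffContOnCl ℂ g (ball x R) := by
      have hcl : closure (ball x R) ⊆ U := closure_ball_subset_closedBall.trans hsub
      exact (hg.mono hcl).diffContOnCl
    refine Complex.norm_le_of_forall_mem_frontier_norm_le isBounded_ball hdc ?_ ?_
    · intro w hw
      have := frontier_ball_subset_sphere hw
      exact hM w (by simpa [dist_eq_norm] using this)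
    · rw [closure_ball x hR.ne']
      simpa [dist_eq_norm] using hz
  | insert y S hyS ih =>
    intro g M hg hz0 hD hM z hz
    have hyU : U ∈ nhds y := by
      apply hU.mem_nhds
      apply hsub
      rw [mem_closedBall, dist_eq_norm]
      exact (hD y (Finset.mem_insert_self _ _)).trans hDR.le
    have hgy : g y = 0 := hz0 y (Finset.mem_insert_self _ _)
    have hg1 : DifferentiableOn ℂ (dslope g y) U := (Complex.differentiableOn_dslope hyU).2 hg
    have hfac : ∀ w : ℂ, g w = (w - y) * dslope g y w := by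
      intro w
      have := sub_smul_dslope g y w
      rw [hgy, sub_zero] at this
      rw [← this]
      simp [smul_eq_mul]
    have hRD : 0 < R - D := by linarith
    have hyD := hD y (Finset.mem_insert_self _ _)
    have h1 := ih (dslope g y) (M / (R - D)) hg1 ?_ ?_ ?_ z hz
    · rw [Finset.prod_insert hyS, hfac z, norm_mul]
      calc ‖z - y‖ * ‖dslope g y z‖
          ≤ ‖z - y‖ * (M / (R - D) * ∏ y ∈ S, (‖z - y‖ / (R - D))) := by gcongr
        _ = M * (‖z - y‖ / (R - D) * ∏ y ∈ S, (‖z - y‖ / (R - D))) := by ring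
    · intro w hw
      have hne : w ≠ y := fun h => hyS (h ▸ hw)
      have h2 := hfac w
      rw [hz0 w (Finset.mem_insert_of_mem hw)] at h2
      rcases mul_eq_zero.1 h2.symm with h3 | h3
      · exact absurd (sub_eq_zero.1 h3) hne
      · exact h3
    · intro w hw
      exact hD w (Finset.mem_insert_of_mem hw)
    · intro w hw
      have h2 : R - D ≤ ‖w - y‖ := by
        have : ‖w - x‖ ≤ ‖w - y‖ + ‖y - x‖ := by
          calc ‖w - x‖ = ‖(w - y) + (y - x)‖ := by congr 1; ring
            _ ≤ _ := norm_add_le _ _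
        linarith
      have h3 : ‖g w‖ = ‖w - y‖ * ‖dslope g y w‖ := by rw [hfac w, norm_mul]
      rw [le_div_iff₀ hRD]
      calc ‖dslope g y w‖ * (R - D) ≤ ‖dslope g y w‖ * ‖w - y‖ := by gcongr
        _ = ‖g w‖ := by rw [h3]; ring
        _ ≤ M := hM w hw

theorem prod_erase_abs (n k : ℕ) (hk : k < n) :
    ∏ l ∈ (Finset.range n).erase k, |(k : ℝ) - l| = (k.factorial : ℝ) * (n - 1 - k).factorial := by
  have hsplit : (Finset.range n).erase k = Finset.range k ∪ Finset.Ico (k + 1) n := by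
    ext l
    simp only [Finset.mem_erase, Finset.mem_range, Finset.mem_union, Finset.mem_Ico]
    omega
  have hdisj : Disjoint (Finset.range k) (Finset.Ico (k + 1) n) := by
    rw [Finset.disjoint_left]
    intro l h1 h2
    simp only [Finset.mem_range, Finset.mem_Ico] at h1 h2
    omega
  rw [hsplit, Finset.prod_union hdisj]
  congr 1
  · rw [← Finset.prod_range_add_one_eq_factorial, Nat.cast_prod, ← Finset.prod_range_reflect]
    apply Finset.prod_congr rfl
    intro j hj
    have hj' := Finset.mem_range.1 hj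
    rw [Nat.cast_sub (by omega), Nat.cast_sub (by omega)]
    push_cast
    have : (j : ℝ) + 1 ≤ k := by exact_mod_cast hj'
    rw [show (k : ℝ) - ((k : ℝ) - 1 - j) = j + 1 by ring, abs_of_nonneg (by positivity)]
  · rw [← Finset.prod_range_add_one_eq_factorial, Nat.cast_prod, Finset.prod_Ico_eq_prod_range]
    rw [show n - (k + 1) = n - 1 - k by omega]
    apply Finset.prod_congr rfl
    intro j _
    push_cast
    rw [show (k : ℝ) - ((k : ℝ) + 1 + j) = -(j + 1) by ring, abs_neg,
      abs_of_nonneg (by positivity)]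

theorem sum_inv_fact (n : ℕ) (hn : 1 ≤ n) :
    ∑ k ∈ Finset.range n, (1 : ℝ) / ((k.factorial : ℝ) * (n - 1 - k).factorial) =
      2 ^ (n - 1) / (n - 1).factorial := by
  obtain ⟨m, rfl⟩ : ∃ m, n = m + 1 := ⟨n - 1, by omega⟩
  simp only [Nat.add_sub_cancel]
  have h1 : ∀ k ∈ Finset.range (m + 1), (1 : ℝ) / ((k.factorial : ℝ) * (m - k).factorial) =
      (m.choose k : ℝ) / m.factorial := by
    intro k hk
    have hk' : k ≤ m := by have := Finset.mem_range.1 hk; omega
    have := Nat.choose_mul_factorial_mul_factorial hk'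
    have h2 : (m.choose k : ℝ) * k.factorial * (m - k).factorial = m.factorial := by
      exact_mod_cast this
    rw [div_eq_div_iff (by positivity) (by positivity), ← h2]
    ring
  rw [Finset.sum_congr rfl h1, ← Finset.sum_div]
  congr 1
  have := Nat.sum_range_choose m
  exact_mod_cast this

/-- The size of the Lagrange interpolant. -/
theorem lagrange_bound {n : ℕ} (hn : 1 ≤ n) {D ρ ε : ℝ} (hD : 0 < D) (hρ : 0 ≤ ρ) (v : ℕ → ℂ)
    (y : ℕ → ℂ) (hsep : ∀ k < n, ∀ l < n, |(k : ℝ) - l| * (D / n) ≤ ‖y k - y l‖)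
    (hε : ∀ k < n, ‖v k‖ ≤ ε) (z : ℂ) (hz : ∀ k < n, ‖z - y k‖ ≤ ρ) :
    ‖∑ k ∈ Finset.range n, v k * ∏ l ∈ (Finset.range n).erase k, ((z - y l) / (y k - y l))‖ ≤
      ε * (2 * ρ / D) ^ (n - 1) * Real.exp n := by
  have hn0 : (0 : ℝ) < n := by exact_mod_cast (by omega : 0 < n)
  have hε0 : 0 ≤ ε := (norm_nonneg _).trans (hε 0 (by omega))
  have h1 : ∀ k ∈ Finset.range n,
      ‖v k * ∏ l ∈ (Finset.range n).erase k, ((z - y l) / (y k - y l))‖ ≤
      ε * (ρ * (n / D)) ^ (n - 1) * (1 / ((k.factorial : ℝ) * (n - 1 - k).factorial)) := by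
    intro k hk
    have hk' := Finset.mem_range.1 hk
    rw [norm_mul, norm_prod]
    have h2 : ∏ l ∈ (Finset.range n).erase k, ‖(z - y l) / (y k - y l)‖ ≤
        ∏ l ∈ (Finset.range n).erase k, ((ρ * (n / D)) / |(k : ℝ) - l|) := by
      apply Finset.prod_le_prod
      · intros; positivity
      · intro l hl
        have hl1 : l ≠ k := (Finset.mem_erase.1 hl).1
        have hl2 : l < n := Finset.mem_range.1 (Finset.mem_erase.1 hl).2
        have hkl : 0 < |(k : ℝ) - l| := by
          rw [abs_pos, sub_ne_zero]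
          exact_mod_cast hl1.symm
        have h3 := hsep k hk' l hl2
        have h4 : 0 < |(k : ℝ) - l| * (D / n) := by positivity
        rw [norm_div]
        calc ‖z - y l‖ / ‖y k - y l‖ ≤ ρ / (|(k : ℝ) - l| * (D / n)) := by
              gcongr
              exact hz l hl2
          _ = (ρ * (n / D)) / |(k : ℝ) - l| := by
              field_simp
    have hcard : ((Finset.range n).erase k).card = n - 1 := by
      rw [Finset.card_erase_of_mem hk, Finset.card_range]
    have h3 : ∏ l ∈ (Finset.range n).erase k, ((ρ * (n / D)) / |(k : ℝ) - l|) =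
        (ρ * (n / D)) ^ (n - 1) * (1 / ((k.factorial : ℝ) * (n - 1 - k).factorial)) := by
      rw [Finset.prod_div_distrib, Finset.prod_const, hcard, prod_erase_abs n k hk']
      ring
    rw [h3] at h2
    have h5 : 0 ≤ ∏ l ∈ (Finset.range n).erase k, ‖(z - y l) / (y k - y l)‖ :=
      Finset.prod_nonneg (fun _ _ => norm_nonneg _)
    calc ‖v k‖ * ∏ l ∈ (Finset.range n).erase k, ‖(z - y l) / (y k - y l)‖
        ≤ ε * ((ρ * (n / D)) ^ (n - 1) * (1 / ((k.factorial : ℝ) * (n - 1 - k).factorial))) := by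
          apply mul_le_mul (hε k hk') h2 h5 hε0
      _ = _ := by ring
  have h6 : (n : ℝ) ^ (n - 1) / (n - 1).factorial ≤ Real.exp n := by
    have := Real.pow_div_factorial_le_exp (n : ℝ) hn0.le n
    have h7 : (n : ℝ) ^ (n - 1) / (n - 1).factorial = (n : ℝ) ^ n / n.factorial := by
      obtain ⟨m, rfl⟩ : ∃ m, n = m + 1 := ⟨n - 1, by omega⟩
      simp only [Nat.add_sub_cancel]
      rw [Nat.factorial_succ, pow_succ]
      push_cast
      field_simp
    rw [h7]; exact this
  calc ‖∑ k ∈ Finset.range n, v k * ∏ l ∈ (Finset.range n).erase k, ((z - y l) / (y k - y l))‖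
      ≤ ∑ k ∈ Finset.range n,
        ε * (ρ * (n / D)) ^ (n - 1) * (1 / ((k.factorial : ℝ) * (n - 1 - k).factorial)) :=
        (norm_sum_le _ _).trans (Finset.sum_le_sum h1)
    _ = ε * (2 * ρ / D) ^ (n - 1) * ((n : ℝ) ^ (n - 1) / (n - 1).factorial) := by
        rw [← Finset.mul_sum, sum_inv_fact n hn]
        rw [show 2 * ρ / D = (ρ * (1 / D)) * 2 by ring, show ρ * ((n : ℝ) / D) =
          (ρ * (1 / D)) * n by ring, mul_pow, mul_pow (ρ * (1 / D)) 2]
        ring
    _ ≤ ε * (2 * ρ / D) ^ (n - 1) * Real.exp n := by gcongr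

/-- The interpolation lemma. -/
theorem interp_bound {f : ℂ → ℂ} {x : ℂ} {D M ε : ℝ} {n : ℕ} (hn : 1 ≤ n) (hD : 0 < D)
    {U : Set ℂ} (hU : IsOpen U) (hsub : closedBall x (16 * D) ⊆ U) (hf : DifferentiableOn ℂ f U)
    (hM : ∀ z ∈ closedBall x (16 * D), ‖f z‖ ≤ M) (y : ℕ → ℂ) (hy : ∀ k < n, ‖y k - x‖ ≤ D)
    (hsep : ∀ k < n, ∀ l < n, |(k : ℝ) - l| * (D / n) ≤ ‖y k - y l‖)
    (hε : ∀ k < n, ‖f (y k)‖ ≤ ε) (z : ℂ) (hz : ‖z - x‖ ≤ D) :
    ‖f z‖ ≤ M * (2 / 15) ^ n + 2 * ε * 13 ^ n := by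
  have hn0 : (0 : ℝ) < n := by exact_mod_cast (by omega : 0 < n)
  have hε0 : 0 ≤ ε := (norm_nonneg _).trans (hε 0 (by omega))
  have hM0 : 0 ≤ M := (norm_nonneg _).trans (hM x (by simp; positivity))
  set L : ℂ → ℂ := fun z => ∑ k ∈ Finset.range n, f (y k) *
    ∏ l ∈ (Finset.range n).erase k, ((z - y l) / (y k - y l)) with hL
  have hexp : Real.exp n ≤ (68 / 25 : ℝ) ^ n := by
    have h1 : Real.exp 1 ≤ 68 / 25 := by
      have := Real.exp_one_lt_d9
      linarith
    calc Real.exp n = Real.exp 1 ^ n := by rw [← Real.exp_nat_mul]; simp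
      _ ≤ (68 / 25 : ℝ) ^ n := by gcongr
  have hyne : ∀ k < n, ∀ l < n, k ≠ l → y k ≠ y l := by
    intro k hk l hl hkl h
    have h1 := hsep k hk l hl
    rw [h, sub_self, norm_zero] at h1
    have h2 : 0 < |(k : ℝ) - l| := by
      rw [abs_pos, sub_ne_zero]
      exact_mod_cast hkl
    have : 0 < |(k : ℝ) - l| * (D / n) := by positivity
    linarith
  have hLd : Differentiable ℂ L := by
    rw [hL]
    fun_prop
  have hLnode : ∀ k < n, L (y k) = f (y k) := by
    intro k hk
    simp only [hL]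
    rw [Finset.sum_eq_single k]
    · rw [Finset.prod_eq_one, mul_one]
      intro l hl
      have hl1 : l ≠ k := (Finset.mem_erase.1 hl).1
      have hl2 : l < n := Finset.mem_range.1 (Finset.mem_erase.1 hl).2
      exact div_self (sub_ne_zero.2 (hyne k hk l hl2 hl1.symm))
    · intro j hj hjk
      rw [Finset.prod_eq_zero (i := k), mul_zero]
      · exact Finset.mem_erase.2 ⟨hjk.symm, Finset.mem_range.2 hk⟩
      · simp
    · intro h
      exact absurd (Finset.mem_range.2 hk) h
  classical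
  set S : Finset ℂ := (Finset.range n).image y with hS
  have hinj : Set.InjOn y (Finset.range n : Set ℕ) := by
    intro a ha b hb hab
    by_contra hne
    exact hyne a (by simpa using ha) b (by simpa using hb) hne hab
  have hzb := zeros_bound (x := x) (R := 16 * D) (D := D) (by linarith) (by positivity) hU hsub S
    (fun w => f w - L w) (M + ε * (2 * (17 * D) / D) ^ (n - 1) * Real.exp n)
    (hf.sub hLd.differentiableOn) ?_ ?_ ?_ z (by linarith)
  · have hprod : ∏ w ∈ S, (‖z - w‖ / (16 * D - D)) ≤ (2 / 15 : ℝ) ^ n := by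
      rw [hS, Finset.prod_image hinj]
      calc ∏ k ∈ Finset.range n, (‖z - y k‖ / (16 * D - D))
          ≤ ∏ k ∈ Finset.range n, (2 / 15 : ℝ) := by
            apply Finset.prod_le_prod
            · intro k _
              have : (0 : ℝ) < 16 * D - D := by linarith
              positivity
            · intro k hk
              have hk' := Finset.mem_range.1 hk
              rw [div_le_iff₀ (by linarith)]
              have : ‖z - y k‖ ≤ ‖z - x‖ + ‖y k - x‖ := by
                calc ‖z - y k‖ = ‖(z - x) - (y k - x)‖ := by congr 1; ring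
                  _ ≤ _ := norm_sub_le _ _
              have := hy k hk'
              linarith
        _ = (2 / 15 : ℝ) ^ n := by rw [Finset.prod_const, Finset.card_range]
    have hLz := lagrange_bound hn hD (ρ := 2 * D) (by linarith) (fun k => f (y k)) y hsep hε z ?_
    · have hLz' : ‖L z‖ ≤ ε * (2 * (2 * D) / D) ^ (n - 1) * Real.exp n := hLz
      have hA : ‖f z‖ ≤ ‖f z - L z‖ + ‖L z‖ := by
        calc ‖f z‖ = ‖(f z - L z) + L z‖ := by congr 1; ring
          _ ≤ _ := norm_add_le _ _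
      have e1 : (2 * (2 * D) / D : ℝ) = 4 := by field_simp; ring
      have e2 : (2 * (17 * D) / D : ℝ) = 34 := by field_simp; ring
      rw [e1] at hLz'
      rw [e2] at hzb
      have b1 : ‖L z‖ ≤ ε * 13 ^ n := by
        calc ‖L z‖ ≤ ε * 4 ^ (n - 1) * Real.exp n := hLz'
          _ ≤ ε * 4 ^ n * (68 / 25) ^ n := by
              gcongr
              · norm_num
              · omega
          _ = ε * (4 * (68 / 25)) ^ n := by rw [mul_pow]; ring
          _ ≤ ε * 13 ^ n := by
              gcongr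
              norm_num
      have b2 : (34 : ℝ) ^ (n - 1) * Real.exp n * (2 / 15) ^ n ≤ 13 ^ n := by
        calc (34 : ℝ) ^ (n - 1) * Real.exp n * (2 / 15) ^ n
            ≤ 34 ^ n * (68 / 25) ^ n * (2 / 15) ^ n := by
              gcongr
              · norm_num
              · omega
          _ = (34 * (68 / 25) * (2 / 15)) ^ n := by rw [mul_pow, mul_pow]
          _ ≤ 13 ^ n := by
              gcongr
              norm_num
      have hpn : 0 ≤ ∏ w ∈ S, (‖z - w‖ / (16 * D - D)) := by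
        apply Finset.prod_nonneg
        intro k _
        have : (0 : ℝ) < 16 * D - D := by linarith
        positivity
      calc ‖f z‖ ≤ ‖f z - L z‖ + ‖L z‖ := hA
        _ ≤ (M + ε * 34 ^ (n - 1) * Real.exp n) * (2 / 15) ^ n + ε * 13 ^ n := by
            apply add_le_add _ b1
            refine hzb.trans ?_
            gcongr
        _ = M * (2 / 15) ^ n + ε * ((34 : ℝ) ^ (n - 1) * Real.exp n * (2 / 15) ^ n) +
              ε * 13 ^ n := by ring
        _ ≤ M * (2 / 15) ^ n + ε * 13 ^ n + ε * 13 ^ n := by gcongr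
        _ = M * (2 / 15) ^ n + 2 * ε * 13 ^ n := by ring
    · intro k hk
      have : ‖z - y k‖ ≤ ‖z - x‖ + ‖y k - x‖ := by
        calc ‖z - y k‖ = ‖(z - x) - (y k - x)‖ := by congr 1; ring
          _ ≤ _ := norm_sub_le _ _
      have := hy k hk
      linarith
  · intro w hw
    obtain ⟨k, hk, rfl⟩ := Finset.mem_image.1 hw
    simp only [hLnode k (Finset.mem_range.1 hk), sub_self]
  · intro w hw
    obtain ⟨k, hk, rfl⟩ := Finset.mem_image.1 hw
    exact hy k (Finset.mem_range.1 hk)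
  · intro w hw
    have h1 : ‖f w‖ ≤ M := hM w (by rw [mem_closedBall, dist_eq_norm]; exact hw.le)
    have h2 := lagrange_bound hn hD (ρ := 17 * D) (by linarith) (fun k => f (y k)) y hsep hε w ?_
    · calc ‖f w - L w‖ ≤ ‖f w‖ + ‖L w‖ := norm_sub_le _ _
        _ ≤ _ := add_le_add h1 h2
    · intro k hk
      have : ‖w - y k‖ ≤ ‖w - x‖ + ‖y k - x‖ := by
        calc ‖w - y k‖ = ‖(w - x) - (y k - x)‖ := by congr 1; ring
          _ ≤ _ := norm_sub_le _ _
      have := hy k hk
      linarith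

/-- The interpolation lemma in exponential form. -/
theorem interp_exp {f : ℂ → ℂ} {x : ℂ} {D M A : ℝ} (hA : 0 < A) (hD : 0 < D)
    {U : Set ℂ} (hU : IsOpen U) (hsub : closedBall x (16 * D) ⊆ U) (hf : DifferentiableOn ℂ f U)
    (hM : ∀ z ∈ closedBall x (16 * D), ‖f z‖ ≤ M) (y : ℕ → ℂ) (hy : ∀ k < ⌈A / 6⌉₊, ‖y k - x‖ ≤ D)
    (hsep : ∀ k < ⌈A / 6⌉₊, ∀ l < ⌈A / 6⌉₊,
      |(k : ℝ) - l| * (D / (⌈A / 6⌉₊ : ℕ)) ≤ ‖y k - y l‖)
    (hε : ∀ k < ⌈A / 6⌉₊, ‖f (y k)‖ ≤ Real.exp (-A)) (z : ℂ) (hz : ‖z - x‖ ≤ D) :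
    ‖f z‖ ≤ (M + 26) * Real.exp (-(A / 3)) := by
  set n := ⌈A / 6⌉₊ with hn
  have hn1 : 1 ≤ n := Nat.one_le_ceil_iff.2 (by positivity)
  have hn2 : A / 6 ≤ n := Nat.le_ceil _
  have hn3 : (n : ℝ) < A / 6 + 1 := Nat.ceil_lt_add_one (by positivity)
  have hM0 : 0 ≤ M := (norm_nonneg _).trans (hM x (by simp; positivity))
  have h1 := interp_bound hn1 hD hU hsub hf hM y hy hsep hε z hz
  have b1 : (2 / 15 : ℝ) ^ n ≤ Real.exp (-(A / 3)) := by
    have h2 : (2 / 15 : ℝ) ≤ Real.exp (-2) := by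
      rw [Real.exp_neg, ← one_div, le_div_iff₀ (Real.exp_pos _)]
      have h3 : Real.exp 1 ≤ 2.72 := by
        have := Real.exp_one_lt_d9
        linarith
      have h4 : Real.exp 2 = Real.exp 1 * Real.exp 1 := by
        rw [← Real.exp_add]; norm_num
      have h5 : (0 : ℝ) < Real.exp 1 := Real.exp_pos _
      nlinarith
    calc (2 / 15 : ℝ) ^ n ≤ Real.exp (-2) ^ n := by gcongr
      _ = Real.exp (-(2 * n)) := by rw [← Real.exp_nat_mul]; congr 1; ring
      _ ≤ Real.exp (-(A / 3)) := by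
          apply Real.exp_le_exp.2
          linarith
  have b2 : 2 * Real.exp (-A) * 13 ^ n ≤ 26 * Real.exp (-(A / 3)) := by
    have h2 : (13 : ℝ) ≤ Real.exp (8 / 3) := by
      -- e^(8/3) > 14.3
      have h3 : (2.7 : ℝ) ≤ Real.exp 1 := by
        have := Real.exp_one_gt_d9
        linarith
      have h4 : Real.exp (8 / 3) ^ 3 = Real.exp 1 ^ 8 := by
        rw [← Real.exp_nat_mul, ← Real.exp_nat_mul]; norm_num
      have h5 : (13 : ℝ) ^ 3 ≤ Real.exp (8 / 3) ^ 3 := by
        rw [h4]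
        calc (13 : ℝ) ^ 3 ≤ 2.7 ^ 8 := by norm_num
          _ ≤ Real.exp 1 ^ 8 := by gcongr
      exact le_of_pow_le_pow_left₀ (by norm_num) (Real.exp_pos _).le h5
    have h3 : (13 : ℝ) ^ n ≤ 13 * Real.exp (2 * A / 3) := by
      obtain ⟨m, hm⟩ : ∃ m, n = m + 1 := ⟨n - 1, by omega⟩
      have hm' : (m : ℝ) ≤ A / 6 := by
        have : (n : ℝ) = m + 1 := by rw [hm]; push_cast; ring
        linarith
      calc (13 : ℝ) ^ n = 13 * 13 ^ m := by rw [hm, pow_succ]; ring
        _ ≤ 13 * Real.exp (8 / 3) ^ m := by gcongr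
        _ = 13 * Real.exp (8 / 3 * m) := by rw [← Real.exp_nat_mul]; ring_nf
        _ ≤ 13 * Real.exp (2 * A / 3) := by
            gcongr
            linarith
    calc 2 * Real.exp (-A) * 13 ^ n ≤ 2 * Real.exp (-A) * (13 * Real.exp (2 * A / 3)) := by gcongr
      _ = 26 * (Real.exp (-A) * Real.exp (2 * A / 3)) := by ring
      _ = 26 * Real.exp (-(A / 3)) := by rw [← Real.exp_add]; ring_nf
  calc ‖f z‖ ≤ M * (2 / 15) ^ n + 2 * Real.exp (-A) * 13 ^ n := h1
    _ ≤ M * Real.exp (-(A / 3)) + 26 * Real.exp (-(A / 3)) := by gcongr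
    _ = _ := by ring

end Pool.Agent.H76Brennan
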