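import Mathlib

set_option autoImplicit false
open Complex Set Metric

namespace Pool.Agent.H76Brennan

/-- The rotation trick on a square: analytic near the closed square centred at `c` of half side `s`,
bounded by `M` there and by `ε` on the right side, then `‖f c‖^4 ≤ M^3 ε`. -/
theorem square_bound {f : ℂ → ℂ} {c : ℂ} {s M ε : ℝ} (hs : 0 < s)
    (hf : ∀ z : ℂ, |(z - c).re| ≤ s → |(z - c).im| ≤ s → DifferentiableAt ℂ f z)
    (hM : ∀ z : ℂ, |(z - c).re| ≤ s → |(z - c).im| ≤ s → ‖f z‖ ≤ M)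
    (hε : ∀ z : ℂ, (z - c).re = s → |(z - c).im| ≤ s → ‖f z‖ ≤ ε) :
    ‖f c‖ ^ 4 ≤ M ^ 3 * ε := by
  have hM0 : 0 ≤ M := le_trans (norm_nonneg (f c)) (hM c (by simp [hs.le]) (by simp [hs.le]))
  have hε0 : 0 ≤ ε := le_trans (norm_nonneg (f (c + s))) (hε (c + s) (by simp) (by simp [hs.le]))
  set U : Set ℂ := {z : ℂ | |z.re| < s ∧ |z.im| < s} with hU
  have hUopen : IsOpen U := by
    have h1 : IsOpen {z : ℂ | |z.re| < s} :=
      isOpen_lt (continuous_abs.comp continuous_re) continuous_const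
    have h2 : IsOpen {z : ℂ | |z.im| < s} :=
      isOpen_lt (continuous_abs.comp continuous_im) continuous_const
    exact h1.inter h2
  have hUcl : ∀ z ∈ closure U, |z.re| ≤ s ∧ |z.im| ≤ s := by
    have h1 : IsClosed {z : ℂ | |z.re| ≤ s} :=
      isClosed_le (continuous_abs.comp continuous_re) continuous_const
    have h2 : IsClosed {z : ℂ | |z.im| ≤ s} :=
      isClosed_le (continuous_abs.comp continuous_im) continuous_const
    intro z hz
    have : closure U ⊆ {z : ℂ | |z.re| ≤ s} ∩ {z : ℂ | |z.im| ≤ s} :=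
      closure_minimal (fun w hw => ⟨hw.1.le, hw.2.le⟩) (h1.inter h2)
    exact this hz
  have hUb : Bornology.IsBounded U := by
    refine (Metric.isBounded_closedBall (x := (0 : ℂ)) (r := 2 * s)).subset ?_
    intro z hz
    rw [mem_closedBall, dist_zero_right]
    have := Complex.norm_le_abs_re_add_abs_im z
    linarith [hz.1, hz.2]
  set G : ℂ → ℂ := fun z => f (c + z) * f (c + I * z) * (f (c - z) * f (c - I * z)) with hG
  have hd : ∀ z : ℂ, |z.re| ≤ s → |z.im| ≤ s → DifferentiableAt ℂ G z := by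
    intro z h1 h2
    have e1 : DifferentiableAt ℂ (fun z => f (c + z)) z := by
      refine DifferentiableAt.comp z (hf (c + z) ?_ ?_) (by fun_prop)
      · simpa using h1
      · simpa using h2
    have e2 : DifferentiableAt ℂ (fun z => f (c + I * z)) z := by
      refine DifferentiableAt.comp z (hf (c + I * z) ?_ ?_) (by fun_prop)
      · simpa using h2
      · simpa using h1
    have e3 : DifferentiableAt ℂ (fun z => f (c - z)) z := by
      refine DifferentiableAt.comp z (hf (c - z) ?_ ?_) (by fun_prop)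
      · simpa using h1
      · simpa using h2
    have e4 : DifferentiableAt ℂ (fun z => f (c - I * z)) z := by
      refine DifferentiableAt.comp z (hf (c - I * z) ?_ ?_) (by fun_prop)
      · simpa using h2
      · simpa using h1
    exact (e1.mul e2).mul (e3.mul e4)
  have hdc : DiffContOnCl ℂ G U := by
    refine ⟨fun z hz => (hd z hz.1.le hz.2.le).differentiableWithinAt, fun z hz => ?_⟩
    exact (hd z (hUcl z hz).1 (hUcl z hz).2).continuousAt.continuousWithinAt
  have hfr : ∀ z ∈ frontier U, ‖G z‖ ≤ M ^ 3 * ε := by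
    intro z hz
    rw [frontier, hUopen.interior_eq] at hz
    obtain ⟨h1, h2⟩ := hUcl z hz.1
    have h3 : ¬ (|z.re| < s ∧ |z.im| < s) := hz.2
    have b1 : ‖f (c + z)‖ ≤ M := hM _ (by simpa using h1) (by simpa using h2)
    have b2 : ‖f (c + I * z)‖ ≤ M := hM _ (by simpa using h2) (by simpa using h1)
    have b3 : ‖f (c - z)‖ ≤ M := hM _ (by simpa using h1) (by simpa using h2)
    have b4 : ‖f (c - I * z)‖ ≤ M := hM _ (by simpa using h2) (by simpa using h1)
    have key : ‖G z‖ = ‖f (c + z)‖ * ‖f (c + I * z)‖ * (‖f (c - z)‖ * ‖f (c - I * z)‖) := by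
      simp [hG]
    rw [key]
    have h4 : z.re = s ∨ z.re = -s ∨ z.im = s ∨ z.im = -s := by
      by_contra hcon
      push Not at hcon
      apply h3
      refine ⟨lt_of_le_of_ne h1 ?_, lt_of_le_of_ne h2 ?_⟩
      · intro h
        rcases abs_choice z.re with h' | h' <;> rw [h'] at h
        · exact hcon.1 h
        · exact hcon.2.1 (by linarith)
      · intro h
        rcases abs_choice z.im with h' | h' <;> rw [h'] at h
        · exact hcon.2.2.1 h
        · exact hcon.2.2.2 (by linarith)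
    rcases h4 with h | h | h | h
    · have b : ‖f (c + z)‖ ≤ ε := hε _ (by simpa using h) (by simpa using h2)
      calc ‖f (c + z)‖ * ‖f (c + I * z)‖ * (‖f (c - z)‖ * ‖f (c - I * z)‖)
          ≤ ε * M * (M * M) := by gcongr
        _ = M ^ 3 * ε := by ring
    · have b : ‖f (c - z)‖ ≤ ε := hε _ (by simp [h]) (by simpa using h2)
      calc ‖f (c + z)‖ * ‖f (c + I * z)‖ * (‖f (c - z)‖ * ‖f (c - I * z)‖)
          ≤ M * M * (ε * M) := by gcongr
        _ = M ^ 3 * ε := by ring
    · have b : ‖f (c - I * z)‖ ≤ ε := hε _ (by simp [h]) (by simpa using h1)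
      calc ‖f (c + z)‖ * ‖f (c + I * z)‖ * (‖f (c - z)‖ * ‖f (c - I * z)‖)
          ≤ M * M * (M * ε) := by gcongr
        _ = M ^ 3 * ε := by ring
    · have b : ‖f (c + I * z)‖ ≤ ε := hε _ (by simp [h]) (by simpa using h1)
      calc ‖f (c + z)‖ * ‖f (c + I * z)‖ * (‖f (c - z)‖ * ‖f (c - I * z)‖)
          ≤ M * ε * (M * M) := by gcongr
        _ = M ^ 3 * ε := by ring
  have h0 : (0 : ℂ) ∈ closure U := subset_closure ⟨by simp [hs], by simp [hs]⟩
  have := Complex.norm_le_of_forall_mem_frontier_norm_le hUb hdc hfr h0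
  simp only [hG, mul_zero, add_zero, sub_zero, norm_mul] at this
  calc ‖f c‖ ^ 4 = ‖f c‖ * ‖f c‖ * (‖f c‖ * ‖f c‖) := by ring
    _ ≤ M ^ 3 * ε := this

open Complex.HadamardThreeLines in
/-- Hadamard's three circles theorem. -/
theorem three_circles {f : ℂ → ℂ} {c : ℂ} {r₁ r₂ ε M : ℝ} (h0 : 0 < r₁) (h12 : r₁ < r₂)
    (hf : ∀ z : ℂ, r₁ ≤ ‖z - c‖ → ‖z - c‖ ≤ r₂ → DifferentiableAt ℂ f z)
    (h1 : ∀ z : ℂ, ‖z - c‖ = r₁ → ‖f z‖ ≤ ε)
    (h2 : ∀ z : ℂ, ‖z - c‖ = r₂ → ‖f z‖ ≤ M) {z : ℂ} (hz1 : r₁ ≤ ‖z - c‖) (hz2 : ‖z - c‖ ≤ r₂) :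
    ‖f z‖ ≤ ε ^ (1 - (Real.log ‖z - c‖ - Real.log r₁) / (Real.log r₂ - Real.log r₁)) *
      M ^ ((Real.log ‖z - c‖ - Real.log r₁) / (Real.log r₂ - Real.log r₁)) := by
  have hr2 : 0 < r₂ := h0.trans h12
  set g : ℂ → ℂ := fun w => f (c + exp w) with hg
  have hnorm : ∀ w : ℂ, ‖(c + exp w) - c‖ = Real.exp w.re := by
    intro w; rw [add_sub_cancel_left, Complex.norm_exp]
  have hstrip : ∀ w : ℂ, w.re ∈ Icc (Real.log r₁) (Real.log r₂) →
      r₁ ≤ ‖(c + exp w) - c‖ ∧ ‖(c + exp w) - c‖ ≤ r₂ := by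
    intro w hw
    rw [hnorm]
    exact ⟨(Real.log_le_iff_le_exp h0).1 hw.1, (Real.le_log_iff_exp_le hr2).1 hw.2⟩
  have hgd : ∀ w : ℂ, w.re ∈ Icc (Real.log r₁) (Real.log r₂) → DifferentiableAt ℂ g w := by
    intro w hw
    obtain ⟨a, b⟩ := hstrip w hw
    exact DifferentiableAt.comp w (hf _ a b) (by fun_prop)
  have hlog : Real.log r₁ < Real.log r₂ := Real.log_lt_log h0 h12
  have hclos : closure (verticalStrip (Real.log r₁) (Real.log r₂)) ⊆
      verticalClosedStrip (Real.log r₁) (Real.log r₂) := by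
    refine closure_minimal ?_ ?_
    · intro w hw; exact ⟨hw.1.le, hw.2.le⟩
    · exact isClosed_Icc.preimage continuous_re
  have hdc : DiffContOnCl ℂ g (verticalStrip (Real.log r₁) (Real.log r₂)) := by
    refine ⟨fun w hw => (hgd w ⟨hw.1.le, hw.2.le⟩).differentiableWithinAt, fun w hw => ?_⟩
    exact (hgd w (hclos hw)).continuousAt.continuousWithinAt
  have hB : BddAbove ((norm ∘ g) '' verticalClosedStrip (Real.log r₁) (Real.log r₂)) := by
    have hcomp : IsCompact {z : ℂ | r₁ ≤ ‖z - c‖ ∧ ‖z - c‖ ≤ r₂} := by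
      refine (isCompact_closedBall c r₂).of_isClosed_subset ?_ ?_
      · have hcn : Continuous fun z : ℂ => ‖z - c‖ := by fun_prop
        exact (isClosed_le continuous_const hcn).inter (isClosed_le hcn continuous_const)
      · intro z hz
        rw [mem_closedBall, dist_eq_norm]
        exact hz.2
    have hcont : ContinuousOn (fun z => ‖f z‖) {z : ℂ | r₁ ≤ ‖z - c‖ ∧ ‖z - c‖ ≤ r₂} :=
      fun z hz => (hf z hz.1 hz.2).continuousAt.norm.continuousWithinAt
    obtain ⟨B, hB⟩ := (hcomp.image_of_continuousOn hcont).bddAbove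
    refine ⟨B, ?_⟩
    rintro _ ⟨w, hw, rfl⟩
    exact hB ⟨c + exp w, hstrip w hw, rfl⟩
  have hzc : z - c ≠ 0 := by
    intro h
    rw [h, norm_zero] at hz1
    linarith
  have hnz : 0 < ‖z - c‖ := norm_pos_iff.2 hzc
  have hre : (Complex.log (z - c)).re = Real.log ‖z - c‖ := Complex.log_re _
  have key := norm_le_interp_of_mem_verticalClosedStrip' (f := g) (z := Complex.log (z - c))
    (a := ε) (b := M) hlog ?_ hdc hB ?_ ?_
  · rw [hre] at key
    have : g (Complex.log (z - c)) = f z := by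
      simp only [hg]
      rw [Complex.exp_log hzc]
      congr 1
      ring
    rw [this] at key
    exact key
  · show (Complex.log (z - c)).re ∈ Icc _ _
    rw [hre]
    exact ⟨Real.log_le_log h0 hz1, Real.log_le_log hnz hz2⟩
  · intro w hw
    apply h1
    rw [hnorm, show w.re = Real.log r₁ from hw, Real.exp_log h0]
  · intro w hw
    apply h2
    rw [hnorm, show w.re = Real.log r₂ from hw, Real.exp_log hr2]

end Pool.Agent.H76Brennan
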