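import Pool.Agent.H76Brennan.Conf
import Pool.Agent.H76Brennan.Functional
import Pool.Agent.H76Brennan.Interp
import Pool.Agent.H76Brennan.Square

set_option autoImplicit false
set_option linter.unusedSectionVars false
set_option linter.style.haveILetI false
open Complex Set Metric Filter Topology MeasureTheory
open scoped ENNReal NNReal

namespace Pool.Agent.H76Brennan

/-- The compact sets `K_t`. -/
def Kt (Ω : Set ℂ) (φ : ℂ → ℂ) (t : ℝ) : Set ℂ := {z | z ∈ Ω ∧ ‖φ z‖ ≤ Real.exp (-t)}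

section
variable {Ω : Set ℂ} {φ ψ : ℂ → ℂ} {R : ℝ}

theorem Kt_subset (t : ℝ) : Kt Ω φ t ⊆ Ω := fun _ h => h.1

theorem Kt_anti {t' t : ℝ} (h : t' ≤ t) : Kt Ω φ t ⊆ Kt Ω φ t' := by
  intro z hz
  refine ⟨hz.1, hz.2.trans ?_⟩
  apply Real.exp_le_exp.2
  linarith

theorem Conf.Kt_eq (h : Conf Ω φ ψ R) {t : ℝ} (ht : 0 < t) :
    Kt Ω φ t = ψ '' closedBall 0 (Real.exp (-t)) := by
  have hlt : Real.exp (-t) < 1 := by rw [Real.exp_lt_one_iff]; linarith
  ext z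
  constructor
  · rintro ⟨h1, h2⟩
    exact ⟨φ z, by simpa using h2, h.left z h1⟩
  · rintro ⟨b, hb, rfl⟩
    have hb' : ‖b‖ ≤ Real.exp (-t) := by simpa using hb
    have hb1 : ‖b‖ < 1 := hb'.trans_lt hlt
    exact ⟨h.ψm b hb1, by rw [h.right b hb1]; exact hb'⟩

theorem Conf.Kt_compact (h : Conf Ω φ ψ R) {t : ℝ} (ht : 0 < t) : IsCompact (Kt Ω φ t) := by
  have hlt : Real.exp (-t) < 1 := by rw [Real.exp_lt_one_iff]; linarith
  rw [h.Kt_eq ht]
  apply (isCompact_closedBall (0 : ℂ) _).image_of_continuousOn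
  apply h.ψd.continuousOn.mono
  exact closedBall_subset_ball hlt

theorem Conf.mem_Kt (h : Conf Ω φ ψ R) {t : ℝ} {a : ℂ} (ha : ‖a‖ < 1) :
    ψ a ∈ Kt Ω φ t ↔ ‖a‖ ≤ Real.exp (-t) := by
  constructor
  · rintro ⟨_, h2⟩
    rwa [h.right a ha] at h2
  · intro h1
    exact ⟨h.ψm a ha, by rw [h.right a ha]; exact h1⟩

theorem norm_exp_lt {w : ℂ} (hw : w.re < 0) : ‖Complex.exp w‖ < 1 := by
  rw [Complex.norm_exp, Real.exp_lt_one_iff]; exact hw

theorem exp_diff_ge {u v : ℝ} (hv : -1 ≤ v) (huv : v ≤ u) :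
    (u - v) / 3 ≤ Real.exp u - Real.exp v := by
  have h1 : Real.exp u - Real.exp v = Real.exp v * (Real.exp (u - v) - 1) := by
    rw [mul_sub, ← Real.exp_add]; ring_nf
  have h2 : u - v ≤ Real.exp (u - v) - 1 := by
    have := Real.add_one_le_exp (u - v)
    linarith
  have h3 : (1 : ℝ) / 3 ≤ Real.exp v := by
    calc (1 : ℝ) / 3 ≤ Real.exp (-1) := by
          rw [Real.exp_neg, ← one_div]
          apply one_div_le_one_div_of_le (Real.exp_pos _)
          have := Real.exp_one_lt_d9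
          linarith
      _ ≤ Real.exp v := Real.exp_le_exp.2 hv
  rw [h1]
  have h4 : 0 ≤ u - v := by linarith
  calc (u - v) / 3 = 1 / 3 * (u - v) := by ring
    _ ≤ Real.exp v * (Real.exp (u - v) - 1) := mul_le_mul h3 h2 h4 (Real.exp_pos _).le

/-- Distance of `ψ(e^w)` from `K_t`. -/
theorem Conf.dist_Kt (h : Conf Ω φ ψ R) {C : ℝ}
    (hsep : ∀ τ : ℝ, 0 < τ → τ ≤ 1 → ∀ a b : ℂ, ‖a‖ < 1 → ‖b‖ ≤ Real.exp (-τ) →
      τ / 32 ≤ ‖a - b‖ → Real.exp (-(C / τ)) ≤ ‖ψ a - ψ b‖)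
    {t : ℝ} (ht : 0 < t) (ht1 : t ≤ 1) {w : ℂ} (hw0 : w.re < 0) (hw : -(3 * t / 4) ≤ w.re)
    {z : ℂ} (hz : z ∈ Kt Ω φ t) : Real.exp (-(C / t)) ≤ ‖z - ψ (Complex.exp w)‖ := by
  rw [h.Kt_eq ht] at hz
  obtain ⟨b, hb, rfl⟩ := hz
  have hb' : ‖b‖ ≤ Real.exp (-t) := by simpa using hb
  rw [norm_sub_rev]
  apply hsep t ht ht1 _ _ (norm_exp_lt hw0) hb'
  have h1 : ‖Complex.exp w‖ - ‖b‖ ≤ ‖Complex.exp w - b‖ := norm_sub_norm_le _ _
  rw [Complex.norm_exp] at h1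
  have h2 := exp_diff_ge (u := w.re) (v := -t) (by linarith) (by linarith)
  linarith

variable {μ : Measure ℂ} [IsFiniteMeasure μ] {q : ℝ≥0∞} [Fact (1 ≤ q)]

/-- `F_t` in logarithmic coordinates. -/
noncomputable def ft (Λ : Lp ℂ q μ →L[ℂ] ℂ) (Ω : Set ℂ) (φ ψ : ℂ → ℂ) (t : ℝ) (w : ℂ) : ℂ :=
  FK Λ (Kt Ω φ t) (ψ (Complex.exp w))

theorem Conf.ft_diff (h : Conf Ω φ ψ R) (Λ : Lp ℂ q μ →L[ℂ] ℂ) {t : ℝ} (ht : 0 < t) {w : ℂ}
    (h1 : -t < w.re) (h2 : w.re < 0) : DifferentiableAt ℂ (ft Λ Ω φ ψ t) w := by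
  have hnot : ψ (Complex.exp w) ∉ Kt Ω φ t := by
    rw [h.mem_Kt (norm_exp_lt h2), Complex.norm_exp, not_le]
    exact Real.exp_lt_exp.2 h1
  have e1 : DifferentiableAt ℂ (FK Λ (Kt Ω φ t)) (ψ (Complex.exp w)) :=
    FK_differentiableAt Λ (h.Kt_compact ht) hnot
  have e2 : DifferentiableAt ℂ ψ (Complex.exp w) := h.ψdAt (norm_exp_lt h2)
  exact e1.comp w (e2.comp w (Complex.differentiableAt_exp))

/-- The constant in the trivial bound. -/
noncomputable def Qc (Λ : Lp ℂ q μ →L[ℂ] ℂ) : ℝ := ‖Λ‖ * (μ univ ^ q.toReal⁻¹).toReal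

theorem Qc_nonneg (Λ : Lp ℂ q μ →L[ℂ] ℂ) : 0 ≤ Qc Λ := by unfold Qc; positivity

theorem Conf.ft_bound (h : Conf Ω φ ψ R) (Λ : Lp ℂ q μ →L[ℂ] ℂ) {C : ℝ}
    (hsep : ∀ τ : ℝ, 0 < τ → τ ≤ 1 → ∀ a b : ℂ, ‖a‖ < 1 → ‖b‖ ≤ Real.exp (-τ) →
      τ / 32 ≤ ‖a - b‖ → Real.exp (-(C / τ)) ≤ ‖ψ a - ψ b‖)
    {t : ℝ} (ht : 0 < t) (ht1 : t ≤ 1) {w : ℂ} (hw0 : w.re < 0) (hw : -(3 * t / 4) ≤ w.re) :
    ‖ft Λ Ω φ ψ t w‖ ≤ Real.exp ((C + Qc Λ) / t) := by
  have h1 := norm_FK_le Λ (K := Kt Ω φ t) (ζ := ψ (Complex.exp w)) (Real.exp_pos (-(C / t)))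
    (fun z hz => h.dist_Kt hsep ht ht1 hw0 hw hz)
  have hQ := Qc_nonneg Λ
  calc ‖ft Λ Ω φ ψ t w‖ ≤ Qc Λ / Real.exp (-(C / t)) := h1
    _ = Qc Λ * Real.exp (C / t) := by rw [Real.exp_neg, div_inv_eq_mul]
    _ ≤ Real.exp (Qc Λ / t) * Real.exp (C / t) := by
        gcongr
        have h2 : Qc Λ ≤ Qc Λ / t := by
          rw [le_div_iff₀ ht]
          nlinarith
        have h3 := Real.add_one_le_exp (Qc Λ / t)
        linarith
    _ = Real.exp ((C + Qc Λ) / t) := by rw [← Real.exp_add]; congr 1; ring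

/-- Smallness on a segment of the line `Re w = r`. -/
def Small (f : ℂ → ℂ) (r y A H : ℝ) : Prop :=
  ∀ s : ℝ, |s - y| ≤ H → ‖f (r + s * I)‖ ≤ Real.exp (-A)

theorem Small.mono {f : ℂ → ℂ} {r y A H A' H' : ℝ} (h : Small f r y A H) (hA : A' ≤ A)
    (hH : H' ≤ H) : Small f r y A' H' := by
  intro s hs
  refine (h s (hs.trans hH)).trans (Real.exp_le_exp.2 (by linarith))

theorem lat_aux {f : ℂ → ℂ} {r D M A : ℝ} (hD : 0 < D) (hA : 0 < A)
    {U : Set ℂ} (hU : IsOpen U) (hf : DifferentiableOn ℂ f U)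
    {s₀ : ℝ} (hsub : closedBall (r + s₀ * I : ℂ) (16 * D) ⊆ U)
    (hM : ∀ z ∈ closedBall (r + s₀ * I : ℂ) (16 * D), ‖f z‖ ≤ M)
    {σ : ℝ} (hσ : |σ| = 1)
    (hs : ∀ u ∈ Icc (0 : ℝ) D, ‖f (r + (s₀ - σ * u : ℝ) * I)‖ ≤ Real.exp (-A)) {s : ℝ}
    (hsD : |s - s₀| ≤ D) :
    ‖f (r + s * I)‖ ≤ (M + 26) * Real.exp (-(A / 3)) := by
  set n := ⌈A / 6⌉₊ with hn
  have hn1 : 0 < n := Nat.ceil_pos.2 (by positivity)
  have hnr : (0 : ℝ) < n := by exact_mod_cast hn1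
  have hle : ∀ k < n, (k : ℝ) * (D / n) ∈ Icc (0 : ℝ) D := by
    intro k hk
    have hk' : (k : ℝ) ≤ n := by exact_mod_cast hk.le
    constructor
    · positivity
    · calc (k : ℝ) * (D / n) ≤ n * (D / n) := by gcongr
        _ = D := by field_simp
  refine interp_exp hA hD hU hsub hf hM
    (fun k => (r : ℂ) + ((s₀ - σ * ((k : ℝ) * (D / n)) : ℝ) : ℂ) * I) ?_ ?_ ?_ (r + s * I) ?_
  · intro k hk
    have h1 : (r : ℂ) + ((s₀ - σ * ((k : ℝ) * (D / n)) : ℝ) : ℂ) * I - (r + s₀ * I) =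
        ((-(σ * ((k : ℝ) * (D / n))) : ℝ) : ℂ) * I := by
      push_cast; ring
    rw [h1, norm_mul, Complex.norm_I, mul_one, Complex.norm_real, Real.norm_eq_abs, abs_neg,
      abs_mul, hσ, one_mul, abs_of_nonneg (hle k hk).1]
    exact (hle k hk).2
  · intro k hk l hl
    have h1 : (r : ℂ) + ((s₀ - σ * ((k : ℝ) * (D / n)) : ℝ) : ℂ) * I -
        ((r : ℂ) + ((s₀ - σ * ((l : ℝ) * (D / n)) : ℝ) : ℂ) * I) =
        ((-(σ * (((k : ℝ) - l) * (D / n))) : ℝ) : ℂ) * I := by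
      push_cast; ring
    rw [h1, norm_mul, Complex.norm_I, mul_one, Complex.norm_real, Real.norm_eq_abs, abs_neg,
      abs_mul, hσ, one_mul, abs_mul, abs_of_nonneg (show (0 : ℝ) ≤ D / n by positivity)]
  · intro k hk
    exact hs _ (hle k hk)
  · have h1 : ((r : ℂ) + s * I) - (r + s₀ * I) = ((s - s₀ : ℝ) : ℂ) * I := by
      push_cast; ring
    rw [h1, norm_mul, Complex.norm_I, mul_one, Complex.norm_real, Real.norm_eq_abs]
    exact hsD

/-- One lateral step. -/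
theorem lat_one {f : ℂ → ℂ} {t M A y H : ℝ} (ht : 0 < t) (hA : 0 < A)
    (hf : ∀ w : ℂ, -t < w.re → w.re < 0 → DifferentiableAt ℂ f w)
    (hM : ∀ w : ℂ, -(3 * t / 4) ≤ w.re → w.re < 0 → ‖f w‖ ≤ M) (hM0 : 0 ≤ M)
    (hH : t / 128 ≤ H) (hS : Small f (-(t / 2)) y A H) :
    ∀ s : ℝ, |s - y| ≤ H + t / 64 →
      ‖f ((-(t / 2) : ℝ) + s * I)‖ ≤ (M + 26) * Real.exp (-(A / 3)) := by
  intro s hs
  have hU : IsOpen {w : ℂ | -t < w.re ∧ w.re < 0} :=
    (isOpen_lt continuous_const Complex.continuous_re).inter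
      (isOpen_lt Complex.continuous_re continuous_const)
  have hfU : DifferentiableOn ℂ f {w : ℂ | -t < w.re ∧ w.re < 0} :=
    fun w hw => (hf w hw.1 hw.2).differentiableWithinAt
  have hball : ∀ s₀ : ℝ, ∀ z ∈ closedBall (((-(t / 2) : ℝ) : ℂ) + s₀ * I) (16 * (t / 64)),
      -(3 * t / 4) ≤ z.re ∧ z.re < 0 := by
    intro s₀ z hz
    rw [mem_closedBall, dist_eq_norm] at hz
    have h1 := (Complex.abs_re_le_norm _).trans hz
    simp only [Complex.sub_re, Complex.add_re, Complex.mul_re, Complex.ofReal_re, Complex.I_re,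
      Complex.ofReal_im, Complex.I_im, mul_zero, mul_one, sub_self, add_zero] at h1
    have h2 := abs_le.1 h1
    constructor <;> linarith [h2.1, h2.2]
  rcases le_or_gt |s - y| H with h1 | h1
  · refine (hS s h1).trans ?_
    calc Real.exp (-A) ≤ Real.exp (-(A / 3)) := Real.exp_le_exp.2 (by linarith)
      _ = 1 * Real.exp (-(A / 3)) := (one_mul _).symm
      _ ≤ (M + 26) * Real.exp (-(A / 3)) := by
          gcongr
          linarith
  · rcases le_or_gt y s with h2 | h2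
    · rw [abs_of_nonneg (by linarith)] at h1 hs
      refine lat_aux (D := t / 64) (by positivity) hA hU hfU (s₀ := y + H)
        (fun z hz => ?_) (fun z hz => ?_) (σ := 1) (by simp) ?_ ?_
      · obtain ⟨e1, e2⟩ := hball _ z hz
        exact ⟨by linarith, e2⟩
      · obtain ⟨e1, e2⟩ := hball _ z hz
        exact hM z e1 e2
      · intro u hu
        apply hS
        rw [abs_le]
        constructor <;> linarith [hu.1, hu.2]
      · rw [abs_le]
        constructor <;> linarith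
    · rw [abs_of_neg (by linarith)] at h1 hs
      refine lat_aux (D := t / 64) (by positivity) hA hU hfU (s₀ := y - H)
        (fun z hz => ?_) (fun z hz => ?_) (σ := -1) (by simp) ?_ ?_
      · obtain ⟨e1, e2⟩ := hball _ z hz
        exact ⟨by linarith, e2⟩
      · obtain ⟨e1, e2⟩ := hball _ z hz
        exact hM z e1 e2
      · intro u hu
        apply hS
        rw [abs_le]
        constructor <;> linarith [hu.1, hu.2]
      · rw [abs_le]
        constructor <;> linarith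

theorem exp_add_26 {x : ℝ} (hx : 0 ≤ x) : Real.exp x + 26 ≤ Real.exp (x + 4) := by
  have h1 : (27 : ℝ) ≤ Real.exp 4 := by
    have h2 : (2.7 : ℝ) ≤ Real.exp 1 := by
      have := Real.exp_one_gt_d9
      linarith
    have h3 : Real.exp 4 = Real.exp 1 ^ 4 := by rw [← Real.exp_nat_mul]; norm_num
    rw [h3]
    calc (27 : ℝ) ≤ 2.7 ^ 4 := by norm_num
      _ ≤ Real.exp 1 ^ 4 := by gcongr
  have h4 : 1 ≤ Real.exp x := Real.one_le_exp hx
  rw [Real.exp_add]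
  nlinarith

/-- Iterated lateral steps. -/
theorem lat_many {f : ℂ → ℂ} {t C₁ : ℝ} (ht : 0 < t) (ht1 : t ≤ 1) (hC₁ : 0 ≤ C₁)
    (hf : ∀ w : ℂ, -t < w.re → w.re < 0 → DifferentiableAt ℂ f w)
    (hM : ∀ w : ℂ, -(3 * t / 4) ≤ w.re → w.re < 0 → ‖f w‖ ≤ Real.exp (C₁ / t))
    {A y H : ℝ} (hH : t / 128 ≤ H) (hS : Small f (-(t / 2)) y A H) (N : ℕ)
    (hN : (3 * (C₁ + 4)) / t ≤ A / 4 ^ N) :
    Small f (-(t / 2)) y (A / 4 ^ N) (H + N * (t / 64)) := by
  induction N with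
  | zero => simpa using hS
  | succ N ih =>
    have h0 : 0 < (3 * (C₁ + 4)) / t := by positivity
    have h1 : A / 4 ^ (N + 1) ≤ A / 4 ^ N := by
      have hA0 : 0 ≤ A := by
        by_contra hcon
        push Not at hcon
        have : A / 4 ^ (N + 1) < 0 := div_neg_of_neg_of_pos hcon (by positivity)
        linarith
      apply div_le_div_of_nonneg_left hA0 (by positivity)
      exact pow_le_pow_right₀ (by norm_num) (Nat.le_succ N)
    have hS' := ih (hN.trans h1)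
    set B := A / 4 ^ N with hB
    have hB4 : A / 4 ^ (N + 1) = B / 4 := by rw [hB, pow_succ]; field_simp
    rw [hB4] at hN ⊢
    have hB0 : 0 < B := by linarith
    have hNt : 0 ≤ (N : ℝ) * (t / 64) := by positivity
    intro s hs
    push_cast at hs
    have h2 := lat_one ht hB0 hf hM (Real.exp_pos _).le (by linarith) hS' s (by linarith)
    have hr : ((-(t / 2) : ℝ) : ℂ) = -(t / 2 : ℂ) := by push_cast; ring
    refine h2.trans ?_
    have h3 : Real.exp (C₁ / t) + 26 ≤ Real.exp (B / 12) := by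
      refine (exp_add_26 (by positivity)).trans (Real.exp_le_exp.2 ?_)
      have h4 : C₁ / t + 4 ≤ (C₁ + 4) / t := by
        rw [add_div]
        have : 4 ≤ 4 / t := by
          rw [le_div_iff₀ ht]; linarith
        linarith
      have h5 : (3 * (C₁ + 4)) / t = 3 * ((C₁ + 4) / t) := by ring
      linarith
    calc (Real.exp (C₁ / t) + 26) * Real.exp (-(B / 3))
        ≤ Real.exp (B / 12) * Real.exp (-(B / 3)) := by gcongr
      _ = Real.exp (-(B / 4)) := by rw [← Real.exp_add]; congr 1; ring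

end

end Pool.Agent.H76Brennan
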