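import Pool.Agent.H76Brennan.Approx

set_option autoImplicit false
set_option linter.unusedSectionVars false
set_option linter.style.haveILetI false
open Complex Set Metric Filter Topology MeasureTheory
open scoped ENNReal NNReal

namespace Pool.Agent.H76Brennan

/-- Hahn–Banach: a point outside a closed subspace is detected by a functional vanishing on it. -/
theorem exists_functional {E : Type*} [NormedAddCommGroup E] [NormedSpace ℂ E]
    (S : Submodule ℂ E) (hS : IsClosed (S : Set E)) {x : E} (hx : x ∉ S) :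
    ∃ Λ : E →L[ℂ] ℂ, (∀ s ∈ S, Λ s = 0) ∧ Λ x ≠ 0 := by
  haveI : IsClosed (S : Set E) := hS
  letI : NormedAddCommGroup (E ⧸ S) := Submodule.Quotient.normedAddCommGroup S
  have h0 : S.mkQL x ≠ 0 := by
    rw [Submodule.mkQL_apply, Submodule.mkQ_apply, Ne, Submodule.Quotient.mk_eq_zero]
    exact hx
  obtain ⟨g, _, hg⟩ := exists_dual_vector ℂ (S.mkQL x) (norm_ne_zero_iff.2 h0)
  refine ⟨g.comp S.mkQL, ?_, ?_⟩
  · intro s hs
    rw [ContinuousLinearMap.comp_apply, Submodule.mkQL_apply, Submodule.mkQ_apply,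
      (Submodule.Quotient.mk_eq_zero S).2 hs, map_zero]
  · rw [ContinuousLinearMap.comp_apply, hg]
    intro h1
    exact norm_ne_zero_iff.2 h0 (Complex.ofReal_eq_zero.1 h1)

theorem poly_memLp {μ : Measure ℂ} [IsFiniteMeasure μ] {q : ℝ≥0∞} [Fact (1 ≤ q)]
    {R : ℝ} (hsupp : ∀ᵐ z ∂μ, ‖z‖ < R) (P : Polynomial ℂ) :
    MemLp (fun z => P.eval z) q μ := by
  obtain ⟨B, hB⟩ := (isCompact_closedBall (0 : ℂ) R).exists_bound_of_continuousOn
    (f := fun z => P.eval z) P.continuous.continuousOn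
  refine memLp_of_bdd (B := B) P.continuous.aestronglyMeasurable ?_
  filter_upwards [hsupp] with z hz
  exact hB z (by simpa using hz.le)

/-- Completeness of the polynomials. -/
theorem Conf.complete {Ω : Set ℂ} {φ ψ : ℂ → ℂ} {R : ℝ} {W : ℝ → ℝ} (h : Conf Ω φ ψ R)
    (hW' : IsW W) (hlim : Tendsto W (𝓝[>] 0) (𝓝 0))
    (hdiv : ∀ δ : ℝ, 0 < δ → ¬ IntegrableOn (fun t : ℝ => Real.log (Real.log (1 / W t)))
      (Ioo (0 : ℝ) δ))
    {p : ℝ} (hp1 : 1 ≤ p) (hp4 : p ≤ 4)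
    {f : ℂ → ℂ} (hf : DifferentiableOn ℂ f Ω) (hfL : MemLp f (ENNReal.ofReal p) (mu Ω φ W))
    {ε : ℝ} (hε : 0 < ε) :
    ∃ P : Polynomial ℂ, eLpNorm (fun z => f z - P.eval z) (ENNReal.ofReal p) (mu Ω φ W) <
      ENNReal.ofReal ε := by
  haveI := h.mu_finite hW'
  haveI : Fact (1 ≤ ENNReal.ofReal p) := ⟨by
    rw [← ENNReal.ofReal_one]; exact ENNReal.ofReal_le_ofReal hp1⟩
  have hsupp : ∀ᵐ z ∂(mu Ω φ W), ‖z‖ < R := by
    filter_upwards [h.mu_ae] with z hz
    exact h.bdd z hz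
  have hPm : ∀ P : Polynomial ℂ, MemLp (fun z => P.eval z) (ENNReal.ofReal p) (mu Ω φ W) :=
    fun P => poly_memLp hsupp P
  set T : Polynomial ℂ →ₗ[ℂ] Lp ℂ (ENNReal.ofReal p) (mu Ω φ W) :=
    { toFun := fun P => (hPm P).toLp _
      map_add' := by
        intro P Q
        rw [← MemLp.toLp_add, MemLp.toLp_eq_toLp_iff]
        refine Eventually.of_forall (fun z => ?_)
        simp
      map_smul' := by
        intro c P
        rw [RingHom.id_apply, ← MemLp.toLp_const_smul, MemLp.toLp_eq_toLp_iff]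
        refine Eventually.of_forall (fun z => ?_)
        simp } with hT
  set S : Submodule ℂ (Lp ℂ (ENNReal.ofReal p) (mu Ω φ W)) :=
    (LinearMap.range T).topologicalClosure with hS
  have hFS : hfL.toLp f ∈ S := by
    by_contra hcon
    obtain ⟨Λ, hΛ0, hΛ1⟩ := exists_functional S (Submodule.isClosed_topologicalClosure _) hcon
    apply hΛ1
    rw [← val_eq Λ hfL]
    refine h.val_zero_all hW' hlim hdiv Λ hp1 hp4 ?_ hf hfL
    intro n
    have h1 : MemLp (fun z : ℂ => z ^ n) (ENNReal.ofReal p) (mu Ω φ W) := pow_memLp hsupp n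
    rw [val_eq Λ h1]
    apply hΛ0
    apply Submodule.le_topologicalClosure
    refine ⟨Polynomial.X ^ n, ?_⟩
    show (hPm (Polynomial.X ^ n)).toLp _ = h1.toLp _
    rw [MemLp.toLp_eq_toLp_iff]
    refine Eventually.of_forall (fun z => ?_)
    simp
  have h2 : hfL.toLp f ∈ closure ((LinearMap.range T : Submodule ℂ _) : Set _) := hFS
  rw [Metric.mem_closure_iff] at h2
  obtain ⟨_, ⟨P, rfl⟩, hP⟩ := h2 ε hε
  refine ⟨P, ?_⟩
  rw [dist_eq_norm] at hP
  have h3 : hfL.toLp f - T P = (hfL.sub (hPm P)).toLp _ := (MemLp.toLp_sub hfL (hPm P)).symm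
  rw [h3, Lp.norm_toLp] at hP
  have h4 : eLpNorm (fun z => f z - P.eval z) (ENNReal.ofReal p) (mu Ω φ W) ≠ ∞ :=
    (hfL.sub (hPm P)).2.ne
  rw [ENNReal.lt_ofReal_iff_toReal_lt h4]
  exact hP

end Pool.Agent.H76Brennan
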