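import Mathlib

set_option autoImplicit false
open Complex Set Metric Filter Topology MeasureTheory
open scoped ENNReal NNReal

namespace Pool.Agent.H76Brennan

/-- fourth root -/
noncomputable def r4 (x : ℝ) : ℝ := x ^ (1 / 4 : ℝ)

theorem r4_nonneg {x : ℝ} (hx : 0 ≤ x) : 0 ≤ r4 x := Real.rpow_nonneg hx _
theorem r4_pos {x : ℝ} (hx : 0 < x) : 0 < r4 x := Real.rpow_pos_of_pos hx _
theorem r4_pow {x : ℝ} (hx : 0 ≤ x) : r4 x ^ 4 = x := by
  rw [r4, ← Real.rpow_natCast, ← Real.rpow_mul hx]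
  norm_num
theorem r4_mono {x y : ℝ} (hx : 0 ≤ x) (h : x ≤ y) : r4 x ≤ r4 y :=
  Real.rpow_le_rpow hx h (by norm_num)
theorem r4_zero : r4 0 = 0 := by
  rw [r4, Real.zero_rpow (by norm_num)]

theorem r4_inc {x h : ℝ} (hx : 0 ≤ x) (hh : 0 < h) :
    h / 4 * (r4 (x + h) ^ 3)⁻¹ ≤ r4 (x + h) - r4 x := by
  have hα : 0 < r4 (x + h) := r4_pos (by linarith)
  have hβ : 0 ≤ r4 x := r4_nonneg hx
  have hαβ : r4 x ≤ r4 (x + h) := r4_mono hx (by linarith)
  have h1 : r4 (x + h) ^ 4 = x + h := r4_pow (by linarith)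
  have h2 : r4 x ^ 4 = x := r4_pow hx
  set α := r4 (x + h)
  set β := r4 x
  rw [← div_eq_mul_inv, div_le_iff₀ (by positivity)]
  have h3 : h = (α - β) * (α ^ 3 + α ^ 2 * β + α * β ^ 2 + β ^ 3) := by
    have : h = α ^ 4 - β ^ 4 := by rw [h1, h2]; ring
    rw [this]; ring
  have h4 : α ^ 3 + α ^ 2 * β + α * β ^ 2 + β ^ 3 ≤ 4 * α ^ 3 := by
    have e1 : α ^ 2 * β ≤ α ^ 2 * α := by gcongr
    have e2 : α * β ^ 2 ≤ α * α ^ 2 := by gcongr
    have e3 : β ^ 3 ≤ α ^ 3 := by gcongr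
    nlinarith
  have h5 : 0 ≤ α - β := by linarith
  nlinarith [mul_le_mul_of_nonneg_left h4 h5]

theorem r4_sub_le {x y : ℝ} (hx : 0 ≤ x) (h : x ≤ y) : r4 y - r4 x ≤ r4 (y - x) := by
  have hy : 0 ≤ y := hx.trans h
  have hα : 0 ≤ r4 y := r4_nonneg hy
  have hβ : 0 ≤ r4 x := r4_nonneg hx
  have hαβ : r4 x ≤ r4 y := r4_mono hx h
  have h1 : r4 y ^ 4 = y := r4_pow hy
  have h2 : r4 x ^ 4 = x := r4_pow hx
  have h3 : r4 (y - x) ^ 4 = y - x := r4_pow (by linarith)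
  have h0 : 0 ≤ r4 (y - x) := r4_nonneg (by linarith)
  apply le_of_pow_le_pow_left₀ (n := 4) (by norm_num) h0
  rw [h3, ← h1, ← h2]
  set α := r4 y
  set β := r4 x
  rw [h1, h2]
  have h5 : 0 ≤ α - β := by linarith
  have : y - x = (α - β) * (α ^ 3 + α ^ 2 * β + α * β ^ 2 + β ^ 3) := by
    rw [← h1, ← h2]; ring
  rw [this]
  have h6 : (α - β) ^ 3 ≤ α ^ 3 + α ^ 2 * β + α * β ^ 2 + β ^ 3 := by
    have e1 : (α - β) ^ 3 ≤ α ^ 3 := by gcongr; linarith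
    have e2 : 0 ≤ α ^ 2 * β := by positivity
    have e3 : 0 ≤ α * β ^ 2 := by positivity
    have e4 : 0 ≤ β ^ 3 := by positivity
    linarith
  calc (α - β) ^ 4 = (α - β) * (α - β) ^ 3 := by ring
    _ ≤ _ := by gcongr

/-- The odd primitive. -/
noncomputable def P4 (x : ℝ) : ℝ := if 0 ≤ x then r4 x else -(r4 (-x))

theorem r4_two {x : ℝ} (hx : 0 ≤ x) : r4 (2 * x) ^ 3 ≤ 2 * r4 x ^ 3 := by
  have h1 : r4 (2 * x) = r4 2 * r4 x := by
    rw [r4, r4, r4, Real.mul_rpow (by norm_num) hx]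
  rw [h1, mul_pow]
  have h2 : r4 2 ^ 3 ≤ 2 := by
    have h3 : r4 2 ^ 4 = 2 := r4_pow (by norm_num)
    have h4 : 1 ≤ r4 2 := by
      have := r4_mono (x := 1) (y := 2) (by norm_num) (by norm_num)
      rwa [show r4 1 = 1 by rw [r4, Real.one_rpow]] at this
    calc r4 2 ^ 3 ≤ r4 2 ^ 3 * r4 2 := by
          have : 0 ≤ r4 2 ^ 3 := by positivity
          nlinarith
      _ = r4 2 ^ 4 := by ring
      _ = 2 := h3
  have : 0 ≤ r4 x := r4_nonneg hx
  gcongr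

theorem P4_inc {x h ρ : ℝ} (hh : 0 < h) (hρ : h ≤ ρ) :
    h / 8 * (r4 (max ρ |x|) ^ 3)⁻¹ ≤ P4 (x + h) - P4 x := by
  have hm0 : 0 < max ρ |x| := lt_max_of_lt_left (by linarith)
  have hm1 : ρ ≤ max ρ |x| := le_max_left _ _
  have hm2 : |x| ≤ max ρ |x| := le_max_right _ _
  set m := max ρ |x|
  have hrm : 0 < r4 m := r4_pos hm0
  rcases le_or_gt 0 x with hx | hx
  · -- x ≥ 0
    rw [P4, P4, if_pos (by linarith), if_pos hx]
    refine le_trans ?_ (r4_inc hx hh)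
    rw [abs_of_nonneg hx] at hm2
    have h1 : r4 (x + h) ^ 3 ≤ 2 * r4 m ^ 3 := by
      refine le_trans ?_ (r4_two hm0.le)
      have := r4_mono (x := x + h) (y := 2 * m) (by linarith) (by linarith)
      have h0 : 0 ≤ r4 (x + h) := r4_nonneg (by linarith)
      gcongr
    have h2 : 0 < r4 (x + h) := r4_pos (by linarith)
    calc h / 8 * (r4 m ^ 3)⁻¹ = h / 4 * (2 * r4 m ^ 3)⁻¹ := by
          rw [mul_inv]; ring
      _ ≤ h / 4 * (r4 (x + h) ^ 3)⁻¹ := by gcongr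
  · rcases le_or_gt (x + h) 0 with hxh | hxh
    · -- x + h ≤ 0
      have h3 : P4 (x + h) = -(r4 (-(x + h))) := by
        rcases eq_or_lt_of_le hxh with h0 | h0
        · rw [h0]; simp [P4, r4_zero]
        · rw [P4, if_neg (by linarith)]
      rw [h3, P4, if_neg (by linarith)]
      have h4 := r4_inc (x := -(x + h)) (h := h) (by linarith) hh
      rw [show -(x + h) + h = -x by ring] at h4
      rw [abs_of_neg hx] at hm2
      have h5 : 0 < r4 (-x) := r4_pos (by linarith)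
      have h6 : r4 (-x) ≤ r4 m := r4_mono (by linarith) hm2
      calc h / 8 * (r4 m ^ 3)⁻¹ ≤ h / 4 * (r4 (-x) ^ 3)⁻¹ := by
            gcongr
            norm_num
        _ ≤ r4 (-x) - r4 (-(x + h)) := h4
        _ = _ := by ring
    · rw [P4, P4, if_pos hxh.le, if_neg (by linarith)]
      have hrh : 0 < r4 h := r4_pos hh
      have h7 : r4 h ≤ r4 m := r4_mono hh.le (by linarith)
      have h8 : h / 8 * (r4 m ^ 3)⁻¹ ≤ r4 h / 8 := by
        have h9 : r4 h ^ 4 = h := r4_pow hh.le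
        calc h / 8 * (r4 m ^ 3)⁻¹ ≤ h / 8 * (r4 h ^ 3)⁻¹ := by gcongr
          _ = r4 h / 8 := by
            nth_rw 1 [← h9]
            field_simp
      have h10 : r4 h / 2 ≤ r4 (h / 2) := by
        apply le_of_pow_le_pow_left₀ (n := 4) (by norm_num) (r4_nonneg (by linarith))
        rw [r4_pow (by linarith), div_pow, r4_pow hh.le]
        have : h / 2 ^ 4 ≤ h / 2 := by
          rw [show (2 : ℝ) ^ 4 = 16 by norm_num]
          linarith
        linarith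
      have h11 : r4 (h / 2) ≤ r4 (x + h) + r4 (-x) := by
        rcases le_or_gt (h / 2) (x + h) with h12 | h12
        · have := r4_mono (by linarith) h12
          have h13 : 0 ≤ r4 (-x) := r4_nonneg (by linarith)
          linarith
        · have := r4_mono (x := h / 2) (y := -x) (by linarith) (by linarith)
          have h13 : 0 ≤ r4 (x + h) := r4_nonneg (by linarith)
          linarith
      linarith

theorem P4_sub_le {x D : ℝ} (hD : 0 ≤ D) : P4 (x + D) - P4 x ≤ 2 * r4 D := by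
  have hr : 0 ≤ r4 D := r4_nonneg hD
  rcases le_or_gt 0 x with hx | hx
  · rw [P4, P4, if_pos (by linarith), if_pos hx]
    have := r4_sub_le hx (show x ≤ x + D by linarith)
    rw [add_sub_cancel_left] at this
    linarith
  · rcases le_or_gt 0 (x + D) with hxh | hxh
    · rw [P4, P4, if_pos hxh, if_neg (by linarith)]
      have h1 := r4_mono hxh (show x + D ≤ D by linarith)
      have h2 := r4_mono (x := -x) (y := D) (by linarith) (by linarith)
      linarith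
    · rw [P4, P4, if_neg (by linarith), if_neg (by linarith)]
      have := r4_sub_le (x := -(x + D)) (y := -x) (by linarith) (by linarith)
      rw [show -x - -(x + D) = D by ring] at this
      linarith

/-- Uniform bound of the averaged one dimensional kernel. -/
theorem sum_kernel_le {N : ℕ} (hN : 0 < N) {D ρ : ℝ} (hD : 0 < D) (hρ : D / N ≤ ρ) (u : ℝ) :
    (1 / (N : ℝ)) * ∑ j ∈ Finset.range N, (r4 (max ρ |u - j * (D / N)|) ^ 3)⁻¹ ≤
      16 * (r4 D ^ 3)⁻¹ := by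
  have hN' : (0 : ℝ) < N := by exact_mod_cast hN
  set h : ℝ := D / N with hh
  have hh0 : 0 < h := by positivity
  have h1 : ∀ j ∈ Finset.range N, (r4 (max ρ |u - j * h|) ^ 3)⁻¹ ≤
      (8 / h) * (P4 ((((j + 1 : ℕ) : ℝ)) * h - u) - P4 ((j : ℝ) * h - u)) := by
    intro j _
    have h2 := P4_inc (x := (j : ℝ) * h - u) hh0 hρ
    rw [show |u - j * h| = |(j : ℝ) * h - u| from abs_sub_comm _ _]
    have h3 : ((j + 1 : ℕ) : ℝ) * h - u = (j : ℝ) * h - u + h := by push_cast; ring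
    rw [h3]
    calc (r4 (max ρ |(j : ℝ) * h - u|) ^ 3)⁻¹
        = (8 / h) * (h / 8 * (r4 (max ρ |(j : ℝ) * h - u|) ^ 3)⁻¹) := by
          field_simp
      _ ≤ _ := by gcongr
  have h4 := Finset.sum_le_sum h1
  rw [← Finset.mul_sum, Finset.sum_range_sub (fun j : ℕ => P4 ((j : ℝ) * h - u))] at h4
  have h5 : P4 ((N : ℝ) * h - u) - P4 (((0 : ℕ) : ℝ) * h - u) ≤ 2 * r4 D := by
    have h6 := P4_sub_le (x := ((0 : ℕ) : ℝ) * h - u) hD.le
    have h7 : ((0 : ℕ) : ℝ) * h - u + D = (N : ℝ) * h - u := by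
      rw [hh]; push_cast; field_simp; ring
    rwa [h7] at h6
  have hr : 0 < r4 D := r4_pos hD
  calc (1 / (N : ℝ)) * ∑ j ∈ Finset.range N, (r4 (max ρ |u - j * h|) ^ 3)⁻¹
      ≤ (1 / (N : ℝ)) * ((8 / h) * (2 * r4 D)) := by
        gcongr
        exact h4.trans (by gcongr)
    _ = 16 * (r4 D / D) := by rw [hh]; field_simp; ring
    _ = 16 * (r4 D ^ 3)⁻¹ := by
        congr 1
        have h9 : r4 D ^ 4 = D := r4_pow hD.le
        nth_rw 2 [← h9]
        field_simp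

theorem lintegral_cauchy {q : ℝ} (hq : 0 < q) (c : ℝ) :
    ∫⁻ v : ℝ, ENNReal.ofReal ((q ^ 2 + (v - c) ^ 2)⁻¹) = ENNReal.ofReal (Real.pi / q) := by
  have h1 : Integrable (fun v : ℝ => (1 + ((v - c) / q) ^ 2)⁻¹) :=
    (integrable_inv_one_add_sq.comp_div hq.ne').comp_sub_right c
  have h2 : ∫ v : ℝ, (1 + ((v - c) / q) ^ 2)⁻¹ = q * Real.pi := by
    have h3 : ∫ v : ℝ, (1 + ((v - c) / q) ^ 2)⁻¹ = ∫ v : ℝ, (1 + (v / q) ^ 2)⁻¹ :=
      integral_sub_right_eq_self (μ := volume) (fun v : ℝ => (1 + (v / q) ^ 2)⁻¹) c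
    rw [h3, Measure.integral_comp_div (fun x : ℝ => (1 + x ^ 2)⁻¹) q,
      integral_univ_inv_one_add_sq, abs_of_pos hq, smul_eq_mul]
  have h4 : ∀ v : ℝ, (q ^ 2 + (v - c) ^ 2)⁻¹ = (1 / q ^ 2) * (1 + ((v - c) / q) ^ 2)⁻¹ := by
    intro v
    rw [div_pow, one_div, ← mul_inv]
    congr 1
    field_simp
  rw [← ofReal_integral_eq_lintegral_ofReal]
  · congr 1
    simp_rw [h4]
    rw [integral_const_mul, h2]
    field_simp
  · simp_rw [h4]
    exact h1.const_mul _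
  · exact Eventually.of_forall (fun v => by positivity)

theorem conv4 {N : ℕ} (hN : 0 < N) (a g : ℕ → ℝ) (ha : ∀ j, 0 < a j) (hg : ∀ j, 0 ≤ g j) :
    ((1 / (N : ℝ)) * ∑ j ∈ Finset.range N, g j) ^ 4 ≤
      ∑ j ∈ Finset.range N, ((∑ j ∈ Finset.range N, a j) ^ 3 / (N ^ 4 * a j ^ 3)) * g j ^ 4 := by
  have hN' : (0 : ℝ) < N := by exact_mod_cast hN
  have hT0 : 0 < ∑ j ∈ Finset.range N, a j :=
    Finset.sum_pos (fun j _ => ha j) ⟨0, Finset.mem_range.2 hN⟩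
  set T : ℝ := ∑ j ∈ Finset.range N, a j with hT
  have hconv := Real.pow_arith_mean_le_arith_mean_pow (Finset.range N)
    (fun j => a j / T) (fun j => T / (N * a j) * g j)
    (fun j _ => div_nonneg (ha j).le hT0.le)
    (by rw [← Finset.sum_div, div_self hT0.ne'])
    (fun j _ => mul_nonneg (div_nonneg hT0.le (mul_nonneg hN'.le (ha j).le)) (hg j)) 4
  have e1 : ∑ j ∈ Finset.range N, a j / T * (T / (N * a j) * g j) =
      (1 / (N : ℝ)) * ∑ j ∈ Finset.range N, g j := by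
    rw [Finset.mul_sum]
    apply Finset.sum_congr rfl
    intro j _
    have := (ha j).ne'
    have := hT0.ne'
    field_simp
  rw [e1] at hconv
  refine hconv.trans (Finset.sum_le_sum ?_)
  intro j _
  have := (ha j).ne'
  have := hT0.ne'
  apply le_of_eq
  field_simp

theorem pt4 {ρ u v : ℝ} (hρ0 : 0 < ρ) (w : ℂ) (hz : ρ ≤ ‖(⟨u, v⟩ : ℂ) - w‖) :
    (‖(⟨u, v⟩ : ℂ) - w‖⁻¹) ^ 4 ≤ 4 / (max ρ |u - w.re|) ^ 2 *
      ((max ρ |u - w.re|) ^ 2 + (v - w.im) ^ 2)⁻¹ := by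
  have hq0 : 0 < max ρ |u - w.re| := lt_max_of_lt_left hρ0
  have hnpos : 0 < ‖(⟨u, v⟩ : ℂ) - w‖ := hρ0.trans_le hz
  have hsq : ‖(⟨u, v⟩ : ℂ) - w‖ ^ 2 = (u - w.re) ^ 2 + (v - w.im) ^ 2 := by
    rw [← Complex.normSq_eq_norm_sq, Complex.normSq_apply]
    simp only [Complex.sub_re, Complex.sub_im]
    ring
  have hq1 : max ρ |u - w.re| ≤ ‖(⟨u, v⟩ : ℂ) - w‖ := by
    apply max_le hz
    have := Complex.abs_re_le_norm ((⟨u, v⟩ : ℂ) - w)
    simpa using this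
  set q := max ρ |u - w.re|
  set n := ‖(⟨u, v⟩ : ℂ) - w‖
  have hq2 : q ^ 2 ≤ n ^ 2 := by gcongr
  have hq3 : (q ^ 2 + (v - w.im) ^ 2) / 2 ≤ n ^ 2 := by
    have : (v - w.im) ^ 2 ≤ n ^ 2 := by
      rw [hsq]
      have : 0 ≤ (u - w.re) ^ 2 := sq_nonneg _
      linarith
    linarith
  have h5 : (n⁻¹) ^ 4 = (n ^ 2)⁻¹ * (n ^ 2)⁻¹ := by
    rw [inv_pow, ← mul_inv]; ring_nf
  rw [h5]
  calc (n ^ 2)⁻¹ * (n ^ 2)⁻¹
      ≤ (q ^ 2)⁻¹ * ((q ^ 2 + (v - w.im) ^ 2) / 2)⁻¹ := by gcongr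
    _ = 2 / q ^ 2 * (q ^ 2 + (v - w.im) ^ 2)⁻¹ := by
        rw [inv_div]; ring
    _ ≤ 4 / q ^ 2 * (q ^ 2 + (v - w.im) ^ 2)⁻¹ := by
        gcongr
        norm_num

theorem weights_sum {N : ℕ} (hN : 0 < N) {D ρ : ℝ} (hD : 0 < D) (hρ0 : 0 < ρ) (hρ : D / N ≤ ρ)
    (u : ℝ) (q a : ℕ → ℝ) (hq : ∀ j, q j = max ρ |u - j * (D / N)|)
    (ha : ∀ j, a j = (r4 (q j) ^ 3)⁻¹) :
    ∑ j ∈ Finset.range N, ((∑ j ∈ Finset.range N, a j) ^ 3 / (N ^ 4 * a j ^ 3) * (4 / q j ^ 2)) *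
        (Real.pi / q j) ≤ 4 * Real.pi * 16 ^ 4 / D ^ 3 := by
  have hN' : (0 : ℝ) < N := by exact_mod_cast hN
  have hq0 : ∀ j, 0 < q j := fun j => by rw [hq]; exact lt_max_of_lt_left hρ0
  have ha0 : ∀ j, 0 < a j := fun j => by
    have := r4_pos (hq0 j)
    rw [ha]
    positivity
  have hT0 : 0 < ∑ j ∈ Finset.range N, a j :=
    Finset.sum_pos (fun j _ => ha0 j) ⟨0, Finset.mem_range.2 hN⟩
  have hTle : (1 / (N : ℝ)) * ∑ j ∈ Finset.range N, a j ≤ 16 * (r4 D ^ 3)⁻¹ := by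
    have := sum_kernel_le hN hD hρ u
    have h2 : ∀ j ∈ Finset.range N, a j = (r4 (max ρ |u - j * (D / N)|) ^ 3)⁻¹ := by
      intro j _
      rw [ha, hq]
    rw [Finset.sum_congr rfl h2]
    exact this
  set T : ℝ := ∑ j ∈ Finset.range N, a j with hT
  have h6 : ∀ j ∈ Finset.range N, (T ^ 3 / (N ^ 4 * a j ^ 3) * (4 / q j ^ 2)) *
      (Real.pi / q j) = 4 * Real.pi * (T ^ 3 / N ^ 4) * a j := by
    intro j _
    have haj := (ha0 j).ne'
    have hqj := (hq0 j).ne'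
    have h7 : a j ^ 4 = (q j ^ 3)⁻¹ := by
      rw [ha, inv_pow, ← pow_mul, show 3 * 4 = 4 * 3 by norm_num, pow_mul, r4_pow (hq0 j).le]
    have h8 : q j ^ 3 = (a j ^ 4)⁻¹ := by rw [h7, inv_inv]
    calc (T ^ 3 / (N ^ 4 * a j ^ 3) * (4 / q j ^ 2)) * (Real.pi / q j)
        = 4 * Real.pi * (T ^ 3 / N ^ 4) * (1 / (a j ^ 3 * q j ^ 3)) := by
          field_simp
      _ = 4 * Real.pi * (T ^ 3 / N ^ 4) * a j := by
          rw [h8]; field_simp
  rw [Finset.sum_congr rfl h6, ← Finset.mul_sum, ← hT]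
  have hrD : 0 < r4 D := r4_pos hD
  have h9 : ((1 / (N : ℝ)) * T) ^ 4 ≤ (16 * (r4 D ^ 3)⁻¹) ^ 4 := by
    apply pow_le_pow_left₀ (by positivity) hTle
  have h10 : (16 * (r4 D ^ 3)⁻¹) ^ 4 = 16 ^ 4 / D ^ 3 := by
    rw [mul_pow, inv_pow, ← pow_mul, show 3 * 4 = 4 * 3 by norm_num, pow_mul, r4_pow hD.le]
    rfl
  rw [h10] at h9
  calc 4 * Real.pi * (T ^ 3 / N ^ 4) * T = 4 * Real.pi * ((1 / (N : ℝ)) * T) ^ 4 := by
        field_simp
    _ ≤ 4 * Real.pi * (16 ^ 4 / D ^ 3) :=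
        mul_le_mul_of_nonneg_left h9 (by have := Real.pi_pos; positivity)
    _ = _ := by ring

/-- The averaged Cauchy kernel with well-spread real parts, `L^4` in the vertical variable. -/
theorem vertical_bound {N : ℕ} (hN : 0 < N) {D ρ : ℝ} (hD : 0 < D) (hρ0 : 0 < ρ) (hρ : D / N ≤ ρ)
    (w : ℕ → ℂ) (hw : ∀ j < N, (w j).re = j * (D / N)) (u : ℝ) (A : Set ℂ)
    (hA : ∀ z ∈ A, ∀ j < N, ρ ≤ ‖z - w j‖) :
    ∫⁻ v : ℝ, ENNReal.ofReal ((A.indicator
      (fun z => (1 / (N : ℝ)) * ∑ j ∈ Finset.range N, ‖z - w j‖⁻¹) ⟨u, v⟩) ^ 4) ≤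
      ENNReal.ofReal (4 * Real.pi * 16 ^ 4 / D ^ 3) := by
  have hN' : (0 : ℝ) < N := by exact_mod_cast hN
  obtain ⟨q, hq⟩ : ∃ q : ℕ → ℝ, ∀ j, q j = max ρ |u - j * (D / N)| := ⟨_, fun _ => rfl⟩
  have hq0 : ∀ j, 0 < q j := fun j => by rw [hq]; exact lt_max_of_lt_left hρ0
  obtain ⟨a, ha⟩ : ∃ a : ℕ → ℝ, ∀ j, a j = (r4 (q j) ^ 3)⁻¹ := ⟨_, fun _ => rfl⟩
  have ha0 : ∀ j, 0 < a j := fun j => by
    have := r4_pos (hq0 j)
    rw [ha]
    positivity
  have hsum := weights_sum hN hD hρ0 hρ u q a hq ha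
  have hT0 : 0 < ∑ j ∈ Finset.range N, a j :=
    Finset.sum_pos (fun j _ => ha0 j) ⟨0, Finset.mem_range.2 hN⟩
  have hc4 := fun g hg => conv4 hN a g ha0 hg
  obtain ⟨c, hc⟩ : ∃ c : ℕ → ℝ, ∀ j, c j = (∑ j ∈ Finset.range N, a j) ^ 3 / (N ^ 4 * a j ^ 3) :=
    ⟨_, fun _ => rfl⟩
  have hc0 : ∀ j, 0 ≤ c j := fun j => by
    have := ha0 j
    rw [hc]
    positivity
  simp only [← hc] at hsum hc4
  -- pointwise bound
  have hpt : ∀ v : ℝ, (A.indicator
      (fun z => (1 / (N : ℝ)) * ∑ j ∈ Finset.range N, ‖z - w j‖⁻¹) ⟨u, v⟩) ^ 4 ≤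
      ∑ j ∈ Finset.range N, c j * (4 / q j ^ 2 * (q j ^ 2 + (v - (w j).im) ^ 2)⁻¹) := by
    intro v
    by_cases hz : (⟨u, v⟩ : ℂ) ∈ A
    · rw [indicator_of_mem hz]
      refine (hc4 (fun j => ‖(⟨u, v⟩ : ℂ) - w j‖⁻¹) (fun j => by positivity)).trans ?_
      apply Finset.sum_le_sum
      intro j hj
      have hj' := Finset.mem_range.1 hj
      have h4 := pt4 hρ0 (w j) (hA _ hz j hj')
      rw [hw j hj', ← hq] at h4
      exact mul_le_mul_of_nonneg_left h4 (hc0 j)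
    · rw [indicator_of_notMem hz]
      rw [zero_pow (by norm_num)]
      apply Finset.sum_nonneg
      intro j _
      have haj := hc0 j
      have hqj := hq0 j
      positivity
  have hqpos : ∀ j, 0 ≤ c j * (4 / q j ^ 2) := fun j => by
    have haj := hc0 j
    have hqj := hq0 j
    positivity
  calc ∫⁻ v : ℝ, ENNReal.ofReal ((A.indicator
      (fun z => (1 / (N : ℝ)) * ∑ j ∈ Finset.range N, ‖z - w j‖⁻¹) ⟨u, v⟩) ^ 4)
      ≤ ∫⁻ v : ℝ, ∑ j ∈ Finset.range N, ENNReal.ofReal (c j * (4 / q j ^ 2)) *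
        ENNReal.ofReal ((q j ^ 2 + (v - (w j).im) ^ 2)⁻¹) := by
        apply lintegral_mono
        intro v
        refine (ENNReal.ofReal_le_ofReal (hpt v)).trans ?_
        rw [ENNReal.ofReal_sum_of_nonneg]
        · apply Finset.sum_le_sum
          intro j _
          rw [← ENNReal.ofReal_mul (hqpos j), mul_assoc]
        · intro j _
          have haj := hc0 j
          have hqj := hq0 j
          positivity
    _ = ∑ j ∈ Finset.range N, ENNReal.ofReal (c j * (4 / q j ^ 2)) *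
        ENNReal.ofReal (Real.pi / q j) := by
        rw [lintegral_finset_sum]
        · apply Finset.sum_congr rfl
          intro j _
          rw [lintegral_const_mul, lintegral_cauchy (hq0 j)]
          fun_prop
        · intro j _
          fun_prop
    _ = ENNReal.ofReal (∑ j ∈ Finset.range N, (c j * (4 / q j ^ 2)) * (Real.pi / q j)) := by
        rw [ENNReal.ofReal_sum_of_nonneg]
        · apply Finset.sum_congr rfl
          intro j _
          rw [← ENNReal.ofReal_mul (hqpos j)]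
        · intro j _
          have := hqpos j
          have := hq0 j
          have := Real.pi_pos
          positivity
    _ ≤ _ := ENNReal.ofReal_le_ofReal hsum

end Pool.Agent.H76Brennan
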