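import Pool.Agent.H76Brennan.Trans

set_option autoImplicit false
set_option linter.unusedSectionVars false
set_option linter.style.haveILetI false
open Complex Set Metric Filter Topology MeasureTheory
open scoped ENNReal NNReal

namespace Pool.Agent.H76Brennan

section
variable {μ : Measure ℂ} [IsFiniteMeasure μ] {q : ℝ≥0∞} [Fact (1 ≤ q)]

theorem cauchy_meas (ζ : ℂ) : Measurable (fun z : ℂ => (z - ζ)⁻¹) := by fun_prop

theorem pow_memLp {R : ℝ} (hsupp : ∀ᵐ z ∂μ, ‖z‖ < R) (n : ℕ) :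
    MemLp (fun z : ℂ => z ^ n) q μ := by
  refine memLp_of_bdd (B := R ^ n) (by fun_prop) ?_
  filter_upwards [hsupp] with z hz
  rw [norm_pow]
  gcongr

theorem cauchy_bdd {R δ : ℝ} (hδ : 0 < δ) (hsupp : ∀ᵐ z ∂μ, ‖z‖ < R) {ζ : ℂ}
    (hζ : R + δ ≤ ‖ζ‖) : ∀ᵐ z ∂μ, ‖(z - ζ)⁻¹‖ ≤ 1 / δ := by
  filter_upwards [hsupp] with z hz
  rw [norm_inv, one_div]
  have h1 : ‖ζ‖ ≤ ‖z - ζ‖ + ‖z‖ := by
    calc ‖ζ‖ = ‖-(z - ζ) + z‖ := by congr 1; ring
      _ ≤ ‖-(z - ζ)‖ + ‖z‖ := norm_add_le _ _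
      _ = _ := by rw [norm_neg]
  gcongr
  linarith

theorem val_cauchy_zero (Λ : Lp ℂ q μ →L[ℂ] ℂ) {R : ℝ} (hR : 0 < R)
    (hsupp : ∀ᵐ z ∂μ, ‖z‖ < R) (hΛ : ∀ n : ℕ, val Λ (fun z => z ^ n) = 0) {ζ : ℂ}
    (hζ : 2 * R ≤ ‖ζ‖) : val Λ (fun z => (z - ζ)⁻¹) = 0 := by
  have hζ0 : ζ ≠ 0 := by
    rw [← norm_pos_iff]; linarith
  have hmem : MemLp (fun z : ℂ => (z - ζ)⁻¹) q μ :=
    memLp_of_bdd (cauchy_meas ζ).aestronglyMeasurable (cauchy_bdd (δ := R) hR hsupp (by linarith))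
  -- the polynomials
  have hP : ∀ n : ℕ, val Λ (fun z => ∑ k ∈ Finset.range n, (-(ζ ^ (k + 1))⁻¹) * z ^ k) = 0 := by
    intro n
    rw [val_sum Λ _ (fun k _ => (pow_memLp hsupp k).const_mul _)]
    apply Finset.sum_eq_zero
    intro k _
    rw [val_smul Λ (pow_memLp hsupp k), hΛ, mul_zero]
  have hPm : ∀ n : ℕ, MemLp (fun z : ℂ => ∑ k ∈ Finset.range n, (-(ζ ^ (k + 1))⁻¹) * z ^ k) q μ :=
    fun n => memLp_finsetSum _ (fun k _ => (pow_memLp hsupp k).const_mul _)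
  have hbound : ∀ n : ℕ, ‖val Λ (fun z => (z - ζ)⁻¹)‖ ≤
      Qc Λ * ((1 / 2 : ℝ) ^ n * (1 / R)) := by
    intro n
    have h1 : val Λ (fun z => (z - ζ)⁻¹) = val Λ (fun z => (z - ζ)⁻¹ -
        ∑ k ∈ Finset.range n, (-(ζ ^ (k + 1))⁻¹) * z ^ k) := by
      rw [val_sub Λ hmem (hPm n), hP n, sub_zero]
    rw [h1]
    have h2 : ∀ᵐ z ∂μ, ‖(z - ζ)⁻¹ - ∑ k ∈ Finset.range n, (-(ζ ^ (k + 1))⁻¹) * z ^ k‖ ≤
        (1 / 2 : ℝ) ^ n * (1 / R) := by
      filter_upwards [hsupp, cauchy_bdd (μ := μ) (δ := R) hR hsupp (by linarith)] with z hz hb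
      have hne : z - ζ ≠ 0 := by
        intro h0
        rw [sub_eq_zero.1 h0] at hz
        linarith
      have hx1 : z / ζ ≠ 1 := by
        intro h0
        apply hne
        rw [div_eq_one_iff_eq hζ0] at h0
        rw [h0, sub_self]
      have e1 : ∑ k ∈ Finset.range n, (-(ζ ^ (k + 1))⁻¹) * z ^ k =
          -(1 / ζ) * ∑ k ∈ Finset.range n, (z / ζ) ^ k := by
        rw [Finset.mul_sum]
        apply Finset.sum_congr rfl
        intro k _
        rw [div_pow, pow_succ]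
        field_simp
      have e2 : (z - ζ)⁻¹ - ∑ k ∈ Finset.range n, (-(ζ ^ (k + 1))⁻¹) * z ^ k =
          (z / ζ) ^ n * (z - ζ)⁻¹ := by
        rw [e1, geom_sum_eq hx1]
        have hne2 : z / ζ - 1 ≠ 0 := sub_ne_zero.2 hx1
        have e3 : z / ζ - 1 = (z - ζ) / ζ := by field_simp
        rw [e3]
        field_simp
        ring
      rw [e2, norm_mul, norm_pow, norm_div]
      have e4 : ‖z‖ / ‖ζ‖ ≤ 1 / 2 := by
        rw [div_le_iff₀ (by linarith)]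
        linarith
      gcongr
    have h3 := eLpNorm_le_bdd (q := q) h2
    refine (norm_val_le Λ _).trans ?_
    have hfin : μ univ ^ q.toReal⁻¹ ≠ ∞ :=
      ENNReal.rpow_ne_top_of_nonneg (by positivity) (measure_ne_top μ univ)
    have h4 := ENNReal.toReal_mono (ENNReal.mul_ne_top hfin ENNReal.ofReal_ne_top) h3
    rw [ENNReal.toReal_mul, ENNReal.toReal_ofReal (by positivity)] at h4
    unfold Qc
    rw [mul_assoc]
    gcongr
  have hlim : Tendsto (fun n : ℕ => Qc Λ * ((1 / 2 : ℝ) ^ n * (1 / R))) atTop (𝓝 0) := by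
    have h5 : Tendsto (fun n : ℕ => (1 / 2 : ℝ) ^ n) atTop (𝓝 0) :=
      tendsto_pow_atTop_nhds_zero_of_lt_one (by norm_num) (by norm_num)
    have h6 := (h5.mul_const (1 / R)).const_mul (Qc Λ)
    simpa using h6
  have := ge_of_tendsto' hlim hbound
  exact norm_le_zero_iff.1 this

/-- Smallness of `F_K` far away. -/
theorem FK_far (Λ : Lp ℂ q μ →L[ℂ] ℂ) {p : ℝ} (hq : q = ENNReal.ofReal p) (hp1 : 1 ≤ p)
    {R : ℝ} (hR : 0 < R)
    (hsupp : ∀ᵐ z ∂μ, ‖z‖ < R) (hΛ : ∀ n : ℕ, val Λ (fun z => z ^ n) = 0) {K : Set ℂ}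
    (hK : IsCompact K) {m : ℝ} (hm0 : 0 ≤ m) (hm : μ Kᶜ ≤ ENNReal.ofReal m) {ζ : ℂ}
    (hζ : 3 * R ≤ ‖ζ‖) (hζK : ζ ∉ K) : ‖FK Λ K ζ‖ ≤ ‖Λ‖ * (m ^ (1 / p) * (1 / (2 * R))) := by
  have hp0 : 0 < p := by linarith
  have hmem : MemLp (fun z : ℂ => (z - ζ)⁻¹) q μ :=
    memLp_of_bdd (cauchy_meas ζ).aestronglyMeasurable (cauchy_bdd (δ := R) hR hsupp (by linarith))
  have h1 : FK Λ K ζ = val Λ (fun z => ker K ζ z - (z - ζ)⁻¹) := by
    rw [val_sub Λ (ker_memLp hK hζK) hmem, val_cauchy_zero Λ hR hsupp hΛ (by linarith), sub_zero]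
    rfl
  rw [h1]
  apply norm_val_le_of_le Λ (by positivity)
  have h2 : (fun z => ker K ζ z - (z - ζ)⁻¹) = Kᶜ.indicator (fun z => -(z - ζ)⁻¹) := by
    funext z
    by_cases hz : z ∈ K
    · rw [ker, indicator_of_mem hz, indicator_of_notMem (show z ∉ Kᶜ from fun h => h hz), sub_self]
    · rw [ker, indicator_of_notMem hz, indicator_of_mem (show z ∈ Kᶜ from hz), zero_sub]
  rw [h2, eLpNorm_indicator_eq_eLpNorm_restrict hK.measurableSet.compl]
  have h3 : ∀ᵐ z ∂(μ.restrict Kᶜ), ‖-(z - ζ)⁻¹‖ ≤ 1 / (2 * R) := by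
    apply ae_restrict_of_ae
    filter_upwards [cauchy_bdd (μ := μ) (δ := 2 * R) (by positivity) hsupp (ζ := ζ)
      (by linarith)] with z hz
    rwa [norm_neg]
  refine (eLpNorm_le_of_ae_bound h3).trans ?_
  rw [Measure.restrict_apply_univ, hq, ENNReal.toReal_ofReal hp0.le, ENNReal.ofReal_mul (by positivity)]
  gcongr
  rw [← ENNReal.ofReal_rpow_of_nonneg hm0 (by positivity), one_div]
  gcongr

end

section
variable {Ω : Set ℂ} {φ ψ : ℂ → ℂ} {R : ℝ}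
variable {μ : Measure ℂ} [IsFiniteMeasure μ] {q : ℝ≥0∞} [Fact (1 ≤ q)]

/-- The extremal point: the geometry behind the starting step. -/
theorem Conf.extremal (h : Conf Ω φ ψ R) {t : ℝ} (ht : 0 < t) (ht1 : t ≤ 1) :
    ∃ y ρ : ℝ, ‖ψ (1 / 2) - ψ 0‖ ≤ ρ ∧ ρ ≤ 2 * R ∧
      ‖ψ (Complex.exp (((-(t / 2) : ℝ) : ℂ) + y * I)) - ψ 0‖ = ρ ∧
      ∀ z ∈ Kt Ω φ t, ‖z - ψ 0‖ ≤ ρ * Real.exp (-(t / 2)) := by
  set r : ℝ := Real.exp (-(t / 2)) with hr
  have hr0 : 0 < r := Real.exp_pos _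
  have hr1 : r < 1 := by rw [hr, Real.exp_lt_one_iff]; linarith
  have hcl : closedBall (0 : ℂ) r ⊆ ball 0 1 := closedBall_subset_ball hr1
  have hcont : ContinuousOn (fun a => ‖ψ a - ψ 0‖) (sphere (0 : ℂ) r) := by
    apply ContinuousOn.norm
    apply ContinuousOn.sub _ continuousOn_const
    exact h.ψd.continuousOn.mono (sphere_subset_closedBall.trans hcl)
  obtain ⟨a₁, ha₁, hmax⟩ := (isCompact_sphere (0 : ℂ) r).exists_isMaxOn
    ⟨(r : ℂ), by simp [hr0.le]⟩ hcont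
  have ha₁n : ‖a₁‖ = r := by simpa using ha₁
  set ρ := ‖ψ a₁ - ψ 0‖ with hρ
  have hmm : ∀ a : ℂ, ‖a‖ ≤ r → ‖ψ a - ψ 0‖ ≤ ρ := by
    intro a ha
    have hdc : DiffContOnCl ℂ (fun a => ψ a - ψ 0) (ball 0 r) := by
      apply DifferentiableOn.diffContOnCl
      rw [closure_ball _ hr0.ne']
      exact (h.ψd.mono hcl).sub_const _
    refine Complex.norm_le_of_forall_mem_frontier_norm_le isBounded_ball hdc ?_
      (z := a) ?_
    · intro w hw
      exact hmax (frontier_ball_subset_sphere hw)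
    · rw [closure_ball _ hr0.ne']
      simpa using ha
  have ha₁0 : a₁ ≠ 0 := by rw [← norm_pos_iff, ha₁n]; exact hr0
  refine ⟨Complex.arg a₁, ρ, ?_, ?_, ?_, ?_⟩
  · apply hmm
    have h1 : (1 : ℝ) / 2 ≤ r := by
      have := Real.add_one_le_exp (-(t / 2))
      rw [← hr] at this
      linarith
    simpa using h1
  · rw [hρ]
    calc ‖ψ a₁ - ψ 0‖ ≤ ‖ψ a₁‖ + ‖ψ 0‖ := norm_sub_le _ _
      _ ≤ 2 * R := by
          have e1 := h.bddψ (a := a₁) (by rw [ha₁n]; exact hr1)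
          have e2 := h.bddψ (a := 0) (by simp)
          linarith
  · rw [hρ]
    congr 3
    rw [Complex.exp_add, ← Complex.ofReal_exp, ← hr, ← ha₁n]
    exact Complex.norm_mul_exp_arg_mul_I a₁
  · intro z hz
    rw [h.Kt_eq ht] at hz
    obtain ⟨b, hb, rfl⟩ := hz
    have hb' : ‖b‖ ≤ Real.exp (-t) := by simpa using hb
    have hbr : b ∈ ball (0 : ℂ) r := by
      rw [mem_ball, dist_zero_right]
      refine hb'.trans_lt (Real.exp_lt_exp.2 (by linarith))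
    have h2 := Complex.dist_le_div_mul_dist_of_mapsTo_ball (f := ψ) (c := 0) (R₁ := r) (R₂ := ρ)
      (h.ψd.mono (ball_subset_closedBall.trans hcl)) (by
        intro a ha
        rw [mem_closedBall, dist_eq_norm]
        apply hmm
        rw [mem_ball, dist_zero_right] at ha
        exact ha.le) hbr
    rw [dist_eq_norm, dist_zero_right] at h2
    refine h2.trans ?_
    have hρ0 : 0 ≤ ρ := norm_nonneg _
    calc ρ / r * ‖b‖ ≤ ρ / r * Real.exp (-t) := by gcongr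
      _ = ρ * Real.exp (-(t / 2)) := by
          rw [hr, div_eq_mul_inv, ← Real.exp_neg, mul_assoc, ← Real.exp_add]
          congr 2
          ring

/-- Smallness of `F_t` outside a disk. -/
theorem Conf.start_outer (h : Conf Ω φ ψ R) (Λ : Lp ℂ q μ →L[ℂ] ℂ) {p : ℝ}
    (hq : q = ENNReal.ofReal p) (hp1 : 1 ≤ p) (hp4 : p ≤ 4) (hμΩ : ∀ᵐ z ∂μ, z ∈ Ω)
    (hΛ : ∀ n : ℕ, val Λ (fun z => z ^ n) = 0) :
    ∃ C L : ℝ, 0 < C ∧ 0 < L ∧ ∀ t : ℝ, 0 < t → t ≤ 1 → ∀ hh : ℝ, C ≤ hh →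
      μ.restrict (Ω \ Kt Ω φ t) ≤ ENNReal.ofReal (Real.exp (-hh)) • (volume : Measure ℂ) →
      ∀ ρ : ℝ, ‖ψ (1 / 2) - ψ 0‖ ≤ ρ → ρ ≤ 2 * R →
      (∀ z ∈ Kt Ω φ t, ‖z - ψ 0‖ ≤ ρ * Real.exp (-(t / 2))) →
      ∀ ζ : ℂ, ρ * Real.exp (-(t / 8)) ≤ ‖ζ - ψ 0‖ → ‖ζ - ψ 0‖ ≤ 4 * R →
        ‖FK Λ (Kt Ω φ t) ζ‖ ≤ Real.exp (C / t - t * hh / L) := by
  have hR := h.Rpos
  have hQ := Qc_nonneg Λ
  set d₁ : ℝ := ‖ψ (1 / 2) - ψ 0‖ with hd₁
  have hd₁0 : 0 < d₁ := by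
    rw [hd₁, norm_pos_iff, sub_ne_zero]
    intro h0
    have e1 := h.right (1 / 2) (by norm_num)
    have e2 := h.right 0 (by simp)
    rw [h0, e2] at e1
    norm_num at e1
  have hd₁R : d₁ ≤ 2 * R := by
    rw [hd₁]
    calc ‖ψ (1 / 2) - ψ 0‖ ≤ ‖ψ (1 / 2)‖ + ‖ψ 0‖ := norm_sub_le _ _
      _ ≤ 2 * R := by
          have e1 := h.bddψ (a := 1 / 2) (by norm_num)
          have e2 := h.bddψ (a := 0) (by simp)
          linarith
  set V : ℝ := (volume (ball (0 : ℂ) R)).toReal with hV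
  have hV0 : 0 ≤ V := ENNReal.toReal_nonneg
  set G : ℝ := ‖Λ‖ * ((1 + V) * (1 / (2 * R))) with hG
  have hG0 : 0 ≤ G := by rw [hG]; positivity
  set L₀ : ℝ := Real.log (4 * R) - Real.log d₁ + 1 / 4 with hL₀
  have hlogd : Real.log d₁ ≤ Real.log (4 * R) := Real.log_le_log hd₁0 (by linarith)
  have hL₀0 : 0 < L₀ := by rw [hL₀]; linarith
  set Ca : ℝ := 12 * Qc Λ / d₁ with hCa
  have hCa0 : 0 ≤ Ca := by positivity
  refine ⟨Ca + 8 * G + 1, 64 * L₀, by positivity, by positivity, ?_⟩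
  intro t ht ht1 hh hhh hμ ρ hρ1 hρ2 hK ζ hζ1 hζ2
  have hρ0 : 0 < ρ := lt_of_lt_of_le hd₁0 hρ1
  have hh0 : 0 < hh := lt_of_lt_of_le (by positivity) hhh
  have hp0 : 0 < p := by linarith
  set r₁ : ℝ := ρ * Real.exp (-(t / 4)) with hr₁
  have hr₁0 : 0 < r₁ := by positivity
  have hex4 : Real.exp (-(t / 4)) ≤ 1 := by rw [Real.exp_le_one_iff]; linarith
  have hr₁2 : r₁ < 4 * R := by
    calc r₁ ≤ ρ * 1 := by rw [hr₁]; gcongr
      _ < 4 * R := by linarith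
  have hex84 : Real.exp (-(t / 4)) ≤ Real.exp (-(t / 8)) := Real.exp_le_exp.2 (by linarith)
  have hζr₁ : r₁ ≤ ‖ζ - ψ 0‖ := by
    refine le_trans ?_ hζ1
    rw [hr₁]
    gcongr
  have hgap : ∀ w : ℂ, r₁ ≤ ‖w - ψ 0‖ → ∀ z ∈ Kt Ω φ t, d₁ * t / 12 ≤ ‖z - w‖ := by
    intro w hw z hz
    have h1 := hK z hz
    have h2 : ‖w - ψ 0‖ ≤ ‖z - w‖ + ‖z - ψ 0‖ := by
      calc ‖w - ψ 0‖ = ‖-(z - w) + (z - ψ 0)‖ := by congr 1; ring
        _ ≤ ‖-(z - w)‖ + ‖z - ψ 0‖ := norm_add_le _ _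
        _ = _ := by rw [norm_neg]
    have h3 := exp_diff_ge (u := -(t / 4)) (v := -(t / 2)) (by linarith) (by linarith)
    have h4 : ρ * (t / 12) ≤ ρ * (Real.exp (-(t / 4)) - Real.exp (-(t / 2))) := by
      gcongr
      linarith
    have h5 : d₁ * t / 12 ≤ ρ * (t / 12) := by
      have : d₁ * (t / 12) ≤ ρ * (t / 12) := by gcongr
      linarith
    rw [mul_sub] at h4
    linarith
  have hd0 : 0 < d₁ * t / 12 := by positivity
  have hoff : ∀ w : ℂ, r₁ ≤ ‖w - ψ 0‖ → w ∉ Kt Ω φ t := by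
    intro w hw hwK
    have := hgap w hw w hwK
    rw [sub_self, norm_zero] at this
    linarith
  -- inner bound
  have hinner : ∀ w : ℂ, ‖w - ψ 0‖ = r₁ → ‖FK Λ (Kt Ω φ t) w‖ ≤ Real.exp (Ca / t) := by
    intro w hw
    refine (norm_FK_le Λ hd0 (hgap w hw.ge)).trans ?_
    have e1 : ‖Λ‖ * (μ univ ^ q.toReal⁻¹).toReal / (d₁ * t / 12) = Ca / t := by
      rw [hCa]
      unfold Qc
      field_simp
    rw [e1]
    have := Real.add_one_le_exp (Ca / t)
    linarith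
  -- outer bound
  have hμK : μ (Kt Ω φ t)ᶜ ≤ ENNReal.ofReal (Real.exp (-hh) * V) := by
    have e1 : μ (Kt Ω φ t)ᶜ = μ (Ω \ Kt Ω φ t) := by
      apply measure_congr
      filter_upwards [hμΩ] with z hz
      apply propext
      constructor
      · intro h1; exact ⟨hz, h1⟩
      · intro h1; exact h1.2
    have e2 : μ (Ω \ Kt Ω φ t) ≤ (μ.restrict (Ω \ Kt Ω φ t)) Ω := by
      rw [Measure.restrict_apply h.isOpen.measurableSet, inter_eq_right.2 sdiff_subset]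
    rw [e1]
    refine e2.trans ((Measure.le_iff'.1 hμ Ω).trans ?_)
    rw [Measure.smul_apply, smul_eq_mul, ENNReal.ofReal_mul (Real.exp_pos _).le, hV,
      ENNReal.ofReal_toReal measure_ball_lt_top.ne]
    gcongr
    intro z hz
    simpa using h.bdd z hz
  have hsupp : ∀ᵐ z ∂μ, ‖z‖ < R := by
    filter_upwards [hμΩ] with z hz
    exact h.bdd z hz
  have houter : ∀ w : ℂ, ‖w - ψ 0‖ = 4 * R → ‖FK Λ (Kt Ω φ t) w‖ ≤ Real.exp (-(hh / 8)) := by
    intro w hw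
    have hw3 : 3 * R ≤ ‖w‖ := by
      have e1 : ‖w - ψ 0‖ ≤ ‖w‖ + ‖ψ 0‖ := norm_sub_le _ _
      have e2 := h.bddψ (a := 0) (by simp)
      linarith
    refine (FK_far Λ hq hp1 hR hsupp hΛ (h.Kt_compact ht) (by positivity) hμK hw3
      (hoff w (by rw [hw]; exact hr₁2.le))).trans ?_
    have e3 : (Real.exp (-hh) * V) ^ (1 / p) ≤ Real.exp (-(hh / 4)) * (1 + V) := by
      rw [Real.mul_rpow (Real.exp_pos _).le hV0, ← Real.exp_mul]
      have hp1' : 1 / p ≤ 1 := by rw [div_le_one hp0]; exact hp1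
      have e4 : V ^ (1 / p) ≤ 1 + V := by
        rcases le_or_gt V 1 with h1 | h1
        · have : V ^ (1 / p) ≤ 1 := Real.rpow_le_one hV0 h1 (by positivity)
          linarith
        · have : V ^ (1 / p) ≤ V ^ (1 : ℝ) := Real.rpow_le_rpow_of_exponent_le h1.le hp1'
          rw [Real.rpow_one] at this
          linarith
      have e5 : Real.exp (-hh * (1 / p)) ≤ Real.exp (-(hh / 4)) := by
        apply Real.exp_le_exp.2
        have : hh / 4 ≤ hh * (1 / p) := by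
          rw [div_eq_mul_one_div]
          gcongr
        linarith
      gcongr
    calc ‖Λ‖ * ((Real.exp (-hh) * V) ^ (1 / p) * (1 / (2 * R)))
        ≤ ‖Λ‖ * (Real.exp (-(hh / 4)) * (1 + V) * (1 / (2 * R))) := by gcongr
      _ = G * Real.exp (-(hh / 4)) := by rw [hG]; ring
      _ ≤ Real.exp (hh / 8) * Real.exp (-(hh / 4)) := by
          gcongr
          have := Real.add_one_le_exp (hh / 8)
          have : 8 * G ≤ hh := by linarith
          linarith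
      _ = Real.exp (-(hh / 8)) := by rw [← Real.exp_add]; congr 1; ring
  have key := three_circles (f := FK Λ (Kt Ω φ t)) (c := ψ 0) hr₁0 hr₁2
    (fun z hz _ => FK_differentiableAt Λ (h.Kt_compact ht) (hoff z hz)) hinner houter hζr₁ hζ2
  set θ : ℝ := (Real.log ‖ζ - ψ 0‖ - Real.log r₁) / (Real.log (4 * R) - Real.log r₁) with hθ
  have hlogr₁ : Real.log r₁ = Real.log ρ - t / 4 := by
    rw [hr₁, Real.log_mul hρ0.ne' (Real.exp_pos _).ne', Real.log_exp]; ring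
  have hlogρ : Real.log d₁ ≤ Real.log ρ := Real.log_le_log hd₁0 hρ1
  have hden0 : 0 < Real.log (4 * R) - Real.log r₁ := by
    have := Real.log_lt_log hr₁0 hr₁2
    linarith
  have hden : Real.log (4 * R) - Real.log r₁ ≤ L₀ := by
    rw [hlogr₁, hL₀]; linarith
  have hnum : t / 8 ≤ Real.log ‖ζ - ψ 0‖ - Real.log r₁ := by
    have e1 := Real.log_le_log (by positivity) hζ1
    rw [Real.log_mul hρ0.ne' (Real.exp_pos _).ne', Real.log_exp] at e1
    rw [hlogr₁]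
    linarith
  have hθ1 : θ ≤ 1 := by
    rw [hθ, div_le_one hden0]
    have := Real.log_le_log (lt_of_lt_of_le hr₁0 hζr₁) hζ2
    linarith
  have hθ2 : t / 8 / L₀ ≤ θ := by
    rw [hθ]
    calc t / 8 / L₀ ≤ t / 8 / (Real.log (4 * R) - Real.log r₁) := by gcongr
      _ ≤ _ := by gcongr
  refine key.trans ?_
  rw [← Real.exp_mul, ← Real.exp_mul, ← Real.exp_add]
  apply Real.exp_le_exp.2
  have hθ0 : 0 ≤ θ := le_trans (by positivity) hθ2
  have e1 : Ca / t * (1 - θ) ≤ (Ca + 8 * G + 1) / t := by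
    calc Ca / t * (1 - θ) ≤ Ca / t * 1 := by
          gcongr
          linarith
      _ = Ca / t := mul_one _
      _ ≤ _ := by gcongr; linarith
  have e2 : t * hh / (64 * L₀) ≤ hh / 8 * θ := by
    calc t * hh / (64 * L₀) = hh / 8 * (t / 8 / L₀) := by field_simp; ring
      _ ≤ _ := by gcongr
  linarith

set_option maxHeartbeats 1000000 in
/-- The starting step. -/
theorem Conf.start_step (h : Conf Ω φ ψ R) (Λ : Lp ℂ q μ →L[ℂ] ℂ) {p : ℝ}
    (hq : q = ENNReal.ofReal p) (hp1 : 1 ≤ p) (hp4 : p ≤ 4) {C : ℝ} (hC : 0 < C)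
    (hsep : SepC ψ C) (hμΩ : ∀ᵐ z ∂μ, z ∈ Ω)
    (hΛ : ∀ n : ℕ, val Λ (fun z => z ^ n) = 0) :
    ∃ C₃ c₃ : ℝ, 0 < C₃ ∧ 0 < c₃ ∧ c₃ ≤ 1 ∧ ∀ t : ℝ, 0 < t → t ≤ 1 → ∀ hh : ℝ, C₃ / t ^ 3 ≤ hh →
      μ.restrict (Ω \ Kt Ω φ t) ≤ ENNReal.ofReal (Real.exp (-hh)) • (volume : Measure ℂ) →
      ∃ y : ℝ, Small (ft Λ Ω φ ψ t) (-(t / 2)) y (c₃ * t ^ 2 * hh) (t / 64) := by
  have hR := h.Rpos
  have hQ := Qc_nonneg Λ
  obtain ⟨Cb, L, hCb, hL, hout⟩ := h.start_outer Λ hq hp1 hp4 hμΩ hΛ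
  set d₁ : ℝ := ‖ψ (1 / 2) - ψ 0‖ with hd₁
  have hd₁0 : 0 < d₁ := by
    rw [hd₁, norm_pos_iff, sub_ne_zero]
    intro h0
    have e1 := h.right (1 / 2) (by norm_num)
    have e2 := h.right 0 (by simp)
    rw [h0, e2] at e1
    norm_num at e1
  have hd₁R : d₁ ≤ 2 * R := by
    rw [hd₁]
    calc ‖ψ (1 / 2) - ψ 0‖ ≤ ‖ψ (1 / 2)‖ + ‖ψ 0‖ := norm_sub_le _ _
      _ ≤ 2 * R := by
          have e1 := h.bddψ (a := 1 / 2) (by norm_num)
          have e2 := h.bddψ (a := 0) (by simp)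
          linarith
  set c₆ : ℝ := d₁ / (256 * R) with hc₆
  have hc₆0 : 0 < c₆ := by positivity
  have hc₆1 : c₆ ≤ 1 / 128 := by
    rw [hc₆, div_le_iff₀ (by positivity)]
    linarith
  set C₁ : ℝ := C + Qc Λ with hC₁
  have hC₁0 : 0 < C₁ := by positivity
  set c₃ : ℝ := min 1 (c₆ / L) with hc₃
  have hc₃0 : 0 < c₃ := by positivity
  set C₃ : ℝ := Cb + 2 * L * Cb + L * C₁ / c₆ with hC₃
  have hC₃0 : 0 < C₃ := by positivity
  refine ⟨C₃, c₃, hC₃0, hc₃0, min_le_left _ _, ?_⟩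
  intro t ht ht1 hh hhh hμ
  have ht3 : t ^ 3 ≤ t := by
    calc t ^ 3 = t * t ^ 2 := by ring
      _ ≤ t * 1 := by
          gcongr
          exact pow_le_one₀ ht.le ht1
      _ = t := mul_one _
  have ht2 : t ^ 3 ≤ t ^ 2 := by
    calc t ^ 3 = t ^ 2 * t := by ring
      _ ≤ t ^ 2 * 1 := by gcongr
      _ = t ^ 2 := mul_one _
  have hbig : ∀ X : ℝ, 0 ≤ X → X ≤ C₃ → X / t ^ 3 ≤ hh := by
    intro X hX hX2
    refine le_trans ?_ hhh
    gcongr
  have hh0 : 0 < hh := lt_of_lt_of_le (by positivity) hhh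
  have hhCb : Cb ≤ hh := by
    have e1 := hbig Cb hCb.le (by rw [hC₃]; have : 0 ≤ 2 * L * Cb + L * C₁ / c₆ := by positivity
                                  linarith)
    refine le_trans ?_ e1
    rw [le_div_iff₀ (by positivity)]
    have : t ^ 3 ≤ 1 := ht3.trans ht1
    nlinarith
  obtain ⟨y, ρ, hρ1, hρ2, hρeq, hρK⟩ := h.extremal ht ht1
  have hρ0 : 0 < ρ := lt_of_lt_of_le hd₁0 hρ1
  have houtt := hout t ht ht1 hh hhCb hμ ρ hρ1 hρ2 hρK
  refine ⟨y, ?_⟩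
  set w₁ : ℂ := ((-(t / 2) : ℝ) : ℂ) + y * I with hw₁
  have hw₁re : w₁.re = -(t / 2) := by simp [hw₁]
  set a₁ : ℂ := Complex.exp w₁ with ha₁
  have ha₁n : ‖a₁‖ = Real.exp (-(t / 2)) := by rw [ha₁, Complex.norm_exp, hw₁re]
  have ha₁1 : ‖a₁‖ < 1 := by rw [ha₁n, Real.exp_lt_one_iff]; linarith
  have hgap : t / 4 ≤ 1 - ‖a₁‖ := by
    have := one_sub_exp_ge (τ := t / 2) (by linarith) (by linarith)
    rw [ha₁n]
    linarith
  -- smallness near w₁
  have hre : ∀ w : ℂ, ‖w - w₁‖ ≤ t / 4 → -(3 * t / 4) ≤ w.re ∧ w.re < 0 := by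
    intro w hw
    have h1 := (Complex.abs_re_le_norm _).trans hw
    rw [Complex.sub_re, hw₁re] at h1
    have h2 := abs_le.1 h1
    constructor <;> linarith [h2.1, h2.2]
  have hc₆t : c₆ * t ^ 2 ≤ t / 128 := by
    calc c₆ * t ^ 2 ≤ 1 / 128 * (t * 1) := by
          have : t ^ 2 ≤ t * 1 := by nlinarith
          gcongr
      _ = t / 128 := by ring
  have hnear : ∀ w : ℂ, ‖w - w₁‖ ≤ c₆ * t ^ 2 →
      ‖ft Λ Ω φ ψ t w‖ ≤ Real.exp (-(t * hh / (2 * L))) := by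
    intro w hw
    have hwre := hre w (by linarith)
    have hdist : ‖Complex.exp w - a₁‖ ≤ 2 * ‖w - w₁‖ := by
      have e1 : Complex.exp w - a₁ = a₁ * (Complex.exp (w - w₁) - 1) := by
        rw [mul_sub, ha₁, ← Complex.exp_add]; ring_nf
      rw [e1, norm_mul]
      calc ‖a₁‖ * ‖Complex.exp (w - w₁) - 1‖ ≤ 1 * (2 * ‖w - w₁‖) := by
            gcongr
            exact Complex.norm_exp_sub_one_le (by linarith)
        _ = _ := one_mul _
    have hball : Complex.exp w ∈ ball a₁ (1 - ‖a₁‖) := by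
      rw [mem_ball, dist_eq_norm]
      linarith
    have hsub : ball a₁ (1 - ‖a₁‖) ⊆ ball 0 1 := by
      intro b hb
      rw [mem_ball, dist_eq_norm] at hb
      rw [mem_ball, dist_zero_right]
      calc ‖b‖ = ‖(b - a₁) + a₁‖ := by congr 1; ring
        _ ≤ ‖b - a₁‖ + ‖a₁‖ := norm_add_le _ _
        _ < 1 := by linarith
    have hS := Complex.dist_le_div_mul_dist_of_mapsTo_ball (f := ψ) (R₂ := 2 * R)
      (h.ψd.mono hsub) (by
        intro b hb
        have hb' : ‖b‖ < 1 := by simpa using hsub hb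
        rw [mem_closedBall, dist_eq_norm]
        calc ‖ψ b - ψ a₁‖ ≤ ‖ψ b‖ + ‖ψ a₁‖ := norm_sub_le _ _
          _ ≤ 2 * R := by linarith [h.bddψ hb', h.bddψ ha₁1]) hball
    rw [dist_eq_norm, dist_eq_norm] at hS
    have hclose : ‖ψ (Complex.exp w) - ψ a₁‖ ≤ ρ * (t / 16) := by
      calc ‖ψ (Complex.exp w) - ψ a₁‖ ≤ 2 * R / (1 - ‖a₁‖) * ‖Complex.exp w - a₁‖ := hS
        _ ≤ 2 * R / (t / 4) * (2 * (c₆ * t ^ 2)) := by
            gcongr
            linarith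
        _ = d₁ * (t / 16) := by rw [hc₆]; field_simp; ring
        _ ≤ ρ * (t / 16) := by gcongr
    have hex : t / 16 ≤ 1 - Real.exp (-(t / 8)) := by
      have := one_sub_exp_ge (τ := t / 8) (by linarith) (by linarith)
      linarith
    have hbig1 : ρ * Real.exp (-(t / 8)) ≤ ‖ψ (Complex.exp w) - ψ 0‖ := by
      have e1 : ρ ≤ ‖ψ (Complex.exp w) - ψ 0‖ + ‖ψ (Complex.exp w) - ψ a₁‖ := by
        rw [← hρeq]
        calc ‖ψ a₁ - ψ 0‖ = ‖(ψ (Complex.exp w) - ψ 0) - (ψ (Complex.exp w) - ψ a₁)‖ := by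
              congr 1; ring
          _ ≤ _ := norm_sub_le _ _
      have e2 : ρ * (t / 16) ≤ ρ * (1 - Real.exp (-(t / 8))) := by gcongr
      rw [mul_sub, mul_one] at e2
      linarith
    have hbig2 : ‖ψ (Complex.exp w) - ψ 0‖ ≤ 4 * R := by
      calc ‖ψ (Complex.exp w) - ψ 0‖ ≤ ‖ψ (Complex.exp w)‖ + ‖ψ 0‖ := norm_sub_le _ _
        _ ≤ 4 * R := by
            linarith [h.bddψ (norm_exp_lt hwre.2), h.bddψ (a := 0) (by simp)]
    refine (houtt _ hbig1 hbig2).trans (Real.exp_le_exp.2 ?_)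
    have e3 := hbig (2 * L * Cb) (by positivity) (by
      rw [hC₃]
      have : 0 ≤ Cb + L * C₁ / c₆ := by positivity
      linarith)
    have e4 : Cb / t ≤ t * hh / (2 * L) := by
      rw [div_le_div_iff₀ ht (by positivity)]
      rw [div_le_iff₀ (by positivity)] at e3
      calc Cb * (2 * L) = 2 * L * Cb := by ring
        _ ≤ hh * t ^ 3 := e3
        _ ≤ hh * t ^ 2 := by gcongr
        _ = t * hh * t := by ring
    have e5 : t * hh / L = 2 * (t * hh / (2 * L)) := by field_simp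
    linarith
  -- three circles
  have hc₃L : c₃ ≤ c₆ / L := min_le_right _ _
  intro s hs
  have hws : ‖(((-(t / 2) : ℝ) : ℂ) + s * I) - w₁‖ = |s - y| := by
    have : (((-(t / 2) : ℝ) : ℂ) + s * I) - w₁ = ((s - y : ℝ) : ℂ) * I := by
      rw [hw₁]; push_cast; ring
    rw [this, norm_mul, Complex.norm_I, mul_one, Complex.norm_real, Real.norm_eq_abs]
  rcases le_or_gt |s - y| (c₆ * t ^ 2) with hcase | hcase
  · refine (hnear _ (by rw [hws]; exact hcase)).trans (Real.exp_le_exp.2 ?_)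
    apply neg_le_neg
    calc c₃ * t ^ 2 * hh ≤ c₆ / L * t ^ 2 * hh := by gcongr
      _ = (c₆ * t) * (t * hh / L) := by field_simp
      _ ≤ 1 / 2 * (t * hh / L) := by
          gcongr
          nlinarith
      _ = t * hh / (2 * L) := by field_simp
  · have hr1 : 0 < c₆ * t ^ 2 := by positivity
    have hr12 : c₆ * t ^ 2 < t / 4 := by linarith
    have key := three_circles (f := ft Λ Ω φ ψ t) (c := w₁) (ε := Real.exp (-(t * hh / (2 * L))))
      (M := Real.exp (C₁ / t)) hr1 hr12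
      (fun w _ hw => h.ft_diff Λ ht (by have := (hre w hw).1; linarith) (hre w hw).2)
      (fun w hw => hnear w hw.le)
      (fun w hw => h.ft_bound Λ hsep ht ht1 (hre w hw.le).2 (hre w hw.le).1)
      (z := ((-(t / 2) : ℝ) : ℂ) + s * I) (by rw [hws]; exact hcase.le)
      (by rw [hws]; linarith)
    rw [hws] at key
    set θ : ℝ := (Real.log |s - y| - Real.log (c₆ * t ^ 2)) /
      (Real.log (t / 4) - Real.log (c₆ * t ^ 2)) with hθ
    have hden0 : 0 < Real.log (t / 4) - Real.log (c₆ * t ^ 2) := by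
      have := Real.log_lt_log hr1 hr12
      linarith
    have hθ0 : 0 ≤ θ := by
      rw [hθ]
      apply div_nonneg _ hden0.le
      have := Real.log_le_log hr1 hcase.le
      linarith
    have hθ1 : 1 - θ = (Real.log (t / 4) - Real.log |s - y|) /
        (Real.log (t / 4) - Real.log (c₆ * t ^ 2)) := by
      rw [hθ]; field_simp; ring
    have hden : Real.log (t / 4) - Real.log (c₆ * t ^ 2) ≤ 1 / (4 * c₆ * t) := by
      rw [← Real.log_div (by positivity) (by positivity)]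
      have e1 : t / 4 / (c₆ * t ^ 2) = 1 / (4 * c₆ * t) := by field_simp
      rw [e1]
      have := Real.log_le_sub_one_of_pos (show 0 < 1 / (4 * c₆ * t) by positivity)
      linarith
    have hnum : 1 ≤ Real.log (t / 4) - Real.log |s - y| := by
      have e1 : Real.log |s - y| ≤ Real.log (t / 64) :=
        Real.log_le_log (lt_trans hr1 hcase) hs
      have e2 : Real.log (t / 4) - Real.log (t / 64) = Real.log 16 := by
        rw [← Real.log_div (by positivity) (by positivity)]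
        congr 1
        field_simp
        norm_num
      have e3 : 1 ≤ Real.log 16 := by
        rw [Real.le_log_iff_exp_le (by norm_num)]
        have := Real.exp_one_lt_d9
        linarith
      linarith
    have hθ2 : 4 * c₆ * t ≤ 1 - θ := by
      rw [hθ1]
      calc 4 * c₆ * t = 1 / (1 / (4 * c₆ * t)) := by rw [one_div_one_div]
        _ ≤ 1 / (Real.log (t / 4) - Real.log (c₆ * t ^ 2)) := by gcongr
        _ ≤ _ := by gcongr
    refine key.trans ?_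
    rw [← Real.exp_mul, ← Real.exp_mul, ← Real.exp_add]
    apply Real.exp_le_exp.2
    have e1 : C₁ / t * θ ≤ C₁ / t := by
      have : θ ≤ 1 := by
        have : 0 ≤ 4 * c₆ * t := by positivity
        linarith
      calc C₁ / t * θ ≤ C₁ / t * 1 := by gcongr
        _ = _ := mul_one _
    have e2 : 2 * (c₆ * t ^ 2 * hh / L) ≤ t * hh / (2 * L) * (1 - θ) := by
      calc 2 * (c₆ * t ^ 2 * hh / L) = t * hh / (2 * L) * (4 * c₆ * t) := by field_simp; ring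
        _ ≤ _ := by gcongr
    have e3 : C₁ / t ≤ c₆ * t ^ 2 * hh / L := by
      have e4 := hbig (L * C₁ / c₆) (by positivity) (by
        rw [hC₃]
        have : 0 ≤ Cb + 2 * L * Cb := by positivity
        linarith)
      rw [div_le_iff₀ (by positivity)] at e4
      rw [div_le_div_iff₀ ht hL]
      calc C₁ * L = c₆ * (L * C₁ / c₆) := by field_simp
        _ ≤ c₆ * (hh * t ^ 3) := by gcongr
        _ = c₆ * t ^ 2 * hh * t := by ring
    have e5 : c₃ * t ^ 2 * hh ≤ c₆ * t ^ 2 * hh / L := by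
      calc c₃ * t ^ 2 * hh ≤ c₆ / L * t ^ 2 * hh := by gcongr
        _ = _ := by ring
    linarith

end

end Pool.Agent.H76Brennan
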