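import Pool.Agent.H76Brennan.Area
import Pool.Agent.H76Brennan.Interp

set_option autoImplicit false
set_option linter.unusedSectionVars false
set_option linter.style.haveILetI false
open Complex Set Metric Filter Topology MeasureTheory
open scoped ENNReal NNReal

namespace Pool.Agent.H76Brennan

/-- First exit of an arc from a disk and the resulting projections. -/
theorem exit_arc {γ : ℝ → ℂ} (hγ : ContinuousOn γ (Icc 0 1)) {D : ℝ} (hD : 0 < D)
    (hfar : D ≤ ‖γ 1 - γ 0‖) :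
    ∃ e : ℂ, ‖e‖ = 1 ∧ ∀ s ∈ Icc (0 : ℝ) D, ∃ τ ∈ Icc (0 : ℝ) 1,
      ‖γ τ - γ 0‖ ≤ D ∧ ((γ τ - γ 0) / e).re = s := by
  have hn : ContinuousOn (fun τ => ‖γ τ - γ 0‖) (Icc 0 1) := (hγ.sub continuousOn_const).norm
  set S : Set ℝ := Icc 0 1 ∩ (fun τ => ‖γ τ - γ 0‖) ⁻¹' (Ici D) with hS
  have hSc : IsCompact S :=
    isCompact_Icc.of_isClosed_subset (hn.preimage_isClosed_of_isClosed isClosed_Icc isClosed_Ici)
      inter_subset_left
  have hSne : S.Nonempty := ⟨1, ⟨by simp, hfar⟩⟩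
  obtain ⟨τ₁, hτ₁, hmin⟩ := hSc.exists_isLeast hSne
  have h01 : (0 : ℝ) ≤ τ₁ := hτ₁.1.1
  have h11 : τ₁ ≤ 1 := hτ₁.1.2
  have hsub : Icc (0 : ℝ) τ₁ ⊆ Icc 0 1 := Icc_subset_Icc_right h11
  have hlt : ∀ τ ∈ Ico (0 : ℝ) τ₁, ‖γ τ - γ 0‖ < D := by
    intro τ hτ
    by_contra hcon
    push Not at hcon
    have : τ₁ ≤ τ := hmin ⟨⟨hτ.1, hτ.2.le.trans h11⟩, hcon⟩
    exact absurd hτ.2 (not_lt.2 this)
  have heq : ‖γ τ₁ - γ 0‖ = D := by
    have h2 : D ≤ ‖γ τ₁ - γ 0‖ := hτ₁.2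
    have h3 : D ∈ (fun τ => ‖γ τ - γ 0‖) '' Icc 0 τ₁ := by
      apply intermediate_value_Icc h01 (hn.mono hsub)
      simp only [sub_self, norm_zero]
      exact ⟨hD.le, h2⟩
    obtain ⟨τ₂, hτ₂, h4⟩ := h3
    rcases eq_or_lt_of_le hτ₂.2 with h5 | h5
    · rw [← h5]; exact h4
    · have := hlt τ₂ ⟨hτ₂.1, h5⟩
      simp only at h4
      linarith
  have hd0 : (D : ℂ) ≠ 0 := by exact_mod_cast hD.ne'
  have hne : γ τ₁ - γ 0 ≠ 0 := by
    rw [← norm_pos_iff, heq]; exact hD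
  refine ⟨(γ τ₁ - γ 0) / D, ?_, ?_⟩
  · rw [norm_div, heq, Complex.norm_real, Real.norm_of_nonneg hD.le, div_self hD.ne']
  · intro s hs
    have hc : ContinuousOn (fun τ => ((γ τ - γ 0) / ((γ τ₁ - γ 0) / D)).re) (Icc 0 τ₁) := by
      apply Complex.continuous_re.comp_continuousOn
      exact ((hγ.mono hsub).sub continuousOn_const).div_const _
    have h6 : s ∈ (fun τ => ((γ τ - γ 0) / ((γ τ₁ - γ 0) / D)).re) '' Icc 0 τ₁ := by
      apply intermediate_value_Icc h01 hc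
      have e1 : (γ τ₁ - γ 0) / ((γ τ₁ - γ 0) / D) = (D : ℂ) := by
        field_simp
      simp only [sub_self, zero_div, Complex.zero_re, e1, Complex.ofReal_re]
      exact hs
    obtain ⟨τ, hτ, h7⟩ := h6
    refine ⟨τ, hsub hτ, ?_, h7⟩
    rcases eq_or_lt_of_le hτ.2 with h8 | h8
    · rw [h8]; exact heq.le
    · exact (hlt τ ⟨hτ.1, h8⟩).le

theorem sum_blocks (f : ℕ → ℝ) (n m : ℕ) :
    ∑ j ∈ Finset.range (n * m), f j =
      ∑ r ∈ Finset.range m, ∑ k ∈ Finset.range n, f (k * m + r) := by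
  rw [Finset.sum_comm]
  induction n with
  | zero => simp
  | succ n ih =>
    rw [Nat.succ_mul, Finset.sum_range_add, ih, Finset.sum_range_succ]

/-- Some residue class has a small sum. -/
theorem exists_block {f : ℕ → ℝ} {n m : ℕ} (hm : 0 < m) {η : ℝ}
    (h : (1 / ((n * m : ℕ) : ℝ)) * ∑ j ∈ Finset.range (n * m), f j ≤ η) (hn : 0 < n)
    (hf : ∀ j, 0 ≤ f j) :
    ∃ r < m, ∀ k < n, f (k * m + r) ≤ n * η := by
  by_contra hcon
  push Not at hcon
  have h1 : ∀ r ∈ Finset.range m, (n : ℝ) * η < ∑ k ∈ Finset.range n, f (k * m + r) := by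
    intro r hr
    obtain ⟨k, hk, hk2⟩ := hcon r (Finset.mem_range.1 hr)
    refine hk2.trans_le ?_
    exact Finset.single_le_sum (f := fun k => f (k * m + r)) (fun _ _ => hf _)
      (Finset.mem_range.2 hk)
  have h2 := Finset.sum_lt_sum_of_nonempty ⟨0, Finset.mem_range.2 hm⟩ h1
  rw [← sum_blocks, Finset.sum_const, Finset.card_range, nsmul_eq_mul] at h2
  have hnm : (0 : ℝ) < ((n * m : ℕ) : ℝ) := by exact_mod_cast Nat.mul_pos hn hm
  have h3 : ∑ j ∈ Finset.range (n * m), f j ≤ ((n * m : ℕ) : ℝ) * η := by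
    calc ∑ j ∈ Finset.range (n * m), f j
        = ((n * m : ℕ) : ℝ) * ((1 / ((n * m : ℕ) : ℝ)) * ∑ j ∈ Finset.range (n * m), f j) := by
          field_simp
      _ ≤ _ := by gcongr
  push_cast at h3
  nlinarith

section
variable {μ : Measure ℂ} [IsFiniteMeasure μ]

theorem ker_sub {K K' : Set ℂ} (hKK : K ⊆ K') (ζ z : ℂ) :
    ker K' ζ z - ker K ζ z = (K' \ K).indicator (fun z => (z - ζ)⁻¹) z := by
  unfold ker
  by_cases h1 : z ∈ K
  · rw [indicator_of_mem (hKK h1), indicator_of_mem h1, indicator_of_notMem (fun h => h.2 h1),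
      sub_self]
  · by_cases h2 : z ∈ K'
    · have h3 : z ∈ K' \ K := ⟨h2, h1⟩
      rw [indicator_of_mem h2, indicator_of_notMem h1, indicator_of_mem h3, sub_zero]
    · rw [indicator_of_notMem h2, indicator_of_notMem h1, indicator_of_notMem (fun h => h2 h.1),
        sub_zero]

/-- Averages of `|F_{K'} - F_K|` over well spread nodes are small. -/
theorem E_avg {q : ℝ≥0∞} [Fact (1 ≤ q)] (Λ : Lp ℂ q μ →L[ℂ] ℂ) {p : ℝ} (hq : q = ENNReal.ofReal p)
    (hp1 : 1 ≤ p) (hp4 : p ≤ 4) {K K' : Set ℂ} (hK : IsCompact K) (hK' : IsCompact K')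
    (hKK : K ⊆ K') {ω : ℝ} (hω : 0 ≤ ω)
    {N : ℕ} (hN : 0 < N) {D ρ R' : ℝ} (hD : 0 < D) (hρ0 : 0 < ρ) (hρ : D / N ≤ ρ)
    (hR : 0 ≤ R') {x e : ℂ} (he : ‖e‖ = 1)
    (y : ℕ → ℂ) (hy : ∀ j < N, ((y j - x) / e).re = j * (D / N))
    (hA : ∀ z ∈ K', ∀ j < N, ρ ≤ ‖z - y j‖) (hAR : ∀ z ∈ K', ‖z - x‖ ≤ R')
    (hμ : μ.restrict (K' \ K) ≤ ENNReal.ofReal ω • (volume : Measure ℂ)) {V : ℝ} (hV : 0 ≤ V)
    (hAV : volume K' ≤ ENNReal.ofReal V) :
    (1 / (N : ℝ)) * ∑ j ∈ Finset.range N, ‖FK Λ K' (y j) - FK Λ K (y j)‖ ≤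
      ‖Λ‖ * (ω ^ (1 / p) * (1 + V + 2 * R' * (4 * Real.pi * 16 ^ 4 / D ^ 3))) := by
  have hN' : (0 : ℝ) < N := by exact_mod_cast hN
  have hyK' : ∀ j < N, y j ∉ K' := by
    intro j hj h
    have := hA _ h j hj
    rw [sub_self, norm_zero] at this
    linarith
  have hyK : ∀ j < N, y j ∉ K := fun j hj h => hyK' j hj (hKK h)
  set E : ℕ → ℂ := fun j => FK Λ K' (y j) - FK Λ K (y j) with hE
  -- the unimodular factors
  obtain ⟨c, hc1, hc2⟩ : ∃ c : ℕ → ℂ, (∀ j, ‖c j‖ ≤ 1) ∧ ∀ j, c j * E j = (‖E j‖ : ℂ) := by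
    have : ∀ j, ∃ c : ℂ, ‖c‖ ≤ 1 ∧ c * E j = (‖E j‖ : ℂ) := by
      intro j
      by_cases h0 : E j = 0
      · exact ⟨0, by simp, by simp [h0]⟩
      · have hn : (‖E j‖ : ℂ) ≠ 0 := by simpa using h0
        refine ⟨(‖E j‖ : ℂ) / E j, ?_, by field_simp⟩
        rw [norm_div, Complex.norm_real, norm_norm]
        exact div_self_le_one _
    choose c hc using this
    exact ⟨c, fun j => (hc j).1, fun j => (hc j).2⟩
  set g : ℂ → ℂ := fun z => ∑ j ∈ Finset.range N, (c j / N) * (ker K' (y j) z - ker K (y j) z)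
    with hg
  have hmem : ∀ j ∈ Finset.range N, MemLp (fun z => ker K' (y j) z - ker K (y j) z) q μ := by
    intro j hj
    have hj' := Finset.mem_range.1 hj
    exact (ker_memLp hK' (hyK' j hj')).sub (ker_memLp hK (hyK j hj'))
  have hval : val Λ g = (((1 / (N : ℝ)) * ∑ j ∈ Finset.range N, ‖E j‖ : ℝ) : ℂ) := by
    rw [hg, val_sum Λ _ (fun j hj => (hmem j hj).const_mul (c j / N))]
    push_cast
    rw [Finset.mul_sum]
    apply Finset.sum_congr rfl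
    intro j hj
    have hj' := Finset.mem_range.1 hj
    rw [val_smul Λ (hmem j hj), val_sub Λ (ker_memLp hK' (hyK' j hj')) (ker_memLp hK (hyK j hj'))]
    have : val Λ (ker K' (y j)) - val Λ (ker K (y j)) = E j := rfl
    rw [this, div_mul_eq_mul_div, hc2]
    ring
  have hAm : MeasurableSet (K' \ K) := hK'.measurableSet.diff hK.measurableSet
  have hbound := eLpNorm_avg_le (μ := μ) hω hp1 hp4 hN hD hρ0 hρ hR he y hy hAm
    (fun z hz => hA z hz.1) (fun z hz => hAR z hz.1) hμ V hV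
    ((measure_mono sdiff_subset).trans hAV) g ?_
  · rw [← hq] at hbound
    have h1 := norm_val_le_of_le Λ (g := g) (B := ω ^ (1 / p) *
      (1 + V + 2 * R' * (4 * Real.pi * 16 ^ 4 / D ^ 3))) (by
        have := Real.pi_pos
        positivity) hbound
    rw [hval, Complex.norm_real, Real.norm_of_nonneg (by positivity)] at h1
    exact h1
  · intro z
    by_cases hz : z ∈ K' \ K
    · rw [indicator_of_mem hz]
      unfold avg
      rw [Finset.mul_sum]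
      refine (norm_sum_le _ _).trans (Finset.sum_le_sum ?_)
      intro j _
      rw [ker_sub hKK, indicator_of_mem hz, norm_mul, norm_div, norm_inv, Complex.norm_natCast]
      have := hc1 j
      gcongr
    · rw [indicator_of_notMem hz]
      apply le_of_eq
      rw [norm_eq_zero]
      apply Finset.sum_eq_zero
      intro j _
      rw [ker_sub hKK, indicator_of_notMem hz, mul_zero]

/-- Transfer of smallness from `F_{K'}` on an arc to `F_K` at its initial point. -/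
theorem transfer {q : ℝ≥0∞} [Fact (1 ≤ q)] (Λ : Lp ℂ q μ →L[ℂ] ℂ) {p : ℝ}
    (hq : q = ENNReal.ofReal p)
    (hp1 : 1 ≤ p) (hp4 : p ≤ 4) {K K' : Set ℂ} (hK : IsCompact K) (hK' : IsCompact K')
    (hKK : K ⊆ K') {ω : ℝ} (hω : 0 ≤ ω)
    {γ : ℝ → ℂ} (hγ : ContinuousOn γ (Icc 0 1))
    {D ρ R' : ℝ} (hD : 0 < D) (hρ0 : 0 < ρ) (hR : 0 ≤ R') (hfar : D ≤ ‖γ 1 - γ 0‖)
    (hρ : ∀ z ∈ K', ∀ τ ∈ Icc (0 : ℝ) 1, ρ ≤ ‖z - γ τ‖) (hAR : ∀ z ∈ K', ‖z - γ 0‖ ≤ R')
    (hμ : μ.restrict (K' \ K) ≤ ENNReal.ofReal ω • (volume : Measure ℂ)) {V : ℝ} (hV : 0 ≤ V)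
    (hAV : volume K' ≤ ENNReal.ofReal V) {M A A' : ℝ} (hA0 : 0 < A)
    (hoff : ∀ z ∈ closedBall (γ 0) (16 * D), z ∉ K)
    (hM : ∀ z ∈ closedBall (γ 0) (16 * D), ‖FK Λ K z‖ ≤ M)
    (hA' : ∀ τ ∈ Icc (0 : ℝ) 1, ‖FK Λ K' (γ τ)‖ ≤ Real.exp (-A'))
    (hsmall : Real.exp (-A') + (⌈A / 6⌉₊ : ℝ) * (‖Λ‖ * (ω ^ (1 / p) *
      (1 + V + 2 * R' * (4 * Real.pi * 16 ^ 4 / D ^ 3)))) ≤ Real.exp (-A)) :
    ‖FK Λ K (γ 0)‖ ≤ (M + 26) * Real.exp (-(A / 3)) := by
  obtain ⟨e, he, hs⟩ := exit_arc hγ hD hfar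
  set n := ⌈A / 6⌉₊ with hn
  have hn1 : 0 < n := Nat.ceil_pos.2 (by positivity)
  obtain ⟨m, hm⟩ : ∃ m : ℕ, D / ρ ≤ m := exists_nat_ge _
  set m' := m + 1 with hm'
  have hm'0 : 0 < m' := Nat.succ_pos _
  set N := n * m' with hN
  have hN0 : 0 < N := Nat.mul_pos hn1 hm'0
  have hNr : (0 : ℝ) < N := by exact_mod_cast hN0
  have hρN : D / N ≤ ρ := by
    rw [div_le_iff₀ hNr]
    have h1 : (m : ℝ) ≤ N := by
      have : m ≤ N := by
        calc m ≤ m' := Nat.le_succ m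
          _ = 1 * m' := (one_mul _).symm
          _ ≤ n * m' := Nat.mul_le_mul_right _ hn1
      exact_mod_cast this
    have h2 : D ≤ m * ρ := by rwa [div_le_iff₀ hρ0] at hm
    nlinarith
  have hchoice : ∀ j : ℕ, ∃ τ : ℝ, j < N → τ ∈ Icc (0 : ℝ) 1 ∧ ‖γ τ - γ 0‖ ≤ D ∧
      ((γ τ - γ 0) / e).re = j * (D / N) := by
    intro j
    by_cases hj : j < N
    · have hj' : (j : ℝ) ≤ N := by exact_mod_cast hj.le
      have h1 : (j : ℝ) * (D / N) ∈ Icc (0 : ℝ) D := by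
        constructor
        · positivity
        · calc (j : ℝ) * (D / N) ≤ N * (D / N) := by gcongr
            _ = D := by field_simp
      obtain ⟨τ, h2, h3, h4⟩ := hs _ h1
      exact ⟨τ, fun _ => ⟨h2, h3, h4⟩⟩
    · exact ⟨0, fun h => absurd h hj⟩
  choose τ hτ using hchoice
  set y : ℕ → ℂ := fun j => γ (τ j) with hy
  have hEavg := E_avg Λ hq hp1 hp4 hK hK' hKK hω hN0 hD hρ0 hρN hR he y
    (fun j hj => (hτ j hj).2.2) (fun z hz j hj => hρ z hz _ (hτ j hj).1) hAR hμ hV hAV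
  obtain ⟨r, hr, hblock⟩ := exists_block hm'0 hEavg hn1 (fun j => norm_nonneg _)
  have hidx : ∀ k < n, k * m' + r < N := by
    intro k hk
    calc k * m' + r < k * m' + m' := by omega
      _ = (k + 1) * m' := by ring
      _ ≤ n * m' := Nat.mul_le_mul_right _ hk
  refine interp_exp hA0 hD hK.isClosed.isOpen_compl (fun z hz => hoff z hz) (fun z hz =>
    (FK_differentiableAt Λ hK hz).differentiableWithinAt) hM (fun k => y (k * m' + r))
    ?_ ?_ ?_ (γ 0) (by simp [hD.le])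
  · intro k hk
    exact (hτ _ (hidx k hk)).2.1
  · intro k hk l hl
    have h1 := (hτ _ (hidx k hk)).2.2
    have h2 := (hτ _ (hidx l hl)).2.2
    have h3 : ((γ (τ (k * m' + r)) - γ 0) / e - (γ (τ (l * m' + r)) - γ 0) / e).re =
        ((k : ℝ) - l) * (D / n) := by
      rw [Complex.sub_re, h1, h2]
      have hnr : (0 : ℝ) < n := by exact_mod_cast hn1
      have hmr : (0 : ℝ) < m' := by exact_mod_cast hm'0
      rw [hN]
      push_cast
      field_simp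
      ring
    have h4 : ‖(γ (τ (k * m' + r)) - γ 0) / e - (γ (τ (l * m' + r)) - γ 0) / e‖ =
        ‖y (k * m' + r) - y (l * m' + r)‖ := by
      rw [← sub_div, norm_div, he, div_one]
      congr 1
      simp only [hy]
      ring
    rw [← h4]
    refine le_trans ?_ (Complex.abs_re_le_norm _)
    rw [h3, abs_mul, abs_of_nonneg (show (0 : ℝ) ≤ D / n by positivity)]
  · intro k hk
    have h1 := hblock k hk
    have h2 := hA' _ (hτ _ (hidx k hk)).1
    calc ‖FK Λ K (y (k * m' + r))‖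
        ≤ ‖FK Λ K' (y (k * m' + r))‖ + ‖FK Λ K' (y (k * m' + r)) - FK Λ K (y (k * m' + r))‖ := by
          have : FK Λ K (y (k * m' + r)) = FK Λ K' (y (k * m' + r)) -
            (FK Λ K' (y (k * m' + r)) - FK Λ K (y (k * m' + r))) := by ring
          nth_rw 1 [this]
          exact norm_sub_le _ _
      _ ≤ _ := (add_le_add h2 h1).trans hsmall

end

end Pool.Agent.H76Brennan
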