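import Pool.Agent.H76Brennan.Levels
import Pool.Agent.H76Brennan.Transfer

set_option autoImplicit false
set_option linter.unusedSectionVars false
set_option linter.style.haveILetI false
open Complex Set Metric Filter Topology MeasureTheory
open scoped ENNReal NNReal

namespace Pool.Agent.H76Brennan

section
variable {Ω : Set ℂ} {φ ψ : ℂ → ℂ} {R : ℝ}

theorem two_le_exp : (2 : ℝ) ≤ Real.exp (3 / 4) := by
  have e19 : (1.6 : ℝ) ≤ Real.exp (1 / 2) := by
    have e20 : Real.exp (1 / 2) ^ 2 = Real.exp 1 := by rw [← Real.exp_nat_mul]; norm_num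
    have e21 := Real.exp_one_gt_d9
    apply le_of_pow_le_pow_left₀ (n := 2) (by norm_num) (Real.exp_pos _).le
    rw [e20]
    norm_num at e21 ⊢
    linarith
  have e22 : Real.exp (3 / 4) = Real.exp (1 / 2) * Real.exp (1 / 4) := by
    rw [← Real.exp_add]; norm_num
  have e23 := Real.add_one_le_exp (1 / 4 : ℝ)
  rw [e22]
  nlinarith

/-- The separation property with constant `C`. -/
def SepC (ψ : ℂ → ℂ) (C : ℝ) : Prop :=
  ∀ τ : ℝ, 0 < τ → τ ≤ 1 → ∀ a b : ℂ, ‖a‖ < 1 → ‖b‖ ≤ Real.exp (-τ) →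
      τ / 32 ≤ ‖a - b‖ → Real.exp (-(C / τ)) ≤ ‖ψ a - ψ b‖

/-- The far point on a short arc. -/
theorem Conf.far_point (h : Conf Ω φ ψ R) {C : ℝ} (hsep : SepC ψ C)
    {t t' s D : ℝ} (ht' : 0 < t') (htt : t' ≤ t / 2) (ht1 : t ≤ 1)
    (hD : (2 * R) ^ 3 * D < Real.exp (-(8 * C / t)) ^ 4) :
    ∃ s' : ℝ, |s' - s| ≤ t / 8 ∧
      D ≤ ‖ψ (Complex.exp ((-(t' / 2) : ℝ) + s' * I)) - ψ (Complex.exp ((-(t' / 2) : ℝ) + s * I))‖ := by
  by_contra hcon
  push Not at hcon
  have ht : 0 < t := by linarith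
  set x : ℂ := ψ (Complex.exp ((-(t' / 2) : ℝ) + s * I)) with hx
  set c : ℂ := ((-(t' / 2) - t / 8 : ℝ) : ℂ) + s * I with hc
  have hcre : c.re = -(t' / 2) - t / 8 := by simp [hc]
  have hcim : c.im = s := by simp [hc]
  have hwre : ∀ w : ℂ, |(w - c).re| ≤ t / 8 → w.re ≤ -(t' / 2) := by
    intro w hw
    have h1 := (abs_le.1 hw).2
    rw [Complex.sub_re, hcre] at h1
    linarith
  have hxre : (((-(t' / 2) : ℝ) : ℂ) + s * I).re = -(t' / 2) := by simp
  have hxn : ‖Complex.exp (((-(t' / 2) : ℝ) : ℂ) + s * I)‖ < 1 := norm_exp_lt (by rw [hxre]; linarith)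
  have key := square_bound (f := fun w => ψ (Complex.exp w) - x) (c := c) (s := t / 8)
    (M := 2 * R) (ε := D) (by positivity) ?_ ?_ ?_
  · have h1 : Real.exp (-(8 * C / t)) ≤ ‖ψ (Complex.exp c) - x‖ := by
      rw [norm_sub_rev]
      have h2 := hsep (t / 8) (by positivity) (by linarith)
        (Complex.exp (((-(t' / 2) : ℝ) : ℂ) + s * I)) (Complex.exp c) hxn ?_ ?_
      · rw [show C / (t / 8) = 8 * C / t by field_simp] at h2
        exact h2
      · rw [Complex.norm_exp, hcre]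
        exact Real.exp_le_exp.2 (by linarith)
      · have h3 : ‖Complex.exp (((-(t' / 2) : ℝ) : ℂ) + s * I)‖ - ‖Complex.exp c‖ ≤
            ‖Complex.exp (((-(t' / 2) : ℝ) : ℂ) + s * I) - Complex.exp c‖ := norm_sub_norm_le _ _
        rw [Complex.norm_exp, Complex.norm_exp, hxre, hcre] at h3
        have h4 := exp_diff_ge (u := -(t' / 2)) (v := -(t' / 2) - t / 8) (by linarith) (by linarith)
        linarith
    have h5 : Real.exp (-(8 * C / t)) ^ 4 ≤ ‖ψ (Complex.exp c) - x‖ ^ 4 := by gcongr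
    linarith
  · intro w hw _
    have h1 := hwre w hw
    have e2 : DifferentiableAt ℂ ψ (Complex.exp w) := h.ψdAt (norm_exp_lt (by linarith))
    exact (e2.comp w (Complex.differentiableAt_exp)).sub_const _
  · intro w hw _
    have h1 := hwre w hw
    calc ‖ψ (Complex.exp w) - x‖ ≤ ‖ψ (Complex.exp w)‖ + ‖x‖ := norm_sub_le _ _
      _ ≤ 2 * R := by
          have e1 := h.bddψ (norm_exp_lt (w := w) (by linarith))
          have e2 := h.bddψ hxn
          linarith
  · intro w hw1 hw2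
    have h1 : w = ((-(t' / 2) : ℝ) : ℂ) + (w.im : ℂ) * I := by
      apply Complex.ext
      · rw [Complex.sub_re, hcre] at hw1
        simp
        linarith
      · simp
    rw [Complex.sub_im, hcim] at hw2
    have h2 := hcon w.im hw2
    rw [← h1] at h2
    exact h2.le

variable {μ : Measure ℂ} [IsFiniteMeasure μ] {q : ℝ≥0∞} [Fact (1 ≤ q)]

/-- Transfer of smallness from scale `t'` to scale `t`, on the `t'`-line. -/
theorem Conf.trans_pt (h : Conf Ω φ ψ R) (Λ : Lp ℂ q μ →L[ℂ] ℂ) {p : ℝ}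
    (hq : q = ENNReal.ofReal p) (hp1 : 1 ≤ p) (hp4 : p ≤ 4) {C : ℝ} (hC : 0 < C)
    (hsep : SepC ψ C) :
    ∃ C₂ : ℝ, 0 < C₂ ∧ ∀ t t' : ℝ, 0 < t' → t' ≤ t / 2 → t ≤ 1 → ∀ hh : ℝ, C₂ / t ≤ hh →
      μ.restrict (Ω \ Kt Ω φ t) ≤ ENNReal.ofReal (Real.exp (-hh)) • (volume : Measure ℂ) →
      ∀ s : ℝ, (∀ s' : ℝ, |s' - s| ≤ t / 8 →
        ‖ft Λ Ω φ ψ t' ((-(t' / 2) : ℝ) + s' * I)‖ ≤ Real.exp (-hh)) →
      ‖ft Λ Ω φ ψ t ((-(t' / 2) : ℝ) + s * I)‖ ≤ Real.exp (-(hh / 48)) := by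
  have hR := h.Rpos
  -- constants
  set C₄ : ℝ := 32 * C + (16 * R ^ 3 + 32) with hC₄
  set V : ℝ := (volume (ball (0 : ℂ) R)).toReal with hV
  have hV0 : 0 ≤ V := ENNReal.toReal_nonneg
  have hπ := Real.pi_pos
  set G : ℝ := ‖Λ‖ * (1 + V + 2 * (2 * R) * (4 * Real.pi * 16 ^ 4)) with hG
  have hG0 : 0 ≤ G := by rw [hG]; positivity
  set C₂ : ℝ := 96 * C₄ + 96 * (G + 1) + 192 * (C + Qc Λ + 32) with hC₂
  have hQ := Qc_nonneg Λ
  have hC₂0 : 0 < C₂ := by rw [hC₂]; positivity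
  refine ⟨C₂, hC₂0, ?_⟩
  intro t t' ht' htt ht1 hh hhh hμ s hsmall
  have ht : 0 < t := by linarith
  have ht'1 : t' ≤ 1 := by linarith
  have htinv : 1 ≤ 1 / t := by rw [le_div_iff₀ ht]; linarith
  have hdivt : ∀ X : ℝ, 0 ≤ X → X ≤ X / t := by
    intro X hX
    rw [le_div_iff₀ ht]
    nlinarith
  -- D
  set D : ℝ := Real.exp (-(C₄ / t)) with hD
  have hD0 : 0 < D := Real.exp_pos _
  have hDle : D ≤ Real.exp (-(32 * C / t)) * (1 / (16 * R ^ 3 + 32 + 1)) := by
    rw [hD, hC₄, add_div, neg_add, Real.exp_add]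
    gcongr
    calc Real.exp (-((16 * R ^ 3 + 32) / t)) ≤ Real.exp (-(16 * R ^ 3 + 32)) := by
          apply Real.exp_le_exp.2
          have := hdivt (16 * R ^ 3 + 32) (by positivity)
          linarith
      _ ≤ 1 / (16 * R ^ 3 + 32 + 1) := by
          rw [Real.exp_neg, one_div]
          gcongr
          exact Real.add_one_le_exp _
  have hX : 0 < Real.exp (-(32 * C / t)) := Real.exp_pos _
  have hD1 : (2 * R) ^ 3 * D < Real.exp (-(8 * C / t)) ^ 4 := by
    have e1 : Real.exp (-(8 * C / t)) ^ 4 = Real.exp (-(32 * C / t)) := by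
      rw [← Real.exp_nat_mul]; congr 1; push_cast; ring
    rw [e1]
    calc (2 * R) ^ 3 * D ≤ (2 * R) ^ 3 * (Real.exp (-(32 * C / t)) * (1 / (16 * R ^ 3 + 32 + 1))) := by
          gcongr
      _ = Real.exp (-(32 * C / t)) * (8 * R ^ 3 / (16 * R ^ 3 + 32 + 1)) := by ring
      _ < Real.exp (-(32 * C / t)) * 1 := by
          apply mul_lt_mul_of_pos_left _ hX
          rw [div_lt_one (by positivity)]
          have : 0 < R ^ 3 := by positivity
          linarith
      _ = _ := mul_one _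
  have hD2 : 16 * D ≤ Real.exp (-(C / t)) / 2 := by
    calc 16 * D ≤ 16 * (Real.exp (-(32 * C / t)) * (1 / (16 * R ^ 3 + 32 + 1))) := by gcongr
      _ ≤ 16 * (Real.exp (-(C / t)) * (1 / 32)) := by
          have e0 : 0 < R ^ 3 := by positivity
          have e1 : 1 / (16 * R ^ 3 + 32 + 1) ≤ 1 / 32 := by
            apply one_div_le_one_div_of_le (by norm_num)
            linarith
          have e2 : Real.exp (-(32 * C / t)) ≤ Real.exp (-(C / t)) := by
            apply Real.exp_le_exp.2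
            apply neg_le_neg
            gcongr
            linarith
          gcongr
      _ = _ := by ring
  -- far point
  obtain ⟨s₁, hs₁, hfar⟩ := h.far_point hsep (s := s) ht' htt ht1 hD1
  -- the arc
  set γ : ℝ → ℂ := fun τ => ψ (Complex.exp (((-(t' / 2) : ℝ) : ℂ) +
    ((s + τ * (s₁ - s) : ℝ) : ℂ) * I)) with hγ
  have hγ0 : γ 0 = ψ (Complex.exp (((-(t' / 2) : ℝ) : ℂ) + s * I)) := by simp [hγ]
  have hγ1 : γ 1 = ψ (Complex.exp (((-(t' / 2) : ℝ) : ℂ) + s₁ * I)) := by simp [hγ]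
  have hre : ∀ u : ℝ, (((-(t' / 2) : ℝ) : ℂ) + (u : ℂ) * I).re = -(t' / 2) := by intro u; simp
  have hnlt : ∀ u : ℝ, ‖Complex.exp (((-(t' / 2) : ℝ) : ℂ) + (u : ℂ) * I)‖ < 1 := by
    intro u
    apply norm_exp_lt
    rw [hre]; linarith
  have hγc : ContinuousOn γ (Icc 0 1) := by
    intro τ _
    have e1 : ContinuousAt ψ (Complex.exp (((-(t' / 2) : ℝ) : ℂ) +
        ((s + τ * (s₁ - s) : ℝ) : ℂ) * I)) := (h.ψdAt (hnlt _)).continuousAt
    have e2 : ContinuousAt (fun τ : ℝ => Complex.exp (((-(t' / 2) : ℝ) : ℂ) +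
        ((s + τ * (s₁ - s) : ℝ) : ℂ) * I)) τ := by
      apply Continuous.continuousAt
      fun_prop
    exact (ContinuousAt.comp (f := fun τ : ℝ => Complex.exp (((-(t' / 2) : ℝ) : ℂ) +
        ((s + τ * (s₁ - s) : ℝ) : ℂ) * I)) (g := ψ) e1 e2).continuousWithinAt
  have hγΩ : ∀ τ, γ τ ∈ Ω := fun τ => h.ψm _ (hnlt _)
  have hp0 : 0 < p := by linarith
  have hKc := h.Kt_compact ht
  have hK'c := h.Kt_compact ht'
  have hKK : Kt Ω φ t ⊆ Kt Ω φ t' := Kt_anti (by linarith)
  have hdist0 : ∀ z ∈ Kt Ω φ t, Real.exp (-(C / t)) ≤ ‖z - γ 0‖ := by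
    intro z hz
    rw [hγ0]
    exact h.dist_Kt hsep ht ht1 (by rw [hre]; linarith) (by rw [hre]; linarith) hz
  have hdist : ∀ w ∈ closedBall (γ 0) (16 * D), ∀ z ∈ Kt Ω φ t,
      Real.exp (-(C / t)) / 2 ≤ ‖z - w‖ := by
    intro w hw z hz
    rw [mem_closedBall, dist_eq_norm] at hw
    have h1 := hdist0 z hz
    have h2 : ‖z - γ 0‖ ≤ ‖z - w‖ + ‖w - γ 0‖ := by
      calc ‖z - γ 0‖ = ‖(z - w) + (w - γ 0)‖ := by congr 1; ring
        _ ≤ _ := norm_add_le _ _
    linarith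
  have hhpos : 0 < hh := lt_of_lt_of_le (by positivity) hhh
  have hlarge : ∀ X : ℝ, 0 ≤ X → X ≤ C₂ → X / t ≤ hh := by
    intro X hX hX2
    refine le_trans ?_ hhh
    gcongr
  -- apply transfer
  have key := transfer Λ hq hp1 hp4 hKc hK'c hKK (ω := Real.exp (-hh)) (Real.exp_pos _).le hγc
    (D := D) (ρ := Real.exp (-(C / t'))) (R' := 2 * R) hD0 (Real.exp_pos _) (by positivity)
    (by rw [hγ0, hγ1]; exact hfar) ?_ ?_ ?_ (V := V) hV0 ?_
    (M := Qc Λ * (2 * Real.exp (C / t))) (A := hh / 8) (A' := hh) (by positivity) ?_ ?_ ?_ ?_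
  · -- conclusion
    rw [hγ0] at key
    refine key.trans ?_
    have e1 : Qc Λ * (2 * Real.exp (C / t)) + 26 ≤ Real.exp (hh / 48) := by
      have e2 : Qc Λ ≤ Real.exp (Qc Λ / t) := by
        have := Real.add_one_le_exp (Qc Λ / t)
        have := hdivt _ hQ
        linarith
      have e3 : (2 : ℝ) ≤ Real.exp 1 := by
        have := Real.add_one_le_exp (1 : ℝ)
        linarith
      calc Qc Λ * (2 * Real.exp (C / t)) + 26
          ≤ Real.exp (Qc Λ / t) * (Real.exp 1 * Real.exp (C / t)) + 26 := by gcongr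
        _ = Real.exp (Qc Λ / t + 1 + C / t) + 26 := by
            rw [← Real.exp_add, ← Real.exp_add]; congr 2; ring
        _ ≤ Real.exp (Qc Λ / t + 1 + C / t + 4) := exp_add_26 (by positivity)
        _ ≤ Real.exp (hh / 48) := by
            apply Real.exp_le_exp.2
            have e4 := hlarge (192 * (C + Qc Λ + 32)) (by positivity) (by
              rw [hC₂]
              have : 0 ≤ 96 * C₄ + 96 * (G + 1) := by positivity
              linarith)
            have e5 : 192 * (C + Qc Λ + 32) / t = 192 * (C / t + Qc Λ / t + 32 * (1 / t)) := by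
              field_simp
            rw [e5] at e4
            have e6 : 0 ≤ C / t := by positivity
            have e7 : 0 ≤ Qc Λ / t := by positivity
            linarith
    calc (Qc Λ * (2 * Real.exp (C / t)) + 26) * Real.exp (-(hh / 8 / 3))
        ≤ Real.exp (hh / 48) * Real.exp (-(hh / 8 / 3)) := by gcongr
      _ = Real.exp (-(hh / 48)) := by rw [← Real.exp_add]; congr 1; ring
  · intro z hz τ _
    exact h.dist_Kt hsep ht' ht'1 (by rw [hre]; linarith) (by rw [hre]; linarith) hz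
  · intro z hz
    calc ‖z - γ 0‖ ≤ ‖z‖ + ‖γ 0‖ := norm_sub_le _ _
      _ ≤ 2 * R := by linarith [h.bdd z hz.1, h.bdd _ (hγΩ 0)]
  · refine le_trans (Measure.restrict_mono ?_ le_rfl) hμ
    intro z hz
    exact ⟨hz.1.1, hz.2⟩
  · rw [hV, ENNReal.ofReal_toReal measure_ball_lt_top.ne]
    apply measure_mono
    intro z hz
    simpa using h.bdd z hz.1
  · intro w hw hwK
    have := hdist w hw w hwK
    rw [sub_self, norm_zero] at this
    have := Real.exp_pos (-(C / t))
    linarith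
  · intro w hw
    have h1 := norm_FK_le Λ (K := Kt Ω φ t) (ζ := w) (δ := Real.exp (-(C / t)) / 2)
      (by positivity) (hdist w hw)
    refine h1.trans (le_of_eq ?_)
    unfold Qc
    rw [Real.exp_neg]
    field_simp
  · intro τ hτ
    apply hsmall
    rw [add_sub_cancel_left, abs_mul]
    have := hτ.1
    rw [abs_of_nonneg hτ.1]
    calc τ * |s₁ - s| ≤ 1 * |s₁ - s| := by
          gcongr
          exact hτ.2
      _ ≤ t / 8 := by rw [one_mul]; exact hs₁
  · -- smallness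
    have e0 : Real.exp (-hh) ^ (1 / p) ≤ Real.exp (-(hh / 4)) := by
      rw [← Real.exp_mul]
      apply Real.exp_le_exp.2
      have : hh / 4 ≤ hh * (1 / p) := by
        rw [div_eq_mul_one_div]
        gcongr
      linarith
    have e1 : 1 + V + 2 * (2 * R) * (4 * Real.pi * 16 ^ 4 / D ^ 3) ≤
        (1 + V + 2 * (2 * R) * (4 * Real.pi * 16 ^ 4)) * Real.exp (3 * C₄ / t) := by
      have e2 : 1 / D ^ 3 = Real.exp (3 * C₄ / t) := by
        rw [hD, ← Real.exp_nat_mul, one_div, ← Real.exp_neg]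
        congr 1; push_cast; ring
      have e3 : 1 ≤ Real.exp (3 * C₄ / t) := Real.one_le_exp (by positivity)
      have e4 : 2 * (2 * R) * (4 * Real.pi * 16 ^ 4 / D ^ 3) =
          2 * (2 * R) * (4 * Real.pi * 16 ^ 4) * Real.exp (3 * C₄ / t) := by
        rw [← e2]; ring
      rw [e4]
      nlinarith
    have e5 : (⌈hh / 8 / 6⌉₊ : ℝ) ≤ Real.exp (hh / 48) := by
      have e6 := Nat.ceil_lt_add_one (show 0 ≤ hh / 8 / 6 by positivity)
      have e7 := Real.add_one_le_exp (hh / 48)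
      have e8 : hh / 8 / 6 = hh / 48 := by ring
      rw [e8] at e6 ⊢
      linarith
    have e9 : G ≤ Real.exp (hh / 96) := by
      have e10 := hlarge (96 * (G + 1)) (by positivity) (by
        rw [hC₂]
        have : 0 ≤ 96 * C₄ + 192 * (C + Qc Λ + 32) := by positivity
        linarith)
      have e11 := hdivt (96 * (G + 1)) (by positivity)
      have e12 := Real.add_one_le_exp (hh / 96)
      linarith
    have e13 : Real.exp (3 * C₄ / t) ≤ Real.exp (hh / 32) := by
      apply Real.exp_le_exp.2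
      have e14 := hlarge (96 * C₄) (by positivity) (by
        rw [hC₂]
        have : 0 ≤ 96 * (G + 1) + 192 * (C + Qc Λ + 32) := by positivity
        linarith)
      have e15 : 96 * C₄ / t = 32 * (3 * C₄ / t) := by ring
      linarith
    have e16 : (12 : ℝ) ≤ hh := by
      have e17 := hlarge (192 * (C + Qc Λ + 32)) (by positivity) (by
        rw [hC₂]
        have : 0 ≤ 96 * C₄ + 96 * (G + 1) := by positivity
        linarith)
      have e18 := hdivt (192 * (C + Qc Λ + 32)) (by positivity)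
      linarith
    calc Real.exp (-hh) + (⌈hh / 8 / 6⌉₊ : ℝ) * (‖Λ‖ * (Real.exp (-hh) ^ (1 / p) *
          (1 + V + 2 * (2 * R) * (4 * Real.pi * 16 ^ 4 / D ^ 3))))
        ≤ Real.exp (-hh) + Real.exp (hh / 48) * (‖Λ‖ * (Real.exp (-(hh / 4)) *
          ((1 + V + 2 * (2 * R) * (4 * Real.pi * 16 ^ 4)) * Real.exp (3 * C₄ / t)))) := by
          gcongr
      _ = Real.exp (-hh) + Real.exp (hh / 48) * (Real.exp (-(hh / 4)) *
          (G * Real.exp (3 * C₄ / t))) := by rw [hG]; ring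
      _ ≤ Real.exp (-hh) + Real.exp (hh / 48) * (Real.exp (-(hh / 4)) *
          (Real.exp (hh / 96) * Real.exp (hh / 32))) := by gcongr
      _ = Real.exp (-hh) + Real.exp (-(3 * hh / 16)) := by
          rw [← Real.exp_add, ← Real.exp_add, ← Real.exp_add]
          congr 2
          ring
      _ ≤ Real.exp (-(3 * hh / 16)) + Real.exp (-(3 * hh / 16)) := by
          gcongr
          linarith
      _ = 2 * Real.exp (-(3 * hh / 16)) := by ring
      _ ≤ Real.exp (3 / 4) * Real.exp (-(3 * hh / 16)) :=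
          mul_le_mul_of_nonneg_right two_le_exp (Real.exp_pos _).le
      _ = Real.exp (3 / 4 - 3 * hh / 16) := by rw [← Real.exp_add]; congr 1
      _ ≤ Real.exp (-(hh / 8)) := by
          apply Real.exp_le_exp.2
          linarith

/-- Moving to the left by one square. -/
theorem square_move {f : ℂ → ℂ} {t M : ℝ} (_ht : 0 < t)
    (hf : ∀ w : ℂ, -t < w.re → w.re < 0 → DifferentiableAt ℂ f w)
    (hM : ∀ w : ℂ, -(3 * t / 4) ≤ w.re → w.re < 0 → ‖f w‖ ≤ Real.exp M)
    {r σ y A H : ℝ} (hσ : 0 < σ) (hr0 : r < 0) (hr : -(3 * t / 4) ≤ r - 2 * σ) (hA : 6 * M ≤ A)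
    (hS : Small f r y A H) : Small f (r - σ) y (A / 8) (H - σ) := by
  intro s hs
  set c : ℂ := ((r - σ : ℝ) : ℂ) + s * I with hc
  have hcre : c.re = r - σ := by simp [hc]
  have hcim : c.im = s := by simp [hc]
  have hwre : ∀ w : ℂ, |(w - c).re| ≤ σ → -(3 * t / 4) ≤ w.re ∧ w.re < 0 := by
    intro w hw
    rw [Complex.sub_re, hcre] at hw
    have := abs_le.1 hw
    constructor <;> linarith [this.1, this.2]
  have key := square_bound (f := f) (c := c) (s := σ) (M := Real.exp M) (ε := Real.exp (-A)) hσ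
    (fun w hw _ => hf w (by have := (hwre w hw).1; linarith) (hwre w hw).2)
    (fun w hw _ => hM w (hwre w hw).1 (hwre w hw).2) ?_
  · have h1 : ‖f c‖ ^ 4 ≤ Real.exp (-(A / 8)) ^ 4 := by
      refine key.trans ?_
      rw [← Real.exp_nat_mul, ← Real.exp_nat_mul, ← Real.exp_add]
      apply Real.exp_le_exp.2
      push_cast
      linarith
    exact le_of_pow_le_pow_left₀ (by norm_num) (Real.exp_pos _).le h1
  · intro w hw1 hw2
    have h1 : w = (r : ℂ) + (w.im : ℂ) * I := by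
      apply Complex.ext
      · rw [Complex.sub_re, hcre] at hw1
        simp
        linarith
      · simp
    rw [Complex.sub_im, hcim] at hw2
    rw [h1]
    apply hS
    have h2 : |w.im - y| ≤ |w.im - s| + |s - y| := by
      calc |w.im - y| = |(w.im - s) + (s - y)| := by congr 1; ring
        _ ≤ _ := abs_add_le _ _
    linarith

/-- The full transfer step. -/
theorem Conf.trans_step (h : Conf Ω φ ψ R) (Λ : Lp ℂ q μ →L[ℂ] ℂ) {p : ℝ}
    (hq : q = ENNReal.ofReal p) (hp1 : 1 ≤ p) (hp4 : p ≤ 4) {C : ℝ} (hC : 0 < C)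
    (hsep : SepC ψ C) :
    ∃ C₂ : ℝ, 0 < C₂ ∧ ∀ t t' : ℝ, 0 < t' → t' ≤ t / 2 → t ≤ 1 → ∀ hh : ℝ, C₂ / t ≤ hh →
      μ.restrict (Ω \ Kt Ω φ t) ≤ ENNReal.ofReal (Real.exp (-hh)) • (volume : Measure ℂ) →
      ∀ y H : ℝ, Small (ft Λ Ω φ ψ t') (-(t' / 2)) y hh H →
      Small (ft Λ Ω φ ψ t) (-(t / 2)) y (hh / 196608) (H - 3 / 4 * t) := by
  obtain ⟨C₂, hC₂, hpt⟩ := h.trans_pt Λ hq hp1 hp4 hC hsep
  have hQ := Qc_nonneg Λ
  refine ⟨C₂ + 147456 * (C + Qc Λ), by positivity, ?_⟩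
  intro t t' ht' htt ht1 hh hhh hμ y H hS
  have ht : 0 < t := by linarith
  have e1 : C₂ / t ≤ hh := by
    refine le_trans ?_ hhh
    gcongr
    have : 0 ≤ 147456 * (C + Qc Λ) := by positivity
    linarith
  have e2 : 147456 * ((C + Qc Λ) / t) ≤ hh := by
    refine le_trans ?_ hhh
    rw [← mul_div_assoc]
    gcongr
    linarith
  have hf : ∀ w : ℂ, -t < w.re → w.re < 0 → DifferentiableAt ℂ (ft Λ Ω φ ψ t) w :=
    fun w h1 h2 => h.ft_diff Λ ht h1 h2
  have hM : ∀ w : ℂ, -(3 * t / 4) ≤ w.re → w.re < 0 →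
      ‖ft Λ Ω φ ψ t w‖ ≤ Real.exp ((C + Qc Λ) / t) :=
    fun w h1 h2 => h.ft_bound Λ hsep ht ht1 h2 h1
  have hM0 : 0 ≤ (C + Qc Λ) / t := by positivity
  have hS0 : Small (ft Λ Ω φ ψ t) (-(t' / 2)) y (hh / 48) (H - t / 8) := by
    intro s hs
    apply hpt t t' ht' htt ht1 hh e1 hμ s
    intro s' hs'
    apply hS
    have h2 : |s' - y| ≤ |s' - s| + |s - y| := by
      calc |s' - y| = |(s' - s) + (s - y)| := by congr 1; ring
        _ ≤ _ := abs_add_le _ _
    linarith
  set σ : ℝ := (t - t') / 8 with hσ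
  have hσ0 : 0 < σ := by rw [hσ]; linarith
  have hS1 := square_move ht hf hM hσ0 (r := -(t' / 2)) (by linarith) (by rw [hσ]; linarith)
    (by linarith) hS0
  have hS2 := square_move ht hf hM hσ0 (r := -(t' / 2) - σ) (by linarith) (by rw [hσ]; linarith)
    (by linarith) hS1
  have hS3 := square_move ht hf hM hσ0 (r := -(t' / 2) - σ - σ) (by linarith)
    (by rw [hσ]; linarith) (by linarith) hS2
  have hS4 := square_move ht hf hM hσ0 (r := -(t' / 2) - σ - σ - σ) (by linarith)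
    (by rw [hσ]; linarith) (by linarith) hS3
  have hr : -(t' / 2) - σ - σ - σ - σ = -(t / 2) := by rw [hσ]; ring
  rw [hr] at hS4
  exact hS4.mono (by linarith) (by rw [hσ]; linarith)

end

end Pool.Agent.H76Brennan
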