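import Pool.Agent.H76Brennan.Finish

set_option autoImplicit false
set_option linter.unusedSectionVars false
set_option linter.style.haveILetI false
open Complex Set Metric Filter Topology MeasureTheory
open scoped ENNReal NNReal

namespace Pool.Agent.H76Brennan

/-- density -/
noncomputable def dens (φ : ℂ → ℂ) (W : ℝ → ℝ) (z : ℂ) : ℝ≥0∞ := ENNReal.ofReal (W (1 - ‖φ z‖))

/-- the weighted measure -/
noncomputable def mu (Ω : Set ℂ) (φ : ℂ → ℂ) (W : ℝ → ℝ) : Measure ℂ :=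
  ((volume : Measure ℂ).restrict Ω).withDensity (fun z => ENNReal.ofReal (W (1 - ‖φ z‖)))

/-- The hypotheses on the weight. -/
structure IsW (W : ℝ → ℝ) : Prop where
  pos : ∀ t ∈ Ioc (0 : ℝ) 1, 0 < W t
  mono : MonotoneOn W (Ioc (0 : ℝ) 1)

section
variable {Ω : Set ℂ} {φ ψ : ℂ → ℂ} {R : ℝ} {W : ℝ → ℝ}

theorem Conf.arg_mem (h : Conf Ω φ ψ R) {z : ℂ} (hz : z ∈ Ω) : 1 - ‖φ z‖ ∈ Ioc (0 : ℝ) 1 := by
  have h1 := h.φm z hz
  have h2 := norm_nonneg (φ z)
  constructor <;> linarith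

theorem mu_ac (Ω : Set ℂ) (φ : ℂ → ℂ) (W : ℝ → ℝ) : mu Ω φ W ≪ (volume : Measure ℂ).restrict Ω :=
  withDensity_absolutelyContinuous _ _

theorem Conf.mu_ae (h : Conf Ω φ ψ R) : ∀ᵐ z ∂(mu Ω φ W), z ∈ Ω :=
  (mu_ac Ω φ W).ae_le (ae_restrict_mem h.isOpen.measurableSet)

theorem Conf.mu_restrict_le (h : Conf Ω φ ψ R) (hW : IsW W) {t : ℝ} (ht : 0 < t) (ht1 : t ≤ 1) :
    (mu Ω φ W).restrict (Ω \ Kt Ω φ t) ≤ ENNReal.ofReal (W t) • (volume : Measure ℂ) := by
  have hA : MeasurableSet (Ω \ Kt Ω φ t) :=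
    h.isOpen.measurableSet.diff (h.Kt_compact ht).measurableSet
  rw [Measure.le_iff]
  intro s hs
  rw [Measure.restrict_apply hs, mu, withDensity_apply _ (hs.inter hA), Measure.smul_apply,
    smul_eq_mul]
  calc ∫⁻ z in s ∩ (Ω \ Kt Ω φ t), ENNReal.ofReal (W (1 - ‖φ z‖)) ∂(volume.restrict Ω)
      ≤ ∫⁻ _ in s ∩ (Ω \ Kt Ω φ t), ENNReal.ofReal (W t) ∂(volume.restrict Ω) := by
        apply setLIntegral_mono' (hs.inter hA)
        intro z hz
        apply ENNReal.ofReal_le_ofReal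
        have hzΩ : z ∈ Ω := hz.2.1
        have h1 : Real.exp (-t) < ‖φ z‖ := by
          by_contra hcon
          exact hz.2.2 ⟨hzΩ, not_lt.1 hcon⟩
        apply hW.mono (h.arg_mem hzΩ) ⟨ht, ht1⟩
        have := Real.add_one_le_exp (-t)
        linarith
    _ = ENNReal.ofReal (W t) * (volume.restrict Ω) (s ∩ (Ω \ Kt Ω φ t)) := by
        rw [setLIntegral_const]
    _ ≤ ENNReal.ofReal (W t) * volume s := by
        gcongr
        · exact Measure.restrict_le_self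
        · exact inter_subset_left

theorem Conf.mu_finite (h : Conf Ω φ ψ R) (hW : IsW W) : IsFiniteMeasure (mu Ω φ W) := by
  constructor
  rw [mu, withDensity_apply _ MeasurableSet.univ, Measure.restrict_univ]
  calc ∫⁻ z, ENNReal.ofReal (W (1 - ‖φ z‖)) ∂(volume.restrict Ω)
      ≤ ∫⁻ _ in Ω, ENNReal.ofReal (W 1) := by
        apply setLIntegral_mono' h.isOpen.measurableSet
        intro z hz
        apply ENNReal.ofReal_le_ofReal
        exact hW.mono (h.arg_mem hz) ⟨one_pos, le_rfl⟩ (h.arg_mem hz).2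
    _ = ENNReal.ofReal (W 1) * volume Ω := setLIntegral_const _ _
    _ < ∞ := by
        apply ENNReal.mul_lt_top ENNReal.ofReal_lt_top
        have : Ω ⊆ ball 0 R := fun z hz => by simpa using h.bdd z hz
        exact (measure_mono this).trans_lt measure_ball_lt_top

/-- `hh k = log (1/W(2^{-k}))`. -/
noncomputable def hW (W : ℝ → ℝ) (k : ℕ) : ℝ := Real.log (1 / W (tk k))

theorem tk_mem (k : ℕ) : tk k ∈ Ioc (0 : ℝ) 1 := ⟨tk_pos k, tk_le_one k⟩

theorem exp_neg_hW (hW' : IsW W) (k : ℕ) : Real.exp (-(hW W k)) = W (tk k) := by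
  have h1 := hW'.pos _ (tk_mem k)
  rw [hW, one_div, Real.log_inv, neg_neg, Real.exp_log h1]

theorem tk_tendsto : Tendsto tk atTop (𝓝[>] 0) := by
  rw [tendsto_nhdsWithin_iff]
  constructor
  · unfold tk
    exact tendsto_pow_atTop_nhds_zero_of_lt_one (by norm_num) (by norm_num)
  · exact Eventually.of_forall (fun k => tk_pos k)

theorem hW_large (hW' : IsW W) (hlim : Tendsto W (𝓝[>] 0) (𝓝 0)) :
    ∃ k₀, ∀ k, k₀ ≤ k → 1 ≤ hW W k := by
  have h1 : Tendsto (fun k => W (tk k)) atTop (𝓝 0) := hlim.comp tk_tendsto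
  have h2 : ∀ᶠ k in atTop, W (tk k) < Real.exp (-1) :=
    h1.eventually (gt_mem_nhds (Real.exp_pos _))
  obtain ⟨k₀, hk₀⟩ := eventually_atTop.1 h2
  refine ⟨k₀, fun k hk => ?_⟩
  have h3 := hk₀ k hk
  have h4 := hW'.pos _ (tk_mem k)
  rw [hW, one_div, Real.log_inv]
  have h5 : Real.log (W (tk k)) < -1 := by
    rw [Real.log_lt_iff_lt_exp h4]; exact h3
  linarith

theorem not_summable_hW (hW' : IsW W) (hlim : Tendsto W (𝓝[>] 0) (𝓝 0))
    (hdiv : ∀ δ : ℝ, 0 < δ → ¬ IntegrableOn (fun t : ℝ => Real.log (Real.log (1 / W t)))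
      (Ioo (0 : ℝ) δ)) :
    ¬ Summable (fun k => tk k * Real.log (hW W k)) := by
  intro hsum
  obtain ⟨k₀, hk₀⟩ := hW_large hW' hlim
  set L : ℝ → ℝ := fun t => Real.log (Real.log (1 / W t)) with hL
  apply hdiv (tk k₀) (tk_pos k₀)
  have hδ1 : tk k₀ ≤ 1 := tk_le_one k₀
  have hmem : ∀ t, 0 < t → t ≤ tk k₀ → t ∈ Ioc (0 : ℝ) 1 := fun t h1 h2 => ⟨h1, h2.trans hδ1⟩
  have hlog1 : ∀ t, 0 < t → t ≤ tk k₀ → 1 ≤ Real.log (1 / W t) := by
    intro t h1 h2
    have h3 := hW'.pos t (hmem t h1 h2)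
    have h4 : W t ≤ W (tk k₀) := hW'.mono (hmem t h1 h2) (tk_mem k₀) h2
    refine (hk₀ k₀ le_rfl).trans ?_
    rw [hW]
    apply Real.log_le_log (by have := hW'.pos _ (tk_mem k₀); positivity)
    exact one_div_le_one_div_of_le h3 h4
  have hanti : ∀ s t, 0 < s → s ≤ t → t ≤ tk k₀ → L t ≤ L s := by
    intro s t h1 h2 h3
    have h4 := hlog1 t (h1.trans_le h2) h3
    apply Real.log_le_log (by linarith)
    apply Real.log_le_log
    · have := hW'.pos t (hmem t (h1.trans_le h2) h3)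
      positivity
    · have h5 := hW'.pos s (hmem s h1 (h2.trans h3))
      exact one_div_le_one_div_of_le h5 (hW'.mono (hmem s h1 (h2.trans h3))
        (hmem t (h1.trans_le h2) h3) h2)
  have hnn : ∀ t, 0 < t → t ≤ tk k₀ → 0 ≤ L t := by
    intro t h1 h2
    exact Real.log_nonneg (hlog1 t h1 h2)
  have hmeas : AEStronglyMeasurable L (volume.restrict (Ioo 0 (tk k₀))) := by
    apply AEMeasurable.aestronglyMeasurable
    apply aemeasurable_restrict_of_antitoneOn measurableSet_Ioo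
    intro s hs t ht hst
    exact hanti s t hs.1 hst ht.2.le
  refine ⟨hmeas, ?_⟩
  -- cover by dyadic intervals
  have hcover : Ioo 0 (tk k₀) ⊆ ⋃ j : ℕ, Ioc (tk (k₀ + j + 1)) (tk (k₀ + j)) := by
    intro t ht
    have h1 : ∃ k, tk k < t := by
      have : ∀ᶠ k in atTop, tk k < t :=
        (tk_tendsto.mono_right nhdsWithin_le_nhds).eventually (gt_mem_nhds ht.1)
      exact this.exists
    classical
    set k := Nat.find h1 with hk
    have hk1 : tk k < t := Nat.find_spec h1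
    have hk2 : k₀ < k := by
      by_contra hcon
      have := tk_anti (not_lt.1 hcon)
      linarith [ht.2]
    have hk3 : t ≤ tk (k - 1) := by
      by_contra hcon
      exact Nat.find_min h1 (show k - 1 < Nat.find h1 by omega) (not_le.1 hcon)
    rw [mem_iUnion]
    refine ⟨k - 1 - k₀, ?_, ?_⟩
    · rw [show k₀ + (k - 1 - k₀) + 1 = k by omega]; exact hk1
    · rw [show k₀ + (k - 1 - k₀) = k - 1 by omega]; exact hk3
  rw [hasFiniteIntegral_iff_enorm]
  calc ∫⁻ t in Ioo 0 (tk k₀), ‖L t‖ₑ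
      ≤ ∫⁻ t in ⋃ j : ℕ, Ioc (tk (k₀ + j + 1)) (tk (k₀ + j)), ‖L t‖ₑ :=
        lintegral_mono_set hcover
    _ ≤ ∑' j : ℕ, ∫⁻ t in Ioc (tk (k₀ + j + 1)) (tk (k₀ + j)), ‖L t‖ₑ := lintegral_iUnion_le _ _
    _ ≤ ∑' j : ℕ, ENNReal.ofReal (tk (k₀ + j + 1) * Real.log (hW W (k₀ + j + 1))) := by
        apply ENNReal.tsum_le_tsum
        intro j
        calc ∫⁻ t in Ioc (tk (k₀ + j + 1)) (tk (k₀ + j)), ‖L t‖ₑ
            ≤ ∫⁻ _ in Ioc (tk (k₀ + j + 1)) (tk (k₀ + j)),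
                ENNReal.ofReal (Real.log (hW W (k₀ + j + 1))) := by
              apply setLIntegral_mono' measurableSet_Ioc
              intro t ht
              have h0 : 0 < t := (tk_pos _).trans ht.1
              have h1 : t ≤ tk k₀ := ht.2.trans (tk_anti (by omega))
              rw [Real.enorm_of_nonneg (hnn t h0 h1)]
              apply ENNReal.ofReal_le_ofReal
              exact hanti _ t (tk_pos _) ht.1.le h1
          _ = ENNReal.ofReal (tk (k₀ + j + 1) * Real.log (hW W (k₀ + j + 1))) := by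
              rw [setLIntegral_const, Real.volume_Ioc, mul_comm,
                ← ENNReal.ofReal_mul (by rw [tk_succ]; linarith [tk_pos (k₀ + j)])]
              congr 1
              rw [tk_succ]
              ring
    _ < ∞ := by
        apply Summable.tsum_ofReal_lt_top
        have := (summable_nat_add_iff (k₀ + 1)).2 hsum
        refine this.congr (fun j => ?_)
        rw [show j + (k₀ + 1) = k₀ + j + 1 by ring]

/-- The functional vanishes, for the weighted measure. -/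
theorem Conf.mu_val_zero (h : Conf Ω φ ψ R) (hW' : IsW W) (hlim : Tendsto W (𝓝[>] 0) (𝓝 0))
    (hdiv : ∀ δ : ℝ, 0 < δ → ¬ IntegrableOn (fun t : ℝ => Real.log (Real.log (1 / W t)))
      (Ioo (0 : ℝ) δ))
    [IsFiniteMeasure (mu Ω φ W)] {q : ℝ≥0∞} [Fact (1 ≤ q)]
    (Λ : Lp ℂ q (mu Ω φ W) →L[ℂ] ℂ) {p : ℝ}
    (hq : q = ENNReal.ofReal p) (hp1 : 1 ≤ p) (hp4 : p ≤ 4)
    (hΛ : ∀ n : ℕ, val Λ (fun z => z ^ n) = 0)
    {f : ℂ → ℂ} (hf : DifferentiableOn ℂ f Ω) (hfL : MemLp f q (mu Ω φ W)) {Cf : ℝ}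
    (hCf : 0 ≤ Cf)
    (hgr : ∀ a : ℂ, ‖a‖ < 1 → ‖f (ψ a) * deriv ψ a‖ ≤ Real.exp (Cf / (1 - ‖a‖))) :
    val Λ f = 0 := by
  obtain ⟨k₀, hk₀⟩ := hW_large hW' hlim
  refine h.val_zero Λ hq hp1 hp4 h.mu_ae hΛ (hW W) k₀ hk₀ ?_ (not_summable_hW hW' hlim hdiv)
    hf hfL hCf hgr
  intro k _
  rw [exp_neg_hW hW']
  exact h.mu_restrict_le hW' (tk_pos k) (tk_le_one k)

end

end Pool.Agent.H76Brennan
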